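import Pool.Agent.ZFIter.FDef

/-! # Basic properties of the forcing relation -/

universe u v

namespace Pool.Agent.ZFIter

open Pool.Agent.H78.ZF

variable {M : Type u} [ZFM M] {ι : Type}

theorem Le.memL {P R q p : M} (h : Le P R q p) : q ∈ P := h.1
theorem Le.memR {P R q p : M} (h : Le P R q p) : p ∈ P := h.2.1

/-- `(P, R)` is a preorder. -/
class Pre (P R : M) : Prop where
  refl : ∀ {p}, p ∈ P → Le P R p p
  trans : ∀ {r q p}, Le P R r q → Le P R q p → Le P R r p

theorem Trans.fst {T a z s : M} (hT : Trans T) (ha : a ∈ T) (h : opair z s ∈ a) : z ∈ T := by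
  have h1 : opair z s ∈ T := hT a ha _ h
  have h2 : sing z ∈ T := hT _ h1 _ (by simp [opair])
  exact hT _ h2 _ (by simp)

/-! ### The recursion for forced equality -/

/-- The clause for equality, with forced equality itself. -/
def Cl1 (P R p x y : M) : Prop :=
  ∀ z s, opair z s ∈ x → ∀ q, Le P R q p → Le P R q s →
    ∃ r, Le P R r q ∧ ∃ w t, opair w t ∈ y ∧ Le P R r t ∧ FEq P R r z w

/-- The other half. -/
def Cl2 (P R p x y : M) : Prop :=
  ∀ w t, opair w t ∈ y → ∀ q, Le P R q p → Le P R q t →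
    ∃ r, Le P R r q ∧ ∃ z s, opair z s ∈ x ∧ Le P R r s ∧ FEq P R r z w

instance DR.Cl1 (P R p x y : (ι → M) → M) [DF P] [DF R] [DF p] [DF x] [DF y] :
    DR (fun v => Cl1 (P v) (R v) (p v) (x v) (y v)) := by
  unfold ZFIter.Cl1
  infer_instance

instance DR.Cl2 (P R p x y : (ι → M) → M) [DF P] [DF R] [DF p] [DF x] [DF y] :
    DR (fun v => Cl2 (P v) (R v) (p v) (x v) (y v)) := by
  unfold ZFIter.Cl2
  infer_instance

section
variable {P R : M}

theorem EqClause.mono {G G' : M → M → M → Prop} (h : ∀ p x y, G p x y → G' p x y) {p x y : M}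
    (hc : EqClause P R G p x y) : EqClause P R G' p x y := by
  constructor
  · intro z s hz q hq hs
    obtain ⟨r, hr, w, t, hw, ht, hG⟩ := hc.1 z s hz q hq hs
    exact ⟨r, hr, w, t, hw, ht, h _ _ _ hG⟩
  · intro z s hz q hq hs
    obtain ⟨r, hr, w, t, hw, ht, hG⟩ := hc.2 z s hz q hq hs
    exact ⟨r, hr, w, t, hw, ht, h _ _ _ hG⟩

theorem feq_coind (G : M → M → M → Prop) [D3 G]
    (h : ∀ p x y, G p x y → EqClause P R G p x y) {p x y : M} (hG : G p x y) :
    FEq P R p x y := by
  have hT := trans_tc (upair x y)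
  have hsub := sub_tc (upair x y)
  have key : ∀ q a b, opair q (opair a b) ∈ sep (prod (ins P p) (prod (tc (upair x y)) (tc (upair x y))))
      (fun w => ∃ q a b, w = opair q (opair a b) ∧ G q a b) ↔
      (q ∈ P ∨ q = p) ∧ a ∈ tc (upair x y) ∧ b ∈ tc (upair x y) ∧ G q a b := by
    intro q a b
    rw [mem_sep, opair_mem_prod, opair_mem_prod, mem_ins]
    constructor
    · rintro ⟨⟨h1, h2, h3⟩, q', a', b', e, h4⟩
      obtain ⟨rfl, e2⟩ := opair_inj e
      obtain ⟨rfl, rfl⟩ := opair_inj e2
      exact ⟨h1, h2, h3, h4⟩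
    · rintro ⟨h1, h2, h3, h4⟩
      exact ⟨⟨h1, h2, h3⟩, q, a, b, rfl, h4⟩
  refine ⟨sep (prod (ins P p) (prod (tc (upair x y)) (tc (upair x y))))
      (fun w => ∃ q a b, w = opair q (opair a b) ∧ G q a b), ?_, ?_⟩
  · rw [key]
    exact ⟨Or.inr rfl, hsub _ (by simp), hsub _ (by simp), hG⟩
  · intro q a b hab
    rw [key] at hab
    obtain ⟨_, ha, hb, hG'⟩ := hab
    have hc := h q a b hG'
    constructor
    · intro z s hz q' hq' hs
      obtain ⟨r, hr, w, t, hw, ht, hG2⟩ := hc.1 z s hz q' hq' hs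
      exact ⟨r, hr, w, t, hw, ht,
        (key _ _ _).2 ⟨Or.inl hr.memL, hT.fst ha hz, hT.fst hb hw, hG2⟩⟩
    · intro w t hw q' hq' hs
      obtain ⟨r, hr, z, s, hz, hs', hG2⟩ := hc.2 w t hw q' hq' hs
      exact ⟨r, hr, z, s, hz, hs',
        (key _ _ _).2 ⟨Or.inl hr.memL, hT.fst ha hz, hT.fst hb hw, hG2⟩⟩

theorem feq_clause {p x y : M} (h : FEq P R p x y) : EqClause P R (FEq P R) p x y := by
  obtain ⟨W, hW, h⟩ := h
  exact (h p x y hW).mono fun q a b hab => ⟨W, hab, h⟩

theorem feq_iff {p x y : M} : FEq P R p x y ↔ EqClause P R (FEq P R) p x y := by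
  refine ⟨feq_clause, fun h => ?_⟩
  have : D3 (fun p x y : M => Cl1 P R p x y ∧ Cl2 P R p x y) := by infer_instance
  refine feq_coind (fun p x y => Cl1 P R p x y ∧ Cl2 P R p x y) ?_ h
  intro q a b hab
  exact EqClause.mono (fun _ _ _ h => feq_clause h) hab

variable [hP : Pre P R]

theorem feq_refl (p x : M) : FEq P R p x x := by
  refine feq_coind (fun _ x y => x = y) ?_ rfl
  rintro q a b rfl
  exact ⟨fun z s hz q' hq' hs => ⟨q', Pre.refl hq'.memL, z, s, hz, hs, rfl⟩,
    fun z s hz q' hq' hs => ⟨q', Pre.refl hq'.memL, z, s, hz, hs, rfl⟩⟩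

omit hP in
theorem feq_symm {p x y : M} (h : FEq P R p x y) : FEq P R p y x := by
  refine feq_coind (fun p x y => FEq P R p y x) ?_ h
  intro q a b hab
  have hc := feq_clause hab
  exact ⟨hc.2, hc.1⟩

theorem feq_mono {p q x y : M} (h : FEq P R p x y) (hq : Le P R q p) : FEq P R q x y := by
  rw [feq_iff] at h ⊢
  exact ⟨fun z s hz r hr hs => h.1 z s hz r (Pre.trans hr hq) hs,
    fun z s hz r hr hs => h.2 z s hz r (Pre.trans hr hq) hs⟩

theorem feq_dense {p x y : M} (h : ∀ q, Le P R q p → ∃ r, Le P R r q ∧ FEq P R r x y) :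
    FEq P R p x y := by
  rw [feq_iff]
  constructor
  · intro z s hz q hq hs
    obtain ⟨r, hr, hrr⟩ := h q hq
    obtain ⟨r', hr', w, t, hw, ht, hE⟩ := (feq_clause hrr).1 z s hz r (Pre.refl hr.memL)
      (Pre.trans hr hs)
    exact ⟨r', Pre.trans hr' hr, w, t, hw, ht, hE⟩
  · intro z s hz q hq hs
    obtain ⟨r, hr, hrr⟩ := h q hq
    obtain ⟨r', hr', w, t, hw, ht, hE⟩ := (feq_clause hrr).2 z s hz r (Pre.refl hr.memL)
      (Pre.trans hr hs)
    exact ⟨r', Pre.trans hr' hr, w, t, hw, ht, hE⟩

theorem feq_trans {p x y z : M} (h : FEq P R p x y) (h' : FEq P R p y z) : FEq P R p x z := by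
  refine feq_coind (fun p x z => ∃ y, FEq P R p x y ∧ FEq P R p y z) ?_ ⟨y, h, h'⟩
  rintro q a c ⟨b, hab, hbc⟩
  constructor
  · intro z s hz q' hq' hs
    obtain ⟨r, hr, w, t, hw, ht, hE⟩ := (feq_clause hab).1 z s hz q' hq' hs
    obtain ⟨r', hr', u, t', hu, ht', hE'⟩ := (feq_clause hbc).1 w t hw r (Pre.trans hr hq') ht
    exact ⟨r', Pre.trans hr' hr, u, t', hu, ht', w, feq_mono hE hr', hE'⟩
  · intro z s hz q' hq' hs
    obtain ⟨r, hr, w, t, hw, ht, hE⟩ := (feq_clause hbc).2 z s hz q' hq' hs
    obtain ⟨r', hr', u, t', hu, ht', hE'⟩ := (feq_clause hab).2 w t hw r (Pre.trans hr hq') ht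
    exact ⟨r', Pre.trans hr' hr, u, t', hu, ht', w, hE', feq_mono hE hr'⟩

/-! ### Forced membership -/

theorem fmem_mono {p q x y : M} (h : FMem P R p x y) (hq : Le P R q p) : FMem P R q x y :=
  fun r hr => h r (Pre.trans hr hq)

theorem fmem_dense {p x y : M} (h : ∀ q, Le P R q p → ∃ r, Le P R r q ∧ FMem P R r x y) :
    FMem P R p x y := by
  intro q hq
  obtain ⟨r, hr, h1⟩ := h q hq
  obtain ⟨s, hs, h2⟩ := h1 r (Pre.refl hr.memL)
  exact ⟨s, Pre.trans hs hr, h2⟩

theorem fmem_of {p z s y : M} (h : opair z s ∈ y) (hp : Le P R p s) : FMem P R p z y :=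
  fun q hq => ⟨q, Pre.refl hq.memL, z, s, h, Pre.trans hq hp, feq_refl q z⟩

theorem fmem_congrL {p x x' y : M} (h : FEq P R p x x') (hm : FMem P R p x y) :
    FMem P R p x' y := by
  intro q hq
  obtain ⟨r, hr, z, s, hz, hs, hE⟩ := hm q hq
  exact ⟨r, hr, z, s, hz, hs, feq_trans (feq_symm (feq_mono h (Pre.trans hr hq))) hE⟩

theorem fmem_congrR {p x y y' : M} (h : FEq P R p y y') (hm : FMem P R p x y) :
    FMem P R p x y' := by
  intro q hq
  obtain ⟨r, hr, z, s, hz, hs, hE⟩ := hm q hq
  obtain ⟨r', hr', w, t, hw, ht, hE'⟩ := (feq_clause h).1 z s hz r (Pre.trans hr hq) hs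
  exact ⟨r', Pre.trans hr' hr, w, t, hw, ht, feq_trans (feq_mono hE hr') hE'⟩

theorem feq_ext {p x y : M} (h : ∀ q z, Le P R q p → (FMem P R q z x → FMem P R q z y))
    (h' : ∀ q z, Le P R q p → (FMem P R q z y → FMem P R q z x)) : FEq P R p x y := by
  rw [feq_iff]
  constructor
  · intro z s hz q hq hs
    obtain ⟨r, hr, w, t, hw, ht, hE⟩ := h q z hq (fmem_of hz hs) q (Pre.refl hq.memL)
    exact ⟨r, hr, w, t, hw, ht, hE⟩
  · intro z s hz q hq hs
    obtain ⟨r, hr, w, t, hw, ht, hE⟩ := h' q z hq (fmem_of hz hs) q (Pre.refl hq.memL)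
    exact ⟨r, hr, w, t, hw, ht, feq_symm hE⟩

end

/-! ### Monotone and dense statements -/

/-- The class of conditions is closed downwards and under density. -/
class Good (P R : M) (A : M → Prop) : Prop where
  mono : ∀ {p q}, A p → Le P R q p → A q
  dense : ∀ {p}, (∀ q, Le P R q p → ∃ r, Le P R r q ∧ A r) → A p

section good

variable {P R : M} [hP : Pre P R]

instance Good.fmem (x y : M) : Good P R ((forc P R).mem x y) := ⟨fmem_mono, fmem_dense⟩
instance Good.feq (x y : M) : Good P R ((forc P R).eq x y) := ⟨feq_mono, feq_dense⟩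

instance Good.fand (A B : M → Prop) [hA : Good P R A] [hB : Good P R B] :
    Good P R ((forc P R).and A B) := by
  refine ⟨fun h hq => ⟨hA.mono h.1 hq, hB.mono h.2 hq⟩, fun h => ⟨hA.dense fun q hq => ?_,
    hB.dense fun q hq => ?_⟩⟩
  · obtain ⟨r, hr, h1⟩ := h q hq; exact ⟨r, hr, h1.1⟩
  · obtain ⟨r, hr, h1⟩ := h q hq; exact ⟨r, hr, h1.2⟩

instance Good.for' (A B : M → Prop) : Good P R ((forc P R).or A B) := by
  refine ⟨fun h hq r hr => h r (Pre.trans hr hq), fun h q hq => ?_⟩
  obtain ⟨r, hr, h1⟩ := h q hq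
  obtain ⟨s, hs, h2⟩ := h1 r (Pre.refl hr.memL)
  exact ⟨s, Pre.trans hs hr, h2⟩

instance Good.fimp (A B : M → Prop) [hA : Good P R A] [hB : Good P R B] :
    Good P R ((forc P R).imp A B) := by
  refine ⟨fun h hq r hr => h r (Pre.trans hr hq), fun h q hq hAq => hB.dense fun r hr => ?_⟩
  obtain ⟨s, hs, h1⟩ := h r (Pre.trans hr hq)
  exact ⟨s, hs, h1 s (Pre.refl hs.memL) (hA.mono hAq (Pre.trans hs hr))⟩

instance Good.fnot (A : M → Prop) [hA : Good P R A] : Good P R ((forc P R).not A) := by
  refine ⟨fun h hq r hr => h r (Pre.trans hr hq), fun h q hq hAq => ?_⟩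
  obtain ⟨r, hr, h1⟩ := h q hq
  exact h1 r (Pre.refl hr.memL) (hA.mono hAq hr)

instance Good.fall (A : M → M → Prop) [hA : ∀ x, Good P R (A x)] :
    Good P R ((forc P R).all A) := by
  refine ⟨fun h hq x => (hA x).mono (h x) hq, fun h x => (hA x).dense fun q hq => ?_⟩
  obtain ⟨r, hr, h1⟩ := h q hq
  exact ⟨r, hr, h1 x⟩

instance Good.fex (A : M → M → Prop) : Good P R ((forc P R).ex A) := by
  refine ⟨fun h hq r hr => h r (Pre.trans hr hq), fun h q hq => ?_⟩
  obtain ⟨r, hr, h1⟩ := h q hq
  obtain ⟨s, hs, h2⟩ := h1 r (Pre.refl hr.memL)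
  exact ⟨s, Pre.trans hs hr, h2⟩

instance Good.fiff (A B : M → Prop) [hA : Good P R A] [hB : Good P R B] :
    Good P R ((forc P R).iff A B) := by unfold Interp.iff; infer_instance
instance Good.fisUPair (z x y : M) : Good P R ((forc P R).isUPair z x y) := by
  unfold Interp.isUPair; infer_instance
instance Good.fisOPair (z x y : M) : Good P R ((forc P R).isOPair z x y) := by
  unfold Interp.isOPair; infer_instance
instance Good.frel (S x y : M) : Good P R ((forc P R).rel S x y) := by
  unfold Interp.rel; infer_instance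
instance Good.fsub (x y : M) : Good P R ((forc P R).sub x y) := by
  unfold Interp.sub; infer_instance
instance Good.fisEmpty (x : M) : Good P R ((forc P R).isEmpty x) := by
  unfold Interp.isEmpty; infer_instance
instance Good.fisSucc (x y : M) : Good P R ((forc P R).isSucc x y) := by
  unfold Interp.isSucc; infer_instance
instance Good.fisInductive (x : M) : Good P R ((forc P R).isInductive x) := by
  unfold Interp.isInductive; infer_instance
instance Good.fisOmega (x : M) : Good P R ((forc P R).isOmega x) := by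
  unfold Interp.isOmega; infer_instance
instance Good.fisInjection (x y z : M) : Good P R ((forc P R).isInjection x y z) := by
  unfold Interp.isInjection; infer_instance
instance Good.fcountable (x : M) : Good P R ((forc P R).countable x) := by
  unfold Interp.countable; infer_instance
instance Good.fcompat (Q S x y : M) : Good P R ((forc P R).compat Q S x y) := by
  unfold Interp.compat; infer_instance
instance Good.fantichain (Q S x : M) : Good P R ((forc P R).antichain Q S x) := by
  unfold Interp.antichain; infer_instance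
instance Good.fpredense (Q S x : M) : Good P R ((forc P R).predense Q S x) := by
  unfold Interp.predense; infer_instance

theorem fimp_apply {A B : M → Prop} {p : M} (h : (forc P R).imp A B p) (hp : p ∈ P) (hA : A p) :
    B p := h p (Pre.refl hp) hA

omit hP in
/-- Modus ponens at a condition below. -/
theorem fimp_at {A B : M → Prop} {p q : M} (h : (forc P R).imp A B p) (hq : Le P R q p)
    (hA : A q) : B q := h q hq hA

end good

/-! ### Congruence -/

/-- The names are forced equal by `p` whenever the arguments are. -/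
class CF (P R : M) (f : M → M) : Prop where
  out : ∀ {p x y}, FEq P R p x y → FEq P R p (f x) (f y)

/-- The statement is preserved by forced equality. -/
class Cong (P R : M) (A : M → M → Prop) : Prop where
  out : ∀ {p x y}, FEq P R p x y → A x p → A y p

section cong

variable {P R : M} [hP : Pre P R]

omit hP in
instance CF.var : CF P R (fun x => x) := ⟨fun h => h⟩
instance CF.const (c : M) : CF P R (fun _ => c) := ⟨fun _ => feq_refl _ _⟩

omit hP in
instance (priority := low) Cong.const (A : M → Prop) : Cong P R (fun _ => A) := ⟨fun _ h => h⟩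

instance Cong.fmem (f g : M → M) [hf : CF P R f] [hg : CF P R g] :
    Cong P R (fun x => (forc P R).mem (f x) (g x)) :=
  ⟨fun h h' => fmem_congrR (hg.out h) (fmem_congrL (hf.out h) h')⟩

instance Cong.feq (f g : M → M) [hf : CF P R f] [hg : CF P R g] :
    Cong P R (fun x => (forc P R).eq (f x) (g x)) :=
  ⟨fun h h' => feq_trans (feq_trans (feq_symm (hf.out h)) h') (hg.out h)⟩

omit hP in
instance Cong.fand (A B : M → M → Prop) [hA : Cong P R A] [hB : Cong P R B] :
    Cong P R (fun x => (forc P R).and (A x) (B x)) := ⟨fun h h' => ⟨hA.out h h'.1, hB.out h h'.2⟩⟩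

instance Cong.for' (A B : M → M → Prop) [hA : Cong P R A] [hB : Cong P R B] :
    Cong P R (fun x => (forc P R).or (A x) (B x)) := by
  refine ⟨fun h h' q hq => ?_⟩
  obtain ⟨r, hr, h1⟩ := h' q hq
  have h2 := feq_mono (feq_mono h hq) hr
  exact ⟨r, hr, h1.imp (hA.out h2) (hB.out h2)⟩

instance Cong.fimp (A B : M → M → Prop) [hA : Cong P R A] [hB : Cong P R B] :
    Cong P R (fun x => (forc P R).imp (A x) (B x)) := by
  refine ⟨fun h h' q hq h1 => ?_⟩
  have h2 := feq_mono h hq
  exact hB.out h2 (h' q hq (hA.out (feq_symm h2) h1))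

instance Cong.fnot (A : M → M → Prop) [hA : Cong P R A] :
    Cong P R (fun x => (forc P R).not (A x)) := by
  refine ⟨fun h h' q hq h1 => ?_⟩
  have h2 := feq_mono h hq
  exact h' q hq (hA.out (feq_symm h2) h1)

omit hP in
instance Cong.fall (A : M → M → M → Prop) [hA : ∀ z, Cong P R (fun x => A x z)] :
    Cong P R (fun x => (forc P R).all (fun z => A x z)) := ⟨fun h h' z => (hA z).out h (h' z)⟩

instance Cong.fex (A : M → M → M → Prop) [hA : ∀ z, Cong P R (fun x => A x z)] :
    Cong P R (fun x => (forc P R).ex (fun z => A x z)) := by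
  refine ⟨fun h h' q hq => ?_⟩
  obtain ⟨r, hr, z, h1⟩ := h' q hq
  exact ⟨r, hr, z, (hA z).out (feq_mono (feq_mono h hq) hr) h1⟩

instance Cong.fiff (A B : M → M → Prop) [hA : Cong P R A] [hB : Cong P R B] :
    Cong P R (fun x => (forc P R).iff (A x) (B x)) := by
  unfold Interp.iff; infer_instance

instance Cong.fisUPair (f g k : M → M) [CF P R f] [CF P R g] [CF P R k] :
    Cong P R (fun x => (forc P R).isUPair (f x) (g x) (k x)) := by
  unfold Interp.isUPair; infer_instance

instance Cong.fisOPair (f g k : M → M) [CF P R f] [CF P R g] [CF P R k] :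
    Cong P R (fun x => (forc P R).isOPair (f x) (g x) (k x)) := by
  unfold Interp.isOPair; infer_instance

instance Cong.frel (f g k : M → M) [CF P R f] [CF P R g] [CF P R k] :
    Cong P R (fun x => (forc P R).rel (f x) (g x) (k x)) := by
  unfold Interp.rel; infer_instance

instance Cong.fsub (f g : M → M) [CF P R f] [CF P R g] :
    Cong P R (fun x => (forc P R).sub (f x) (g x)) := by
  unfold Interp.sub; infer_instance

instance Cong.fisSucc (f g : M → M) [CF P R f] [CF P R g] :
    Cong P R (fun x => (forc P R).isSucc (f x) (g x)) := by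
  unfold Interp.isSucc; infer_instance

instance Cong.fcompat (Q S : M) (f g : M → M) [CF P R f] [CF P R g] :
    Cong P R (fun x => (forc P R).compat Q S (f x) (g x)) := by
  unfold Interp.compat; infer_instance

omit hP in
/-- Replacing a name by one forced equal to it. -/
theorem cong (A : M → M → Prop) [hA : Cong P R A] {p x y : M} (h : FEq P R p x y) (hx : A x p) :
    A y p := hA.out h hx

theorem isSucc_congr {p s s' x x' : M} (h : (forc P R).isSucc s x p) (hs : FEq P R p s s')
    (hx : FEq P R p x x') : (forc P R).isSucc s' x' p := by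
  have h1 : (forc P R).isSucc s' x p :=
    (Cong.fisSucc (P := P) (R := R) (fun s => s) (fun _ => x)).out hs h
  exact (Cong.fisSucc (P := P) (R := R) (fun _ => s') (fun x => x)).out hx h1

theorem rel_congr {p S x x' y y' : M} (h : (forc P R).rel S x y p) (hx : FEq P R p x x')
    (hy : FEq P R p y y') : (forc P R).rel S x' y' p := by
  have h1 : (forc P R).rel S x' y p :=
    (Cong.frel (P := P) (R := R) (fun _ => S) (fun x => x) (fun _ => y)).out hx h
  exact (Cong.frel (P := P) (R := R) (fun _ => S) (fun _ => x') (fun y => y)).out hy h1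

theorem isOPair_congr {p z z' x x' y y' : M} (h : (forc P R).isOPair z x y p)
    (hz : FEq P R p z z') (hx : FEq P R p x x') (hy : FEq P R p y y') :
    (forc P R).isOPair z' x' y' p := by
  have h0 : (forc P R).isOPair z' x y p :=
    (Cong.fisOPair (P := P) (R := R) (fun z => z) (fun _ => x) (fun _ => y)).out hz h
  have h1 : (forc P R).isOPair z' x' y p :=
    (Cong.fisOPair (P := P) (R := R) (fun _ => z') (fun x => x) (fun _ => y)).out hx h0
  exact (Cong.fisOPair (P := P) (R := R) (fun _ => z') (fun _ => x') (fun y => y)).out hy h1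

theorem compat_congr {p Q S x x' y y' : M} (h : (forc P R).compat Q S x y p)
    (hx : FEq P R p x x') (hy : FEq P R p y y') : (forc P R).compat Q S x' y' p := by
  have h1 : (forc P R).compat Q S x' y p :=
    (Cong.fcompat (P := P) (R := R) Q S (fun x => x) (fun _ => y)).out hx h
  exact (Cong.fcompat (P := P) (R := R) Q S (fun _ => x') (fun y => y)).out hy h1

end cong

end Pool.Agent.ZFIter
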