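import Pool.Agent.H78.ZF.Defn

set_option autoImplicit false

/-! # Isomorphic copies of models of ZF -/

universe u v

namespace Pool.Agent.ZFIter

open FirstOrder Pool.Agent.H78.ZF

section

variable {M : Type u} {N : Type v} (e : M ≃ N) (E : M → M → Prop)

/-- The relation on `N` which corresponds to `E`. -/
def copyRel : N → N → Prop := fun x y => E (e.symm x) (e.symm y)

/-- The isomorphism. -/
def copyIso : letI := structOf E; letI := structOf (copyRel e E); M ≃[LSet] N :=
  letI := structOf E
  letI := structOf (copyRel e E)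
  { toEquiv := e
    map_fun' := fun f _ => nomatch f
    map_rel' := fun r v => by
      cases r
      show copyRel e E (e (v 0)) (e (v 1)) ↔ E (v 0) (v 1)
      unfold copyRel
      rw [Equiv.symm_apply_apply, Equiv.symm_apply_apply] }

theorem definable_copy {k : ℕ} {s : Set (Fin k → N)}
    (hs : @Set.Definable N Set.univ LSet (structOf (copyRel e E)) (Fin k) s) :
    @Set.Definable M Set.univ LSet (structOf E) (Fin k) {v | (fun i => e (v i)) ∈ s} := by
  letI := structOf E
  letI := structOf (copyRel e E)
  obtain ⟨φ, hφ⟩ := Set.definable_iff_exists_formula_sum.1 hs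
  refine Set.definable_iff_exists_formula_sum.2
    ⟨φ.relabel (fun x : (Set.univ : Set N) ⊕ Fin k => x.elim (fun a => Sum.inl ⟨e.symm a.1, trivial⟩) Sum.inr), ?_⟩
  ext v
  rw [hφ]
  simp only [Set.mem_ofPred_eq, Language.Formula.realize_relabel]
  rw [← FirstOrder.Language.StrongHomClass.realize_formula (copyIso e E) φ]
  have : (copyIso e E) ∘ (Sum.elim (fun a : (Set.univ : Set M) => (a : M)) v ∘
      (fun x : (Set.univ : Set N) ⊕ Fin k =>
        x.elim (fun a => (Sum.inl ⟨e.symm a.1, trivial⟩ : (Set.univ : Set M) ⊕ Fin k)) Sum.inr)) =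
      Sum.elim (fun a : (Set.univ : Set N) => (a : N)) (fun i => e (v i)) := by
    funext x
    rcases x with a | i
    · show e (e.symm a.1) = a.1
      simp
    · rfl
  rw [this]

/-- An isomorphic copy of a model of ZF is a model of ZF. -/
theorem isZFModel_copy (h : IsZFModel E) : IsZFModel (copyRel e E) where
  extensionality x y hxy := e.symm.injective (h.extensionality _ _ fun z => by
    have := hxy (e z)
    unfold copyRel at this
    rwa [Equiv.symm_apply_apply] at this)
  foundation x hx := by
    obtain ⟨y, hy⟩ := hx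
    obtain ⟨z, hz, hz'⟩ := h.foundation _ ⟨_, hy⟩
    refine ⟨e z, ?_, fun w hw hwx => hz' _ ?_ hwx⟩
    · unfold copyRel
      rwa [Equiv.symm_apply_apply]
    · unfold copyRel at hw
      rwa [Equiv.symm_apply_apply] at hw
  pairing x y := by
    obtain ⟨z, hz⟩ := h.pairing (e.symm x) (e.symm y)
    refine ⟨e z, fun w => ?_⟩
    unfold copyRel
    rw [Equiv.symm_apply_apply, hz, e.symm.injective.eq_iff, e.symm.injective.eq_iff]
  union x := by
    obtain ⟨z, hz⟩ := h.union (e.symm x)
    refine ⟨e z, fun w => ?_⟩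
    unfold copyRel
    rw [Equiv.symm_apply_apply, hz]
    constructor
    · rintro ⟨y, h1, h2⟩
      exact ⟨e y, by rwa [Equiv.symm_apply_apply], by rwa [Equiv.symm_apply_apply]⟩
    · rintro ⟨y, h1, h2⟩
      exact ⟨_, h1, h2⟩
  powerset x := by
    obtain ⟨z, hz⟩ := h.powerset (e.symm x)
    refine ⟨e z, fun w => ?_⟩
    unfold copyRel
    rw [Equiv.symm_apply_apply, hz]
    constructor
    · intro h1 y hy
      exact h1 _ hy
    · intro h1 y hy
      have := h1 (e y)
      rw [Equiv.symm_apply_apply] at this
      exact this hy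
  infinity := by
    obtain ⟨x, ⟨a, ha, ha'⟩, hx⟩ := h.infinity
    refine ⟨e x, ⟨e a, ?_, fun z => ?_⟩, fun y hy => ?_⟩
    · unfold copyRel
      rwa [Equiv.symm_apply_apply, Equiv.symm_apply_apply]
    · unfold copyRel
      rw [Equiv.symm_apply_apply]
      exact ha' _
    · unfold copyRel at hy
      rw [Equiv.symm_apply_apply] at hy
      obtain ⟨s, hs, hs'⟩ := hx _ hy
      refine ⟨e s, ?_, fun z => ?_⟩
      · unfold copyRel
        rwa [Equiv.symm_apply_apply, Equiv.symm_apply_apply]
      · unfold copyRel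
        rw [Equiv.symm_apply_apply, hs', e.symm.injective.eq_iff]
  separation s hs a := by
    have h1 := definable_copy e E (k := 1) (s := {v | v 0 ∈ s}) hs
    obtain ⟨b, hb⟩ := h.separation {x | e x ∈ s} h1 (e.symm a)
    refine ⟨e b, fun x => ?_⟩
    unfold copyRel
    rw [Equiv.symm_apply_apply, hb]
    simp
  replacement F hF a hfun := by
    have h1 := definable_copy e E (k := 2) (s := {v | (v 0, v 1) ∈ F}) hF
    obtain ⟨b, hb⟩ := h.replacement {p | (e p.1, e p.2) ∈ F} h1 (e.symm a) (by
      intro x hx
      have := hfun (e x) (by unfold copyRel; rwa [Equiv.symm_apply_apply])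
      obtain ⟨y, hy, hy'⟩ := this
      refine ⟨e.symm y, ?_, fun z hz => ?_⟩
      · simpa using hy
      · rw [← hy' (e z) hz, Equiv.symm_apply_apply])
    refine ⟨e b, fun y => ?_⟩
    unfold copyRel
    rw [Equiv.symm_apply_apply, hb]
    constructor
    · rintro ⟨x, hx, hxy⟩
      refine ⟨e x, by rwa [Equiv.symm_apply_apply], ?_⟩
      simpa using hxy
    · rintro ⟨x, hx, hxy⟩
      exact ⟨_, hx, by simpa using hxy⟩

end

end Pool.Agent.ZFIter
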