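import Pool.Agent.ZFIter.Final
import Pool.Agent.ZFIter.Copy

set_option autoImplicit false

/-! # A countable model of ZF in which the iteration theorems fail -/

universe u

namespace Pool.Agent.ZFIter

open FirstOrder Pool.Agent.H78.ZF Pool.Agent.ChoicelessEmb

/-- A representation of a model by a transitive class of sets. -/
structure Emb {M : Type u} [ZFM M] (φ : M → ZFSet.{0}) : Prop where
  inj : Function.Injective φ
  tr : ∀ x z, z ∈ φ x → ∃ y, φ y = z
  mem : ∀ x y : M, x ∈ y ↔ φ x ∈ φ y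

section absol

variable {M : Type u} [ZFM M] {φ : M → ZFSet.{0}} (h : Emb φ)

include h

theorem Emb.emp : φ Pool.Agent.H78.ZF.emp = ∅ := by
  ext z
  constructor
  · intro hz
    obtain ⟨y, rfl⟩ := h.tr _ _ hz
    rw [← h.mem] at hz
    exact absurd hz (not_mem_emp y)
  · intro hz
    exact absurd hz (ZFSet.notMem_empty z)

theorem Emb.succ (x : M) : φ (succ x) = insert (φ x) (φ x) := by
  ext z
  rw [ZFSet.mem_insert_iff]
  constructor
  · intro hz
    obtain ⟨y, rfl⟩ := h.tr _ _ hz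
    rw [← h.mem, mem_succ] at hz
    rcases hz with hz | hz
    · exact Or.inr ((h.mem _ _).1 hz)
    · exact Or.inl (by rw [hz])
  · rintro (rfl | hz)
    · rw [← h.mem, mem_succ]; exact Or.inr rfl
    · obtain ⟨y, rfl⟩ := h.tr _ _ hz
      rw [← h.mem] at hz ⊢
      rw [mem_succ]; exact Or.inl hz

theorem Emb.upair (x y : M) : φ (upair x y) = {φ x, φ y} := by
  ext z
  rw [ZFSet.mem_pair]
  constructor
  · intro hz
    obtain ⟨w, rfl⟩ := h.tr _ _ hz
    rw [← h.mem, mem_upair] at hz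
    rcases hz with hz | hz
    · exact Or.inl (by rw [hz])
    · exact Or.inr (by rw [hz])
  · rintro (rfl | rfl)
    · rw [← h.mem, mem_upair]; exact Or.inl rfl
    · rw [← h.mem, mem_upair]; exact Or.inr rfl

theorem Emb.opair (x y : M) : φ (opair x y) = ZFSet.pair (φ x) (φ y) := by
  unfold Pool.Agent.H78.ZF.opair sing ZFSet.pair
  rw [h.upair, h.upair, h.upair]
  congr 1
  ext z
  simp

theorem Emb.opair_mem (x y f : M) :
    Pool.Agent.H78.ZF.opair x y ∈ f ↔ ZFSet.pair (φ x) (φ y) ∈ φ f := by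
  rw [h.mem, h.opair]

theorem Emb.omega {o : M} (ho : φ o = omegaZ) (x : M) :
    x ∈ (omega : M) ↔ ∃ n, φ x = natZ n := by
  constructor
  · intro hx
    have h1 : Inductive o := by
      constructor
      · rw [h.mem, h.emp, ho, mem_omegaZ]
        exact ⟨0, rfl⟩
      · intro y hy
        rw [h.mem, ho, mem_omegaZ] at hy ⊢
        obtain ⟨n, hn⟩ := hy
        exact ⟨n + 1, by rw [h.succ, ← hn]; rfl⟩
    have h2 := mem_omega.1 hx o h1
    rw [h.mem, ho, mem_omegaZ] at h2
    obtain ⟨n, hn⟩ := h2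
    exact ⟨n, hn.symm⟩
  · rintro ⟨n, hn⟩
    induction n generalizing x with
    | zero =>
      have : x = Pool.Agent.H78.ZF.emp := h.inj (by rw [hn, h.emp]; rfl)
      rw [this]
      exact emp_mem_omega
    | succ n ih =>
      have h1 : natZ n ∈ φ x := by
        rw [hn, mem_natZ]
        exact ⟨n, Nat.lt_succ_self n, rfl⟩
      obtain ⟨y, hy⟩ := h.tr _ _ h1
      have h2 : x = Pool.Agent.H78.ZF.succ y := h.inj (by rw [hn, h.succ, hy]; rfl)
      rw [h2]
      exact succ_mem_omega (ih y hy)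

end absol

section bad

variable {X : Set (LName Cn)} {g : Set Cn} (hX : Setup X g)
  {M : Type u} [ZFM M] {φ : M → ZFSet.{0}} (h : Emb φ) (hr : Set.range φ = Mod X g)

include hX h hr

omit hX h [ZFM M] in
theorem exists_rep {x : LName Cn} (hx : x ∈ X) : ∃ a, φ a = val X g x := by
  have : val X g x ∈ Set.range φ := by
    rw [hr]
    exact ⟨x, hx, rfl⟩
  exact this

omit hX h [ZFM M] in
theorem exists_name (a : M) : ∃ x ∈ X, φ a = val X g x := by
  have : φ a ∈ Mod X g := by
    rw [← hr]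
    exact ⟨a, rfl⟩
  obtain ⟨x, hx, e⟩ := this
  exact ⟨x, hx, e.symm⟩

/-- The model contains a sequence of countable sets of reals without a choice function. -/
theorem exists_badSeq : ∃ F : M, BadSeq F := by
  obtain ⟨o, ho⟩ := exists_rep hr hX.omega_mem
  rw [hX.val_omega] at ho
  have hom := h.omega ho
  obtain ⟨F, hF⟩ := exists_rep hr hX.FN_mem
  have hnat : ∀ n, ∃ x : M, φ x = natZ n := fun n => by
    obtain ⟨x, hx⟩ := exists_rep hr (hX.nat_mem n)
    exact ⟨x, by rw [hx, hX.val_nat]⟩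
  have hap : ∀ (x : M) (n : ℕ), φ x = natZ n → φ (ap F x) = val X g (XN n) := by
    intro x n hx
    obtain ⟨y, hy⟩ := exists_rep hr (hX.XN_mem n)
    have e : ap F x = y := by
      refine iota_eq ?_ ?_
      · show opair x y ∈ F
        rw [h.opair_mem, hF, hX.mem_val_FN]
        exact ⟨n, by rw [hx, hy]⟩
      · intro z hz
        have hz : opair x z ∈ F := hz
        rw [h.opair_mem, hF, hX.mem_val_FN] at hz
        obtain ⟨m, hm⟩ := hz
        rw [ZFSet.pair_inj] at hm
        rw [hx] at hm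
        have := natZ_injective hm.1
        subst this
        exact h.inj (by rw [hm.2, hy])
    rw [e, hy]
  have hmemF : ∀ (x : M) (n : ℕ), φ x = natZ n → ∀ s, s ∈ ap F x ↔ ∃ a, φ s = yV X g n a := by
    intro x n hx s
    rw [h.mem, hap x n hx, hX.mem_val_XN]
  refine ⟨F, ⟨⟨?_, ?_⟩, ?_, ?_, ?_⟩⟩
  · -- the members are sets of natural numbers
    intro n hn s hs z hz
    obtain ⟨k, hk⟩ := (hom n).1 hn
    obtain ⟨a, ha⟩ := (hmemF n k hk s).1 hs
    rw [h.mem, ha, hX.mem_yV] at hz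
    rcases hz with hz | ⟨j, hz, _⟩
    · exact (hom z).2 ⟨_, hz⟩
    · exact (hom z).2 ⟨_, hz⟩
  · -- the blocks are countable
    intro n hn
    obtain ⟨k, hk⟩ := (hom n).1 hn
    obtain ⟨f, hf⟩ := exists_rep hr (hX.EN_mem k)
    have hfm : ∀ x y : M, opair x y ∈ f ↔ ∃ a, φ x = yV X g k a ∧ φ y = natZ (codeI a) := by
      intro x y
      rw [h.opair_mem, hf, hX.mem_val_EN]
      simp only [ZFSet.pair_inj]
    refine ⟨f, ⟨?_, ?_⟩, ?_⟩
    · intro p hp
      rw [h.mem, hf, hX.mem_val_EN] at hp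
      obtain ⟨a, ha⟩ := hp
      obtain ⟨x, hx⟩ := exists_rep hr (hX.yN_mem k a)
      obtain ⟨y, hy⟩ := hnat (codeI a)
      refine ⟨x, (hmemF n k hk x).2 ⟨a, hx⟩, y, (hom y).2 ⟨_, hy⟩, h.inj ?_⟩
      rw [ha, h.opair, hx, hy]
      rfl
    · intro x hx
      obtain ⟨a, ha⟩ := (hmemF n k hk x).1 hx
      obtain ⟨y, hy⟩ := hnat (codeI a)
      refine ⟨y, (hfm x y).2 ⟨a, ha, hy⟩, ?_⟩
      intro z hz
      have hz : opair x z ∈ f := hz
      obtain ⟨b, hb, hz⟩ := (hfm x z).1 hz
      have : a = b := hX.yV_inj (ha.symm.trans hb)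
      subst this
      exact h.inj (hz.trans hy.symm)
    · intro x x' y h1 h2
      obtain ⟨a, ha, hy⟩ := (hfm x y).1 h1
      obtain ⟨b, hb, hy'⟩ := (hfm x' y).1 h2
      have : a = b := codeI_inj (natZ_injective (hy.symm.trans hy'))
      subst this
      exact h.inj (ha.trans hb.symm)
  · -- the blocks are nonempty
    intro n hn
    obtain ⟨k, hk⟩ := (hom n).1 hn
    let a0 : Ix := ⟨fun _ => false, by simp⟩
    obtain ⟨s, hs⟩ := exists_rep hr (hX.yN_mem k a0)
    exact ⟨s, (hmemF n k hk s).2 ⟨a0, hs⟩⟩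
  · -- every member contains `1`
    intro n hn s hs
    obtain ⟨k, hk⟩ := (hom n).1 hn
    obtain ⟨a, ha⟩ := (hmemF n k hk s).1 hs
    obtain ⟨y, hy⟩ := hnat 1
    refine ⟨y, ?_, ?_⟩
    · rw [h.mem, ha, hX.mem_yV]
      exact Or.inl hy
    · intro e
      rw [e, h.emp] at hy
      have : natZ 0 = natZ 1 := hy
      exact absurd (natZ_injective this) (by omega)
  · -- there is no choice function
    rintro ⟨f, hf, hch⟩
    obtain ⟨f', hf', e⟩ := exists_name hr f
    refine hX.no_choice hf' ?_ ?_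
    · intro n
      obtain ⟨x, hx⟩ := hnat n
      have hx' : x ∈ (omega : M) := (hom x).2 ⟨n, hx⟩
      obtain ⟨a, ha⟩ := (hmemF x n hx _).1 (hch x hx')
      refine ⟨a, ?_⟩
      rw [← ha, ← hx, ← e, ← h.opair_mem]
      exact hf.opair_ap hx'
    · intro n a b ha hb
      obtain ⟨x, hx⟩ := hnat n
      have hx' : x ∈ (omega : M) := (hom x).2 ⟨n, hx⟩
      obtain ⟨ya, hya⟩ := exists_rep hr (hX.yN_mem n a)
      obtain ⟨yb, hyb⟩ := exists_rep hr (hX.yN_mem n b)
      have e1 : yV X g n a = φ ya := hya.symm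
      have e2 : yV X g n b = φ yb := hyb.symm
      rw [e1, ← hx, ← e, ← h.opair_mem] at ha
      rw [e2, ← hx, ← e, ← h.opair_mem] at hb
      rw [e1, e2, (hf.2 x hx').unique ha hb]

end bad

/-- There is a model of ZF with a sequence of countable sets of reals without a choice
function. -/
theorem exists_model_badSeq : ∃ (M : Type) (_ : ZFM M) (F : M), BadSeq F := by
  obtain ⟨X, g, hXc, hst, hop, hag, hfg⟩ := exists_closed_generic FS startN_HS startN_countable
  have hX : Setup X g := ⟨hst, hop, hag, hfg⟩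
  have hZF := modelsZF hop hag hfg ⟨omegaZ, ⟨checkN omegaZ, hX.omega_mem, hX.val_omega⟩,
    mem_omegaZ.2 ⟨0, rfl⟩, fun n hn => by
      obtain ⟨k, rfl⟩ := mem_omegaZ.1 hn
      exact mem_omegaZ.2 ⟨k + 1, rfl⟩⟩
  have hM : IsZFModel (fun x y : Mod X g => x.1 ∈ y.1) := isZFModel_of hZF
  have htr : ∀ x ∈ Mod X g, ∀ y ∈ x, y ∈ Mod X g := @ModelsZF.transitive LSet _ (strX X g) hZF
  have hc : (Mod X g).Countable := hXc.image _
  have : Countable (Mod X g) := hc.to_subtype
  have : Small.{0} (Mod X g) := inferInstance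
  let e : Mod X g ≃ Shrink.{0} (Mod X g) := equivShrink _
  let inst : ZFM (Shrink.{0} (Mod X g)) := ⟨_, isZFModel_copy e _ hM⟩
  let φ : Shrink.{0} (Mod X g) → ZFSet.{0} := fun x => (e.symm x).1
  have hφ : Emb φ := by
    refine ⟨fun x y hxy => e.symm.injective (Subtype.ext hxy), ?_, fun x y => Iff.rfl⟩
    intro x z hz
    have hz' : z ∈ Mod X g := htr _ (e.symm x).2 z hz
    exact ⟨e ⟨z, hz'⟩, by simp [φ]⟩
  have hr : Set.range φ = Mod X g := by
    ext z
    constructor
    · rintro ⟨x, rfl⟩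
      exact (e.symm x).2
    · intro hz
      exact ⟨e ⟨z, hz⟩, by simp [φ]⟩
  obtain ⟨F, hF⟩ := exists_badSeq hX hφ hr
  exact ⟨_, _, F, hF⟩

/-- There is a model of ZF in which the iteration theorems for all three chain conditions
fail. -/
theorem exists_model_not_it : ∃ (M : Type) (_ : ZFM M), ∀ i : Fin 3, ¬ IT M i := by
  obtain ⟨M, i, F, hF⟩ := exists_model_badSeq
  exact ⟨M, i, hF.not_it⟩

end Pool.Agent.ZFIter
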