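import Pool.Agent.ChoicelessEmb.Formula

/-! # Symmetric names for a commutative group of involutions

The same construction as in `Pool.Agent.ChoicelessEmb`, for another kind of symmetric system: the
group is given by commuting involutions, and the supports are natural numbers. -/

set_option autoImplicit false

namespace Pool.Agent.ZFIter

open Pool.Agent.ChoicelessEmb FirstOrder LName

/-- A symmetric system. -/
structure SymSys (P : Type) [PartialOrder P] [OrderTop P] where
  /-- the group -/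
  G : Type
  act : G → (P ≃o P)
  /-- the subgroup fixing everything with support `n` -/
  K : ℕ → Set G
  mono : ∀ {n m : ℕ}, n ≤ m → K m ⊆ K n
  one : G
  act_one : ∀ p, act one p = p
  mul : G → G → G
  act_mul : ∀ g h p, act (mul g h) p = act g (act h p)
  invol : ∀ g p, act g (act g p) = p
  comm : ∀ g h p, act g (act h p) = act h (act g p)

section Sym

variable {P : Type} [PartialOrder P] [OrderTop P] (S : SymSys P)

/-- The action on names. -/
noncomputable def nact (g : S.G) (x : LName P) : LName P := LName.map (S.act g) x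

theorem nact_one (x : LName P) : nact S S.one x = x := map_id_of S.act_one x

theorem nact_mul (g h : S.G) (x : LName P) : nact S (S.mul g h) x = nact S g (nact S h x) := by
  unfold nact
  rw [map_map]
  exact map_congr (fun p => S.act_mul g h p) x

theorem nact_nact (g : S.G) (x : LName P) : nact S g (nact S g x) = x := by
  unfold nact
  rw [map_map]
  exact map_id_of (fun p => S.invol g p) x

theorem nact_comm (g h : S.G) (x : LName P) : nact S g (nact S h x) = nact S h (nact S g x) := by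
  unfold nact
  rw [map_map, map_map]
  exact map_congr (fun p => S.comm g h p) x

theorem symm_eq (g : S.G) : (S.act g).symm = S.act g := by
  ext p
  rw [OrderIso.symm_apply_eq, S.invol]

theorem mem_ch_nact {g : S.G} {x v : LName P} {d : P} :
    (v, d) ∈ ch (nact S g x) ↔ ∃ u c, (u, c) ∈ ch x ∧ v = nact S g u ∧ d = S.act g c :=
  mem_ch_map

theorem act_top (g : S.G) : S.act g ⊤ = ⊤ := map_top _

/-- `n` supports the name `x`. -/
def Supp (n : ℕ) (x : LName P) : Prop := ∀ g ∈ S.K n, nact S g x = x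

variable {S}

theorem nact_mem {g : S.G} {x u : LName P} {c : P} (h : (u, c) ∈ ch x) :
    (nact S g u, S.act g c) ∈ ch (nact S g x) := (mem_ch_nact S).2 ⟨u, c, h, rfl, rfl⟩

theorem Supp.mono {n m : ℕ} {x : LName P} (h : Supp S n x) (hn : n ≤ m) : Supp S m x :=
  fun g hg => h g (S.mono hn hg)

theorem supp_of {n : ℕ} {x : LName P}
    (h : ∀ g ∈ S.K n, ∀ u c, (u, c) ∈ ch x → (nact S g u, S.act g c) ∈ ch x) : Supp S n x := by
  intro g hg
  apply LName.ext
  ext ⟨v, d⟩
  rw [mem_ch_nact]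
  constructor
  · rintro ⟨u, c, hu, rfl, rfl⟩
    exact h g hg u c hu
  · intro hv
    exact ⟨nact S g v, S.act g d, h g hg v d hv, (nact_nact S g v).symm, (S.invol g d).symm⟩

theorem Supp.mem {n : ℕ} {x : LName P} (h : Supp S n x) {g : S.G} (hg : g ∈ S.K n)
    {u : LName P} {c : P} (hu : (u, c) ∈ ch x) : (nact S g u, S.act g c) ∈ ch x := by
  have := nact_mem (g := g) hu
  rwa [h g hg] at this

theorem Supp.act {n : ℕ} {x : LName P} (h : Supp S n x) (g : S.G) : Supp S n (nact S g x) := by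
  intro g' hg'
  rw [nact_comm, h g' hg']

variable (S)

/-- Hereditarily symmetric names. -/
inductive HS : LName P → Prop
  | intro (x : LName P) (n : ℕ) (hx : Supp S n x) (h : ∀ u c, (u, c) ∈ ch x → HS u) : HS x

variable {S}

theorem HS.supp {x : LName P} (h : HS S x) : ∃ n, Supp S n x := by
  cases h with
  | intro x n hx h => exact ⟨n, hx⟩

theorem HS.ch {x : LName P} (h : HS S x) {u : LName P} {c : P} (hu : (u, c) ∈ LName.ch x) :
    HS S u := by
  cases h with
  | intro x n hx h => exact h u c hu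

theorem HS.act {x : LName P} (h : HS S x) (g : S.G) : HS S (nact S g x) := by
  induction h with
  | intro x n hx h ih =>
    refine HS.intro _ n (hx.act g) ?_
    intro v d hv
    obtain ⟨u, c, hu, rfl, rfl⟩ := (mem_ch_nact S).1 hv
    exact ih u c hu

variable (S)

/-- The class of hereditarily symmetric names. -/
def HSset : Set (LName P) := {x | HS S x}

/-- The name of the empty set. -/
noncomputable def emptyN : LName P := LName.mk ∅

omit [PartialOrder P] [OrderTop P] in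
theorem ch_emptyN : ch (emptyN : LName P) = ∅ := ch_mk ∅

theorem HS_emptyN : HS S (emptyN : LName P) := by
  refine HS.intro _ 0 ?_ ?_
  · apply supp_of
    intro g _ u c hu
    rw [ch_emptyN] at hu
    exact hu.elim
  · intro u c hu
    rw [ch_emptyN] at hu
    exact hu.elim

theorem smallR {α : Type 1} {β : Type*} [Small.{0} β] (f : β → α) {T : Set α}
    (h : ∀ a ∈ T, ∃ b, f b = a) : Small.{0} T :=
  small_subset (s := Set.range f) fun a ha => h a ha

/-- Equivariance of a forced class. -/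
def Eqv (n : ℕ) (F : LName P → P → Prop) : Prop :=
  ∀ g ∈ S.K n, ∀ u p, HS S u → F u p → F (nact S g u) (S.act g p)

/-! ### Separation -/

/-- The name for `{u ∈ x : F u}`. -/
noncomputable def sepN (x : LName P) (F : LName P → P → Prop) : LName P :=
  LName.mk {a | ∃ u c q, (u, c) ∈ ch x ∧ q ≤ c ∧ F u q ∧ a = (u, q)}

omit [OrderTop P] in
theorem mem_ch_sepN {x : LName P} {F : LName P → P → Prop} {u : LName P} {q : P} :
    (u, q) ∈ ch (sepN x F) ↔ ∃ c, (u, c) ∈ ch x ∧ q ≤ c ∧ F u q := by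
  have : Small.{0} {a : LName P × P | ∃ u c q, (u, c) ∈ ch x ∧ q ≤ c ∧ F u q ∧ a = (u, q)} := by
    apply smallR (fun b : ch x × P => (b.1.1.1, b.2))
    rintro a ⟨u, c, q, hu, _, _, rfl⟩
    exact ⟨(⟨(u, c), hu⟩, q), rfl⟩
  unfold sepN
  rw [ch_mk]
  constructor
  · rintro ⟨u', c, q', hu, hq, hF, h⟩
    simp only [Prod.mk.injEq] at h
    obtain ⟨rfl, rfl⟩ := h
    exact ⟨c, hu, hq, hF⟩
  · rintro ⟨c, hu, hq, hF⟩
    exact ⟨u, c, q, hu, hq, hF, rfl⟩

variable {S}

theorem HS_sepN {x : LName P} (hx : HS S x) {F : LName P → P → Prop} {n : ℕ}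
    (hF : Eqv S n F) : HS S (sepN x F) := by
  obtain ⟨m, hsx⟩ := hx.supp
  refine HS.intro _ (max n m) ?_ ?_
  · apply supp_of
    intro g hg u q hu
    rw [mem_ch_sepN] at hu ⊢
    obtain ⟨c, hc, hq, h⟩ := hu
    exact ⟨S.act g c, hsx.mem (S.mono (le_max_right _ _) hg) hc, (S.act g).le_iff_le.2 hq,
      hF g (S.mono (le_max_left _ _) hg) u q (hx.ch hc) h⟩
  · intro u q hu
    rw [mem_ch_sepN] at hu
    obtain ⟨c, hc, _⟩ := hu
    exact hx.ch hc

/-! ### Pairs -/

/-- The name for the unordered pair. -/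
noncomputable def pairN (x y : LName P) : LName P := LName.mk {a | a = (x, ⊤) ∨ a = (y, ⊤)}

theorem mem_ch_pairN {x y u : LName P} {c : P} :
    (u, c) ∈ ch (pairN x y) ↔ (u = x ∨ u = y) ∧ c = ⊤ := by
  have : Small.{0} {a : LName P × P | a = (x, ⊤) ∨ a = (y, ⊤)} := by
    apply smallR (fun b : Bool => if b then (x, ⊤) else (y, ⊤))
    rintro a (rfl | rfl)
    · exact ⟨true, rfl⟩
    · exact ⟨false, rfl⟩
  unfold pairN
  rw [ch_mk]
  simp only [Set.mem_ofPred_eq, Prod.mk.injEq]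
  tauto

theorem nact_pairN (g : S.G) (x y : LName P) :
    nact S g (pairN x y) = pairN (nact S g x) (nact S g y) := by
  apply LName.ext
  ext ⟨v, d⟩
  rw [mem_ch_nact, mem_ch_pairN]
  constructor
  · rintro ⟨u, c, hu, rfl, rfl⟩
    rw [mem_ch_pairN] at hu
    obtain ⟨rfl | rfl, rfl⟩ := hu
    · exact ⟨Or.inl rfl, act_top S g⟩
    · exact ⟨Or.inr rfl, act_top S g⟩
  · rintro ⟨rfl | rfl, rfl⟩
    · exact ⟨x, ⊤, mem_ch_pairN.2 ⟨Or.inl rfl, rfl⟩, rfl, (act_top S g).symm⟩
    · exact ⟨y, ⊤, mem_ch_pairN.2 ⟨Or.inr rfl, rfl⟩, rfl, (act_top S g).symm⟩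

theorem HS_pairN {x y : LName P} (hx : HS S x) (hy : HS S y) : HS S (pairN x y) := by
  obtain ⟨n, hsx⟩ := hx.supp
  obtain ⟨m, hsy⟩ := hy.supp
  refine HS.intro _ (max n m) ?_ ?_
  · intro g hg
    rw [nact_pairN, hsx g (S.mono (le_max_left _ _) hg), hsy g (S.mono (le_max_right _ _) hg)]
  · intro u c hu
    rw [mem_ch_pairN] at hu
    obtain ⟨rfl | rfl, _⟩ := hu
    · exact hx
    · exact hy

/-- The name for the (Kuratowski) ordered pair. -/
noncomputable def opairN (x y : LName P) : LName P := pairN (pairN x x) (pairN x y)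

theorem nact_opairN (g : S.G) (x y : LName P) :
    nact S g (opairN x y) = opairN (nact S g x) (nact S g y) := by
  unfold opairN
  rw [nact_pairN, nact_pairN, nact_pairN]

theorem HS_opairN {x y : LName P} (hx : HS S x) (hy : HS S y) : HS S (opairN x y) :=
  HS_pairN (HS_pairN hx hx) (HS_pairN hx hy)

/-! ### Union -/

/-- The name for the union. -/
noncomputable def unionN (x : LName P) : LName P :=
  LName.mk {a | ∃ u c w d q, (u, c) ∈ ch x ∧ (w, d) ∈ ch u ∧ q ≤ c ∧ q ≤ d ∧ a = (w, q)}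

omit [OrderTop P] in
theorem mem_ch_unionN {x : LName P} {w : LName P} {q : P} :
    (w, q) ∈ ch (unionN x) ↔ ∃ u c d, (u, c) ∈ ch x ∧ (w, d) ∈ ch u ∧ q ≤ c ∧ q ≤ d := by
  have : Small.{0} {a : LName P × P |
      ∃ u c w d q, (u, c) ∈ ch x ∧ (w, d) ∈ ch u ∧ q ≤ c ∧ q ≤ d ∧ a = (w, q)} := by
    apply smallR (fun b : (Σ b : ch x, ch b.1.1) × P => (b.1.2.1.1, b.2))
    rintro a ⟨u, c, w, d, q, hu, hw, _, _, rfl⟩
    exact ⟨(⟨⟨(u, c), hu⟩, ⟨(w, d), hw⟩⟩, q), rfl⟩
  unfold unionN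
  rw [ch_mk]
  constructor
  · rintro ⟨u, c, w', d, q', hu, hw, hc, hd, h⟩
    simp only [Prod.mk.injEq] at h
    obtain ⟨rfl, rfl⟩ := h
    exact ⟨u, c, d, hu, hw, hc, hd⟩
  · rintro ⟨u, c, d, hu, hw, hc, hd⟩
    exact ⟨u, c, w, d, q, hu, hw, hc, hd, rfl⟩

theorem HS_unionN {x : LName P} (hx : HS S x) : HS S (unionN x) := by
  obtain ⟨n, hsx⟩ := hx.supp
  refine HS.intro _ n ?_ ?_
  · apply supp_of
    intro g hg w q hw
    rw [mem_ch_unionN] at hw ⊢
    obtain ⟨u, c, d, hu, hw, hc, hd⟩ := hw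
    exact ⟨nact S g u, S.act g c, S.act g d, hsx.mem hg hu, nact_mem hw,
      (S.act g).le_iff_le.2 hc, (S.act g).le_iff_le.2 hd⟩
  · intro w q hw
    rw [mem_ch_unionN] at hw
    obtain ⟨u, c, d, hu, hw, _⟩ := hw
    exact (hx.ch hu).ch hw

/-! ### Power set -/

/-- The labelled pairs from which subnames of `x` are built. -/
def base (x : LName P) : Set (LName P × P) := {a | ∃ c, (a.1, c) ∈ ch x ∧ a.2 ≤ c}

omit [OrderTop P] in
instance small_base (x : LName P) : Small.{0} (base x) := by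
  apply smallR (fun b : ch x × P => (b.1.1.1, b.2))
  rintro ⟨u, q⟩ ⟨c, hu, _⟩
  exact ⟨(⟨(u, c), hu⟩, q), rfl⟩

variable (S)

/-- The name for the power set. -/
noncomputable def powN (x : LName P) : LName P :=
  LName.mk {a | ∃ z, HS S z ∧ ch z ⊆ base x ∧ a = (z, ⊤)}

variable {S}

theorem mem_ch_powN {x z : LName P} {q : P} :
    (z, q) ∈ ch (powN S x) ↔ HS S z ∧ ch z ⊆ base x ∧ q = ⊤ := by
  have : Small.{0} {a : LName P × P | ∃ z, HS S z ∧ ch z ⊆ base x ∧ a = (z, ⊤)} := by
    apply smallR (fun b : Set (base x) => (LName.mk (Subtype.val '' b), ⊤))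
    rintro a ⟨z, _, hz, rfl⟩
    refine ⟨Subtype.val ⁻¹' (ch z), ?_⟩
    have h1 : Subtype.val '' (Subtype.val ⁻¹' (ch z) : Set (base x)) = ch z := by
      rw [Subtype.image_preimage_coe]
      exact Set.inter_eq_right.2 hz
    simp only [Prod.mk.injEq, and_true]
    rw [h1, mk_ch]
  unfold powN
  rw [ch_mk]
  constructor
  · rintro ⟨z', hz, hb, h⟩
    simp only [Prod.mk.injEq] at h
    obtain ⟨rfl, rfl⟩ := h
    exact ⟨hz, hb, rfl⟩
  · rintro ⟨hz, hb, rfl⟩
    exact ⟨z, hz, hb, rfl⟩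

theorem HS_powN {x : LName P} (hx : HS S x) : HS S (powN S x) := by
  obtain ⟨n, hsx⟩ := hx.supp
  refine HS.intro _ n ?_ ?_
  · apply supp_of
    intro g hg z q hz
    rw [mem_ch_powN] at hz ⊢
    obtain ⟨hz, hb, rfl⟩ := hz
    refine ⟨hz.act g, ?_, act_top S g⟩
    rintro ⟨v, d⟩ hv
    obtain ⟨u, c, hu, rfl, rfl⟩ := (mem_ch_nact S).1 hv
    obtain ⟨c', hc', hle⟩ := hb hu
    exact ⟨S.act g c', hsx.mem hg hc', (S.act g).le_iff_le.2 hle⟩
  · intro z q hz
    rw [mem_ch_powN] at hz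
    exact hz.1

/-- The name for `x ∩ y`. -/
noncomputable def subN (x y : LName P) : LName P := sepN x fun u q => fmem u y q

theorem HS_subN {x y : LName P} (hx : HS S x) (hy : HS S y) : HS S (subN x y) := by
  obtain ⟨n, hs⟩ := hy.supp
  refine HS_sepN hx (n := n) ?_
  intro g hg u p _ h
  have : fmem (LName.map (S.act g) u) (LName.map (S.act g) y) (S.act g p) :=
    (fmem_map (S.act g)).2 h
  have h2 : LName.map (S.act g) y = y := hs g hg
  rw [h2] at this
  exact this

/-! ### Collection -/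

variable (S)

/-- The symmetric closure of a small family of names. -/
noncomputable def collN (x : LName P) (Y : LName P → P → LName P) : LName P :=
  LName.mk {a | ∃ u c q, ∃ g : S.G, (u, c) ∈ ch x ∧ a = (nact S g (Y u q), ⊤)}

variable {S}

theorem mem_ch_collN {x : LName P} {Y : LName P → P → LName P} {v : LName P} {d : P} :
    (v, d) ∈ ch (collN S x Y) ↔
      ∃ u c q, ∃ g : S.G, (u, c) ∈ ch x ∧ v = nact S g (Y u q) ∧ d = ⊤ := by
  have : Small.{0} {a : LName P × P |
      ∃ u c q, ∃ g : S.G, (u, c) ∈ ch x ∧ a = (nact S g (Y u q), ⊤)} := by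
    apply smallR (fun b : (ch x × P) × S.G => (nact S b.2 (Y b.1.1.1.1 b.1.2), ⊤))
    rintro a ⟨u, c, q, π, hu, rfl⟩
    exact ⟨((⟨(u, c), hu⟩, q), π), rfl⟩
  unfold collN
  rw [ch_mk]
  constructor
  · rintro ⟨u, c, q, π, hu, h⟩
    simp only [Prod.mk.injEq] at h
    exact ⟨u, c, q, π, hu, h.1, h.2⟩
  · rintro ⟨u, c, q, π, hu, rfl, rfl⟩
    exact ⟨u, c, q, π, hu, rfl⟩

theorem HS_collN {x : LName P} {Y : LName P → P → LName P}
    (hY : ∀ u q, HS S u → HS S (Y u q)) (hx : HS S x) : HS S (collN S x Y) := by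
  refine HS.intro _ 0 ?_ ?_
  · apply supp_of
    intro g _ v d hv
    rw [mem_ch_collN] at hv ⊢
    obtain ⟨u, c, q, g', hu, rfl, rfl⟩ := hv
    exact ⟨u, c, q, S.mul g g', hu, (nact_mul S _ _ _).symm, act_top S g⟩
  · intro v d hv
    rw [mem_ch_collN] at hv
    obtain ⟨u, c, q, g', hu, rfl, rfl⟩ := hv
    exact (hY u q (hx.ch hu)).act g'

variable (S)

/-- The name for the image of `x` under a forced functional relation `F`, with witnesses `Y`. -/
noncomputable def replN (x : LName P) (Y : LName P → P → LName P)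
    (F : LName P → LName P → P → Prop) : LName P :=
  sepN (collN S x Y) fun y q => ∃ u c, (u, c) ∈ ch x ∧ q ≤ c ∧ F u y q

variable {S}

theorem HS_replN {x : LName P} {Y : LName P → P → LName P}
    {F : LName P → LName P → P → Prop} {n : ℕ}
    (hY : ∀ u q, HS S u → HS S (Y u q)) (hx : HS S x)
    (hF : ∀ g ∈ S.K n, ∀ u v p, HS S u → HS S v → F u v p →
      F (nact S g u) (nact S g v) (S.act g p)) : HS S (replN S x Y F) := by
  obtain ⟨m, hsx⟩ := hx.supp
  refine HS_sepN (HS_collN hY hx) (n := max n m) ?_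
  rintro g hg y q hy ⟨u, c, hu, hc, h⟩
  exact ⟨nact S g u, S.act g c, hsx.mem (S.mono (le_max_right _ _) hg) hu,
    (S.act g).le_iff_le.2 hc,
    hF g (S.mono (le_max_left _ _) hg) u y q (hx.ch hu) hy h⟩

/-! ### Check names -/

/-- Canonical names of sets. -/
noncomputable def checkN : ZFSet.{0} → LName P :=
  ZFSet.mem_wf.fix fun x ih => LName.mk {a | ∃ y, ∃ h : y ∈ x, a = (ih y h, ⊤)}

theorem mem_ch_checkN {x : ZFSet.{0}} {u : LName P} {c : P} :
    (u, c) ∈ ch (checkN x) ↔ ∃ y ∈ x, u = checkN y ∧ c = ⊤ := by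
  have h1 : (checkN x : LName P) = LName.mk {a | ∃ y, ∃ _ : y ∈ x, a = (checkN y, ⊤)} := by
    conv_lhs => unfold checkN
    rw [WellFounded.fix_eq]
    rfl
  have : Small.{0} {a : LName P × P | ∃ y, ∃ _ : y ∈ x, a = (checkN y, ⊤)} := by
    apply smallR (fun b : x => (checkN b.1, ⊤))
    rintro a ⟨y, hy, rfl⟩
    exact ⟨⟨y, hy⟩, rfl⟩
  rw [h1, ch_mk]
  constructor
  · rintro ⟨y, hy, h⟩
    simp only [Prod.mk.injEq] at h
    exact ⟨y, hy, h.1, h.2⟩
  · rintro ⟨y, hy, rfl, rfl⟩
    exact ⟨y, hy, rfl⟩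

theorem nact_checkN (g : S.G) (x : ZFSet.{0}) : nact S g (checkN x : LName P) = checkN x := by
  induction x using ZFSet.inductionOn with
  | _ x ih =>
    apply LName.ext
    ext ⟨v, d⟩
    rw [mem_ch_nact, mem_ch_checkN]
    constructor
    · rintro ⟨u, c, hu, rfl, rfl⟩
      rw [mem_ch_checkN] at hu
      obtain ⟨y, hy, rfl, rfl⟩ := hu
      exact ⟨y, hy, ih y hy, act_top S g⟩
    · rintro ⟨y, hy, rfl, rfl⟩
      exact ⟨checkN y, ⊤, mem_ch_checkN.2 ⟨y, hy, rfl, rfl⟩, (ih y hy).symm,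
        (act_top S g).symm⟩

theorem HS_checkN (x : ZFSet.{0}) : HS S (checkN x : LName P) := by
  induction x using ZFSet.inductionOn with
  | _ x ih =>
    refine HS.intro _ 0 (fun g _ => nact_checkN g x) ?_
    intro u c hu
    rw [mem_ch_checkN] at hu
    obtain ⟨y, hy, rfl, rfl⟩ := hu
    exact ih y hy

end Sym

end Pool.Agent.ZFIter
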