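import Pool.Agent.ChoicelessEmb.Defs
import Pool.Agent.ChoicelessEmb.Truth
import Pool.Agent.H78.ZF.Model
import Pool.Agent.ZFIter.Sym

set_option autoImplicit false

/-! # The symmetric model satisfies ZF -/

namespace Pool.Agent.ZFIter

open Pool.Agent.ChoicelessEmb FirstOrder LName

open Pool.Agent.H78.ZF (LSet MemSymb structOf IsZFModel)

instance : LSet.IsRelational := fun n => (inferInstance : IsEmpty Empty)

/-- The interpretation of `∈` by forced membership. -/
def Fset (P : Type) [Preorder P] : FInterp LSet P where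
  rel {n} (R : MemSymb n) := match n, R with
    | _, .mem => fun xs p => fmem (xs 0) (xs 1) p
  mono {n} (R : MemSymb n) xs p q hq h := by
    cases R
    exact fmem_mono h hq
  dense {n} (R : MemSymb n) xs p h := by
    cases R
    exact fmem_dense h
  congr {n} (R : MemSymb n) xs ys p he h := by
    cases R
    exact fmem_congr_right (he 1) (fmem_congr_left (he 0) h)

section ZFModel

variable {P : Type} [PartialOrder P] [OrderTop P] (S : SymSys P)

/-- The forcing relation for formulas without free de Bruijn variables. -/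
def ff {k : ℕ} (φ : LSet.Formula (Fin k)) (v : Fin k → LName P) (p : P) : Prop :=
  forces (Fset P) (HSset S) φ v default p

variable {S}

theorem ff_mono {k : ℕ} (φ : LSet.Formula (Fin k)) {v : Fin k → LName P} {p q : P}
    (h : ff S φ v p) (hq : q ≤ p) : ff S φ v q := forces_mono _ _ φ h hq

theorem ff_act (g : S.G) {k : ℕ} (φ : LSet.Formula (Fin k)) (v : Fin k → LName P)
    (p : P) : ff S φ (fun i => nact S g (v i)) (S.act g p) ↔ ff S φ v p := by
  unfold ff
  have := forces_map_aux (S.act g) (Fset P) (Fset P) (HSset S) (HSset S) (fun x hx => HS.act hx g)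
    (fun x hx => by
      have := HS.act hx g
      rw [symm_eq]
      exact this) (fun R xs p => by
      cases R
      exact fmem_map (S.act g)) φ (v := v) (xs := default) (p := p)
  rw [← this]
  have e : (fun i => LName.map (⇑(S.act g)) ((default : Fin 0 → LName P) i)) =
      (default : Fin 0 → LName P) := Subsingleton.elim _ _
  rw [e]
  rfl

variable (S)

open Classical in
/-- A witness for `∃ y, φ(u, y, a)` forced by `q`. -/
noncomputable def witY {n : ℕ} (φ : LSet.Formula (Fin (n + 2)))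
    (a : Fin n → LName P) (u : LName P) (q : P) : LName P :=
  if h : ∃ y, HS S y ∧ ff S φ (Fin.cons u (Fin.cons y a : Fin (n + 1) → LName P)) q
  then h.choose else emptyN

theorem HS_witY {n : ℕ} (φ : LSet.Formula (Fin (n + 2)))
    (a : Fin n → LName P) (u : LName P) (q : P) : HS S (witY S φ a u q) := by
  unfold witY
  split_ifs with h
  · exact h.choose_spec.1
  · exact HS_emptyN S

theorem witY_spec {n : ℕ} (φ : LSet.Formula (Fin (n + 2)))
    (a : Fin n → LName P) (u : LName P) (q : P)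
    (h : ∃ y, HS S y ∧ ff S φ (Fin.cons u (Fin.cons y a : Fin (n + 1) → LName P)) q) :
    ff S φ (Fin.cons u (Fin.cons (witY S φ a u q) a : Fin (n + 1) → LName P)) q := by
  unfold witY
  rw [dif_pos h]
  exact h.choose_spec.2

/-- The Separation name. -/
noncomputable def sepF {n : ℕ} (φ : LSet.Formula (Fin (n + 1)))
    (a : Fin n → LName P) (x : LName P) : LName P :=
  sepN x fun u q => ff S φ (Fin.cons u a) q

/-- The Replacement name. -/
noncomputable def replF {n : ℕ} (φ : LSet.Formula (Fin (n + 2)))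
    (a : Fin n → LName P) (x : LName P) : LName P :=
  replN S x (witY S φ a) fun u y q =>
    ff S φ (Fin.cons u (Fin.cons y a : Fin (n + 1) → LName P)) q

variable {S}

theorem exists_supp {n : ℕ} {a : Fin n → LName P} (ha : ∀ i, HS S (a i)) :
    ∃ m : ℕ, ∀ i, Supp S m (a i) := by
  choose m hs using fun i => (ha i).supp
  exact ⟨Finset.univ.sup m, fun i => (hs i).mono (Finset.le_sup (Finset.mem_univ i))⟩

theorem nact_cons {n : ℕ} (g : S.G) (u : LName P) (a : Fin n → LName P) :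
    (fun i => nact S g ((Fin.cons u a : Fin (n + 1) → LName P) i)) =
      Fin.cons (nact S g u) (fun i => nact S g (a i)) := by
  funext i
  refine Fin.cases ?_ (fun j => ?_) i
  · rfl
  · rfl

theorem HS_sepF {n : ℕ} (φ : LSet.Formula (Fin (n + 1))) {a : Fin n → LName P}
    (ha : ∀ i, HS S (a i)) {x : LName P} (hx : HS S x) : HS S (sepF S φ a x) := by
  obtain ⟨m, hs⟩ := exists_supp ha
  refine HS_sepN hx (n := m) ?_
  intro g hg u p _ h
  have := (ff_act g φ (Fin.cons u a) p).2 h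
  rw [nact_cons] at this
  have e : (fun i => nact S g (a i)) = a := funext fun i => hs i g hg
  rw [e] at this
  exact this

theorem HS_replF {n : ℕ} (φ : LSet.Formula (Fin (n + 2))) {a : Fin n → LName P}
    (ha : ∀ i, HS S (a i)) {x : LName P} (hx : HS S x) : HS S (replF S φ a x) := by
  obtain ⟨m, hs⟩ := exists_supp ha
  refine HS_replN (n := m) (fun u q _ => HS_witY S φ a u q) hx ?_
  intro g hg u v p _ _ h
  have := (ff_act g φ (Fin.cons u (Fin.cons v a : Fin (n + 1) → LName P)) p).2 h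
  rw [nact_cons, nact_cons] at this
  have e : (fun i => nact S g (a i)) = a := funext fun i => hs i g hg
  rw [e] at this
  exact this

variable (S)

/-- All closure requirements on the set `X` of names. -/
structure OpClosed (X : Set (LName P)) : Prop where
  atom : AtomClosed X
  form : FClosed (Fset P) (HSset S) X
  pair : ∀ x ∈ X, ∀ y ∈ X, pairN x y ∈ X
  union : ∀ x ∈ X, unionN x ∈ X
  union2 : ∀ x ∈ X, ∀ w ∈ X, ∀ q,
    (∃ u c d, (u, c) ∈ ch x ∧ (w, d) ∈ ch u ∧ q ≤ c ∧ q ≤ d) →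
    ∃ u ∈ X, ∃ c d, (u, c) ∈ ch x ∧ (w, d) ∈ ch u ∧ q ≤ c ∧ q ≤ d
  pow : ∀ x ∈ X, powN S x ∈ X
  sub : ∀ x ∈ X, ∀ y ∈ X, subN x y ∈ X
  sep : ∀ (n : ℕ) (φ : LSet.Formula (Fin (n + 1))) (a : Fin n → LName P),
    (∀ i, a i ∈ X) → ∀ x ∈ X, sepF S φ a x ∈ X
  wit : ∀ (n : ℕ) (φ : LSet.Formula (Fin (n + 2))) (a : Fin n → LName P),
    (∀ i, a i ∈ X) → ∀ u ∈ X, ∀ q, witY S φ a u q ∈ X
  repl : ∀ (n : ℕ) (φ : LSet.Formula (Fin (n + 2))) (a : Fin n → LName P),
    (∀ i, a i ∈ X) → ∀ x ∈ X, replF S φ a x ∈ X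
  repl2 : ∀ (n : ℕ) (φ : LSet.Formula (Fin (n + 2))) (a : Fin n → LName P),
    (∀ i, a i ∈ X) → ∀ x ∈ X, ∀ y ∈ X, ∀ q,
    (∃ u c, (u, c) ∈ ch x ∧ q ≤ c ∧
      ff S φ (Fin.cons u (Fin.cons y a : Fin (n + 1) → LName P)) q) →
    ∃ u ∈ X, ∃ c, (u, c) ∈ ch x ∧ q ≤ c ∧
      ff S φ (Fin.cons u (Fin.cons y a : Fin (n + 1) → LName P)) q

variable {S}

/-- Evaluation of check names. -/
theorem val_checkN {X : Set (LName P)} {g : Set P} (hg : IsFil g)
    {Z : Set ZFSet.{0}} (hZ : ∀ x ∈ Z, ∀ y ∈ x, y ∈ Z) (hX : ∀ z ∈ Z, checkN z ∈ X)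
    (z : ZFSet.{0}) (hz : z ∈ Z) : val X g (checkN z) = z := by
  induction z using ZFSet.inductionOn with
  | _ z ih =>
    ext v
    rw [mem_val]
    constructor
    · rintro ⟨u, c, hu, _, _, rfl⟩
      obtain ⟨y, hy, rfl, rfl⟩ := mem_ch_checkN.1 hu
      rw [ih y hy (hZ z hz y hy)]
      exact hy
    · intro hv
      exact ⟨checkN v, ⊤, mem_ch_checkN.2 ⟨v, hv, rfl, rfl⟩, hX v (hZ z hz v hv), hg.top_mem,
        (ih v hv (hZ z hz v hv)).symm⟩

theorem val_pairN {X : Set (LName P)} {g : Set P} (hg : IsFil g)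
    {x y : LName P} (hx : x ∈ X) (hy : y ∈ X) :
    val X g (pairN x y) = {val X g x, val X g y} := by
  ext v
  rw [mem_val, ZFSet.mem_pair]
  constructor
  · rintro ⟨u, c, hu, _, _, rfl⟩
    rw [mem_ch_pairN] at hu
    obtain ⟨rfl | rfl, _⟩ := hu
    · exact Or.inl rfl
    · exact Or.inr rfl
  · rintro (rfl | rfl)
    · exact ⟨x, ⊤, mem_ch_pairN.2 ⟨Or.inl rfl, rfl⟩, hx, hg.top_mem, rfl⟩
    · exact ⟨y, ⊤, mem_ch_pairN.2 ⟨Or.inr rfl, rfl⟩, hy, hg.top_mem, rfl⟩

theorem val_opairN {X : Set (LName P)} {g : Set P} (hg : IsFil g)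
    (hX : ∀ x ∈ X, ∀ y ∈ X, pairN x y ∈ X)
    {x y : LName P} (hx : x ∈ X) (hy : y ∈ X) :
    val X g (opairN x y) = ZFSet.pair (val X g x) (val X g y) := by
  unfold opairN
  rw [val_pairN hg (hX x hx x hx) (hX x hx y hy), val_pairN hg hx hx, val_pairN hg hx hy]
  unfold ZFSet.pair
  congr 1
  exact ZFSet.pair_eq_singleton _

variable {X : Set (LName P)} {g : Set P}

theorem cons_ev {n : ℕ} (u : X) (a : Fin n → X) :
    (Fin.cons (ev X g u) (fun i => ev X g (a i)) : Fin (n + 1) → Mod X g) =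
      fun i => ev X g ((Fin.cons u a : Fin (n + 1) → X) i) := by
  funext i
  refine Fin.cases ?_ (fun j => ?_) i
  · rfl
  · rfl

theorem cons_coe {n : ℕ} (u : X) (a : Fin n → X) :
    (Fin.cons (u : LName P) (fun i => (a i : LName P)) : Fin (n + 1) → LName P) =
      fun i => ((Fin.cons u a : Fin (n + 1) → X) i : LName P) := by
  funext i
  refine Fin.cases ?_ (fun j => ?_) i
  · rfl
  · rfl

/-- The membership relation of the model. -/
def memE (X : Set (LName P)) (g : Set P) (x y : Mod X g) : Prop := x.1 ∈ y.1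

/-- The structure on the model. -/
@[reducible] def strX (X : Set (LName P)) (g : Set P) : LSet.Structure (Mod X g) :=
  structOf (memE X g)

/-- The symmetric model satisfies ZF for formulas of the language of set theory. -/
theorem modelsZF (hX : OpClosed S X) (hg : AtomGen X g) (hg' : FGen (Fset P) (HSset S) X g)
    (hω : ∃ ω ∈ Mod X g, ∅ ∈ ω ∧ ∀ n ∈ ω, insert n n ∈ ω) :
    letI := strX X g
    ModelsZF LSet (Mod X g) := by
  letI := strX X g
  have hR : ∀ {m : ℕ} (R : LSet.Relations m) (xs : Fin m → X),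
      Language.Structure.RelMap R (fun i => ev X g (xs i)) ↔
        ∃ p ∈ g, (Fset P).rel R (fun i => (xs i : LName P)) p := by
    intro m R xs
    cases R
    exact val_mem_iff hX.atom hg (xs 0).2 (xs 1).2
  have tr : ∀ x ∈ Mod X g, ∀ y ∈ x, y ∈ Mod X g := by
    rintro _ ⟨x, hx, rfl⟩ y hy
    obtain ⟨u, c, _, hu, _, rfl⟩ := mem_val.1 hy
    exact ⟨u, hu, rfl⟩
  -- the truth lemma for formulas
  have tl : ∀ {k : ℕ} (φ : LSet.Formula (Fin k)) (v : Fin k → X),
      φ.Realize (fun i => ev X g (v i)) ↔ ∃ p ∈ g, ff S φ (fun i => (v i : LName P)) p := by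
    intro k φ v
    have := truth hX.atom hg hX.form hg' hR φ v default
    unfold ff
    have e1 : (fun i => ev X g ((default : Fin 0 → X) i)) = default := Subsingleton.elim _ _
    have e2 : (fun i => ((default : Fin 0 → X) i : LName P)) = default :=
      Subsingleton.elim _ _
    rw [e1, e2] at this
    exact this
  have tl1 : ∀ {n : ℕ} (φ : LSet.Formula (Fin (n + 1))) (u : X) (a : Fin n → X),
      φ.Realize (Fin.cons (ev X g u) (fun i => ev X g (a i)) : Fin (n + 1) → Mod X g) ↔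
      ∃ p ∈ g, ff S φ (Fin.cons (u : LName P) (fun i => (a i : LName P))) p := by
    intro n φ u a
    rw [cons_ev, cons_coe]
    exact tl φ _
  have tl2 : ∀ {n : ℕ} (φ : LSet.Formula (Fin (n + 2))) (u v : X) (a : Fin n → X),
      φ.Realize (Fin.cons (ev X g u) (Fin.cons (ev X g v) (fun i => ev X g (a i)) :
        Fin (n + 1) → Mod X g) : Fin (n + 2) → Mod X g) ↔
      ∃ p ∈ g, ff S φ (Fin.cons (u : LName P)
        (Fin.cons (v : LName P) (fun i => (a i : LName P)) :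
          Fin (n + 1) → LName P)) p := by
    intro n φ u v a
    rw [cons_ev, cons_ev, cons_coe, cons_coe]
    exact tl φ _
  refine ⟨tr, ?_, ?_, ?_, ?_, ?_, ?_, ?_, ?_⟩
  · -- extensionality
    intro x y h
    apply Subtype.ext
    ext z
    constructor
    · intro hz; exact (h ⟨z, tr _ x.2 z hz⟩).1 hz
    · intro hz; exact (h ⟨z, tr _ y.2 z hz⟩).2 hz
  · -- foundation
    rintro x ⟨y, hy⟩
    obtain ⟨m, hm, hmin⟩ := ZFSet.mem_wf.has_min {z | z ∈ x.1} ⟨y.1, hy⟩
    exact ⟨⟨m, tr _ x.2 m hm⟩, hm, fun z hz hzm => hmin z.1 hz hzm⟩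
  · -- pairing
    intro x y
    obtain ⟨x, rfl⟩ := ev_surj x
    obtain ⟨y, rfl⟩ := ev_surj y
    refine ⟨ev X g ⟨pairN x y, hX.pair x x.2 y y.2⟩, fun w => ?_⟩
    change w.1 ∈ val X g (pairN x y) ↔ _
    rw [val_pairN hg.fil x.2 y.2, ZFSet.mem_pair, Subtype.ext_iff, Subtype.ext_iff]
    rfl
  · -- union
    intro x
    obtain ⟨x, rfl⟩ := ev_surj x
    refine ⟨ev X g ⟨unionN x, hX.union x x.2⟩, fun z => ?_⟩
    change z.1 ∈ val X g (unionN x) ↔ _
    constructor
    · intro hz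
      obtain ⟨w, q, hw, hwX, hq, e⟩ := mem_val.1 hz
      obtain ⟨u, hu, c, d, huc, hwd, hqc, hqd⟩ :=
        hX.union2 x x.2 w hwX q (mem_ch_unionN.1 hw)
      refine ⟨ev X g ⟨u, hu⟩, mem_val.2 ⟨u, c, huc, hu, hg.fil.up _ _ hq hqc, rfl⟩, ?_⟩
      rw [e]
      exact mem_val.2 ⟨w, d, hwd, hwX, hg.fil.up _ _ hq hqd, rfl⟩
    · rintro ⟨w, hw, hz⟩
      obtain ⟨u, c, huc, hu, hc, e⟩ := mem_val.1 hw
      rw [e] at hz
      obtain ⟨w', d, hwd, hw', hd, e'⟩ := mem_val.1 hz
      obtain ⟨q, hq, hqc, hqd⟩ := hg.fil.dir c d hc hd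
      exact mem_val.2 ⟨w', q, mem_ch_unionN.2 ⟨u, c, d, huc, hwd, hqc, hqd⟩, hw', hq, e'⟩
  · -- power set
    intro x
    obtain ⟨x, rfl⟩ := ev_surj x
    refine ⟨ev X g ⟨powN S x, hX.pow x x.2⟩, fun z => ?_⟩
    change z.1 ∈ val X g (powN S x) ↔ _
    constructor
    · intro hz w hw
      obtain ⟨z', q, hz', hzX, hq, e⟩ := mem_val.1 hz
      obtain ⟨_, hb, _⟩ := mem_ch_powN.1 hz'
      rw [e] at hw
      obtain ⟨u, r, hu, huX, hr, e'⟩ := mem_val.1 hw
      obtain ⟨c, hc, hrc⟩ := hb hu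
      exact mem_val.2 ⟨u, c, hc, huX, hg.fil.up _ _ hr hrc, e'⟩
    · intro h
      obtain ⟨y, rfl⟩ := ev_surj z
      have hsub : subN (x : LName P) y ∈ X := hX.sub x x.2 y y.2
      refine mem_val.2 ⟨subN x y, ⊤, mem_ch_powN.2 ⟨hX.form.sub hsub, ?_, rfl⟩, hsub,
        hg.fil.top_mem, ?_⟩
      · rintro ⟨u, q⟩ hu
        obtain ⟨c, hc, hqc, _⟩ := mem_ch_sepN.1 hu
        exact ⟨c, hc, hqc⟩
      · ext v
        constructor
        · intro hv
          have hv' : v ∈ val X g x := h ⟨v, tr _ (ev X g y).2 v hv⟩ hv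
          obtain ⟨u, c, huc, huX, hc, rfl⟩ := mem_val.1 hv'
          obtain ⟨p, hp, hpm⟩ := (val_mem_iff hX.atom hg huX y.2).1 hv
          obtain ⟨r, hr, hrp, hrc⟩ := hg.fil.dir p c hp hc
          exact mem_val.2 ⟨u, r, mem_ch_sepN.2 ⟨c, huc, hrc, fmem_mono hpm hrp⟩, huX, hr, rfl⟩
        · intro hv
          obtain ⟨u, q, hu, huX, hq, rfl⟩ := mem_val.1 hv
          obtain ⟨c, hc, hqc, hm⟩ := mem_ch_sepN.1 hu
          exact (val_mem_iff hX.atom hg huX y.2).2 ⟨q, hq, hm⟩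
  · -- infinity
    obtain ⟨ω, hω, h0, hs⟩ := hω
    refine ⟨⟨ω, hω⟩, ⟨⟨∅, tr ω hω _ h0⟩, h0, fun w => ZFSet.notMem_empty _⟩, ?_⟩
    intro y hy
    refine ⟨⟨insert y.1 y.1, tr ω hω _ (hs _ hy)⟩, hs _ hy, fun w => ?_⟩
    simp only [ZFSet.mem_insert_iff]
    rw [Subtype.ext_iff]
    tauto
  · -- separation
    intro n φ a x
    obtain ⟨x, rfl⟩ := ev_surj x
    choose a' ha' using fun i => ev_surj (a i)
    have ha : (fun i => ev X g (a' i)) = a := funext ha'
    subst ha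
    refine ⟨ev X g ⟨sepF S φ (fun i => a' i) x, hX.sep n φ _ (fun i => (a' i).2) x x.2⟩,
      fun z => ?_⟩
    obtain ⟨z, rfl⟩ := ev_surj z
    rw [tl1]
    change val X g z ∈ val X g (sepF S φ (fun i => a' i) x) ↔ val X g z ∈ val X g x ∧ _
    constructor
    · intro h
      obtain ⟨u, q, hu, huX, hq, e⟩ := mem_val.1 h
      obtain ⟨c, hc, hqc, hm⟩ := mem_ch_sepN.1 hu
      refine ⟨mem_val.2 ⟨u, c, hc, huX, hg.fil.up _ _ hq hqc, e⟩, ?_⟩
      have e2 : ev X g z = ev X g ⟨u, huX⟩ := Subtype.ext e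
      rw [← tl1, e2, tl1]
      exact ⟨q, hq, hm⟩
    · rintro ⟨h1, h2⟩
      obtain ⟨u, c, huc, huX, hc, e⟩ := mem_val.1 h1
      have e2 : ev X g z = ev X g ⟨u, huX⟩ := Subtype.ext e
      rw [← tl1, e2, tl1] at h2
      obtain ⟨p, hp, hm⟩ := h2
      obtain ⟨r, hr, hrp, hrc⟩ := hg.fil.dir p c hp hc
      exact mem_val.2 ⟨u, r, mem_ch_sepN.2 ⟨c, huc, hrc, ff_mono φ hm hrp⟩, huX, hr, e⟩
  · -- replacement
    intro n φ a x hfun
    obtain ⟨x, rfl⟩ := ev_surj x
    choose a' ha' using fun i => ev_surj (a i)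
    have ha : (fun i => ev X g (a' i)) = a := funext ha'
    subst ha
    refine ⟨ev X g ⟨replF S φ (fun i => a' i) x, hX.repl n φ _ (fun i => (a' i).2) x x.2⟩,
      fun v => ?_⟩
    obtain ⟨v, rfl⟩ := ev_surj v
    change val X g v ∈ val X g (replF S φ (fun i => a' i) x) ↔ _
    constructor
    · intro h
      obtain ⟨y, q, hy, hyX, hq, e⟩ := mem_val.1 h
      obtain ⟨_, _, _, hm⟩ := mem_ch_sepN.1 hy
      obtain ⟨u, huX, c, huc, hqc, hm⟩ := hX.repl2 n φ _ (fun i => (a' i).2) x x.2 y hyX q hm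
      refine ⟨ev X g ⟨u, huX⟩, mem_val.2 ⟨u, c, huc, huX, hg.fil.up _ _ hq hqc, rfl⟩, ?_⟩
      have e2 : ev X g v = ev X g ⟨y, hyX⟩ := Subtype.ext e
      rw [e2, tl2]
      exact ⟨q, hq, hm⟩
    · rintro ⟨u, hu, h⟩
      obtain ⟨u', c, huc, huX, hc, e⟩ := mem_val.1 hu
      have e2 : u = ev X g ⟨u', huX⟩ := Subtype.ext e
      subst e2
      have h0 := h
      rw [tl2] at h
      obtain ⟨p, hp, hm⟩ := h
      obtain ⟨q, hq, hqp, hqc⟩ := hg.fil.dir p c hp hc
      have hm' := ff_mono φ hm hqp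
      have hw := witY_spec S φ (fun i => (a' i : LName P)) u' q
        ⟨v, hX.form.sub v.2, hm'⟩
      have hyX : witY S φ (fun i => (a' i : LName P)) u' q ∈ X :=
        hX.wit n φ _ (fun i => (a' i).2) u' huX q
      have h1 : φ.Realize (Fin.cons (ev X g ⟨u', huX⟩)
          (Fin.cons (ev X g ⟨_, hyX⟩) (fun i => ev X g (a' i)) :
        Fin (n + 1) → Mod X g) : Fin (n + 2) → Mod X g) := by
        rw [tl2]
        exact ⟨q, hq, hw⟩
      have e3 := hfun _ hu _ _ h0 h1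
      refine mem_val.2 ⟨_, q, mem_ch_sepN.2 ⟨⊤, mem_ch_collN.2
        ⟨u', c, q, S.one, huc, (nact_one S _).symm, rfl⟩, le_top, u', c, huc, hqc, hw⟩,
        hyX, hq, congrArg Subtype.val e3⟩

end ZFModel

end Pool.Agent.ZFIter
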