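import Pool.Agent.ChoicelessEmb.Exist
import Pool.Agent.ZFIter.SymModel

set_option autoImplicit false

/-! # Countable closed sets of symmetric names exist, and a model of ZF -/

namespace Pool.Agent.ZFIter

open Pool.Agent.ChoicelessEmb FirstOrder LName

open Pool.Agent.H78.ZF (LSet MemSymb structOf IsZFModel)

instance : Countable LSet.Symbols := by
  have : ∀ l, Countable (LSet.Functions l) := fun l => inferInstanceAs (Countable Empty)
  have : ∀ l, Countable (LSet.Relations l) := fun l => by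
    show Countable (MemSymb l)
    exact Function.Injective.countable (f := fun _ => (0 : ℕ)) (by rintro ⟨⟩ ⟨⟩ _; rfl)
  unfold Language.Symbols
  infer_instance

section Exist

variable {P : Type} [PartialOrder P] [OrderTop P] [Countable P] (S : SymSys P)

theorem creq_c3' : CReq (HSset S) fun X => ∀ (k n : ℕ) (φ : LSet.BoundedFormula (Fin k) (n + 1))
      (v : Fin k → LName P) (xs : Fin n → LName P),
      (∀ i, v i ∈ X) → (∀ i, xs i ∈ X) → ∀ p, p ∈ allBad (Fset P) (HSset S) φ v xs →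
      ∃ x ∈ X, ∀ r ≤ p, ¬ forces (Fset P) (HSset S) φ v
        (Fin.snoc (α := fun _ => LName P) xs x) r := by
  apply CReq.forall
  intro k
  apply CReq.forall
  intro n
  have := countable_BF (L := LSet) k (n + 1)
  apply CReq.forall
  intro φ
  have h : CReq (HSset S) fun X => ∀ p : P,
      ∀ w : Fin (k + n) → LName P, (∀ i, w i ∈ X) →
      (∃ x ∈ HSset S, ∀ r ≤ p, ¬ forces (Fset P) (HSset S) φ (fun i => w (Fin.castAdd n i))
        (Fin.snoc (α := fun _ => LName P) (fun i => w (Fin.natAdd k i)) x) r) →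
      ∃ x ∈ X, ∀ r ≤ p, ¬ forces (Fset P) (HSset S) φ (fun i => w (Fin.castAdd n i))
        (Fin.snoc (α := fun _ => LName P) (fun i => w (Fin.natAdd k i)) x) r := by
    apply CReq.forall
    intro p
    exact creq_skolem (k + n) _
  refine h.mono ?_
  intro X _ h v xs hv hxs p hp
  have := h p (Fin.append v xs) fun i => by
    refine Fin.addCases (fun j => ?_) (fun j => ?_) i
    · rw [Fin.append_left]; exact hv j
    · rw [Fin.append_right]; exact hxs j
  simp only [Fin.append_left, Fin.append_right] at this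
  exact this hp

theorem creq_opClosed' : CReq (HSset S) (OpClosed S) := by
  have c1 : CReq (HSset S) fun X => ∀ r : P, ∀ u ∈ X, ∀ y ∈ X,
      (∃ w, ∃ d, (w, d) ∈ ch y ∧ r ≤ d ∧ feq u w r) →
      ∃ w ∈ X, ∃ d, (w, d) ∈ ch y ∧ r ≤ d ∧ feq u w r := by
    apply CReq.forall
    intro r
    exact creq_sk2 _ fun u _ y hy w ⟨d, hw, _⟩ => HS.ch hy hw
  have c2 : CReq (HSset S) fun X => ∀ q : P, ∀ x ∈ X, ∀ y ∈ X,
      (∃ u, ∃ c, (u, c) ∈ ch x ∧ q ≤ c ∧ ∀ r ≤ q, r ∉ memSet u y) →
      ∃ u ∈ X, ∃ c, (u, c) ∈ ch x ∧ q ≤ c ∧ ∀ r ≤ q, r ∉ memSet u y := by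
    apply CReq.forall
    intro r
    exact creq_sk2 _ fun x hx y _ u ⟨c, hu, _⟩ => HS.ch hx hu
  have u2 : CReq (HSset S) fun X => ∀ q : P, ∀ x ∈ X, ∀ w ∈ X,
      (∃ u, ∃ c d, (u, c) ∈ ch x ∧ (w, d) ∈ ch u ∧ q ≤ c ∧ q ≤ d) →
      ∃ u ∈ X, ∃ c d, (u, c) ∈ ch x ∧ (w, d) ∈ ch u ∧ q ≤ c ∧ q ≤ d := by
    apply CReq.forall
    intro r
    exact creq_sk2 _ fun x hx y _ u ⟨c, d, hu, _⟩ => HS.ch hx hu
  have pr : CReq (HSset S) fun X => ∀ x ∈ X, ∀ y ∈ X, pairN x y ∈ X :=
    creq_op2 _ fun x hx y hy => HS_pairN hx hy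
  have un : CReq (HSset S) fun X => ∀ x ∈ X, unionN x ∈ X :=
    creq_op1 _ fun x hx => HS_unionN hx
  have pw : CReq (HSset S) fun X => ∀ x ∈ X, powN S x ∈ X :=
    creq_op1 _ fun x hx => HS_powN hx
  have sb : CReq (HSset S) fun X => ∀ x ∈ X, ∀ y ∈ X, subN x y ∈ X :=
    creq_op2 _ fun x hx y hy => HS_subN hx hy
  have sp : CReq (HSset S) fun X => ∀ (n : ℕ) (φ : LSet.Formula (Fin (n + 1)))
      (a : Fin n → LName P), (∀ i, a i ∈ X) → ∀ x ∈ X, sepF S φ a x ∈ X := by
    apply CReq.forall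
    intro n
    have : Countable (LSet.Formula (Fin (n + 1))) := countable_BF (L := LSet) (n + 1) 0
    apply CReq.forall
    intro φ
    exact creq_opn n _ fun a ha x hx => HS_sepF φ ha hx
  have wt : CReq (HSset S) fun X => ∀ (n : ℕ) (φ : LSet.Formula (Fin (n + 2))) (q : P)
      (a : Fin n → LName P), (∀ i, a i ∈ X) → ∀ u ∈ X, witY S φ a u q ∈ X := by
    apply CReq.forall
    intro n
    have : Countable (LSet.Formula (Fin (n + 2))) := countable_BF (L := LSet) (n + 2) 0
    apply CReq.forall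
    intro φ
    apply CReq.forall
    intro q
    exact creq_opn n (fun a u => witY S φ a u q) fun a _ u _ => HS_witY S φ a u q
  have rp : CReq (HSset S) fun X => ∀ (n : ℕ) (φ : LSet.Formula (Fin (n + 2)))
      (a : Fin n → LName P), (∀ i, a i ∈ X) → ∀ x ∈ X, replF S φ a x ∈ X := by
    apply CReq.forall
    intro n
    have : Countable (LSet.Formula (Fin (n + 2))) := countable_BF (L := LSet) (n + 2) 0
    apply CReq.forall
    intro φ
    exact creq_opn n _ fun a ha x hx => HS_replF φ ha hx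
  have rp2 : CReq (HSset S) fun X => ∀ (n : ℕ) (φ : LSet.Formula (Fin (n + 2))) (q : P)
      (a : Fin n → LName P), (∀ i, a i ∈ X) → ∀ x ∈ X, ∀ y ∈ X,
      (∃ u, ∃ c, (u, c) ∈ ch x ∧ q ≤ c ∧
        ff S φ (Fin.cons u (Fin.cons y a : Fin (n + 1) → LName P)) q) →
      ∃ u ∈ X, ∃ c, (u, c) ∈ ch x ∧ q ≤ c ∧
        ff S φ (Fin.cons u (Fin.cons y a : Fin (n + 1) → LName P)) q := by
    apply CReq.forall
    intro n
    have : Countable (LSet.Formula (Fin (n + 2))) := countable_BF (L := LSet) (n + 2) 0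
    apply CReq.forall
    intro φ
    apply CReq.forall
    intro q
    exact creq_skn n _ fun a _ x hx y _ u ⟨c, hu, _⟩ => HS.ch hx hu
  refine (c1.and (c2.and (creq_sub.and ((creq_c3' S).and (pr.and (un.and (u2.and (pw.and
    (sb.and (sp.and (wt.and (rp.and rp2)))))))))))).mono ?_
  rintro X hXH ⟨c1, c2, sb', c3, pr, un, u2, pw, sb, sp, wt, rp, rp2⟩
  exact
    { atom := ⟨fun u hu y hy r hr => c1 r u hu y hy hr, fun x hx y hy q hq => c2 q x hx y hy hq⟩
      form := ⟨sb', c3⟩
      pair := pr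
      union := un
      union2 := fun x hx w hw q h => u2 q x hx w hw h
      pow := pw
      sub := sb
      sep := sp
      wit := fun n φ a ha u hu q => wt n φ q a ha u hu
      repl := rp
      repl2 := fun n φ a ha x hx y hy q h => rp2 n φ q a ha x hx y hy h }

/-- There are a countable closed set of names containing a given countable set of symmetric
names, and a generic filter. -/
theorem exists_closed_generic {A : Set (LName P)} (hA : A ⊆ HSset S) (hc : A.Countable) :
    ∃ (X : Set (LName P)) (g : Set P), X.Countable ∧ A ⊆ X ∧ OpClosed S X ∧ AtomGen X g ∧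
      FGen (Fset P) (HSset S) X g := by
  obtain ⟨X, hAX, _, hXc, hX⟩ := (creq_opClosed' S).exists hA hc
  obtain ⟨g, hg, hdec⟩ := exists_generic (fam (Fset P) (HSset S) X)
    (fam_countable (Fset P) (HSset S) hXc)
  obtain ⟨h1, h2⟩ := gen_of_fam (Fset P) (HSset S) hg hdec
  exact ⟨X, g, hXc, hAX, hX, h1, h2⟩

end Exist

/-! ### From formulas to definable classes -/

/-- A transitive model of ZF in the sense of formulas is a model in the sense of definable
classes. -/
theorem isZFModel_of {M : Set ZFSet.{0}}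
    (h : letI := structOf (fun x y : M => x.1 ∈ y.1); ModelsZF LSet M) :
    IsZFModel (fun x y : M => x.1 ∈ y.1) := by
  letI := structOf (fun x y : M => x.1 ∈ y.1)
  have key : ∀ (k : ℕ) (s : Set (Fin k → M)), (Set.univ : Set M).Definable LSet s →
      ∃ (n : ℕ) (φ : LSet.Formula (Fin k ⊕ Fin n)) (a : Fin n → M),
        s = {v | φ.Realize (Sum.elim v a)} := by
    intro k s hs
    obtain ⟨A0, _, hs'⟩ := Set.definable_iff_finitely_definable.1 hs
    obtain ⟨φ, hφ⟩ := Set.definable_iff_exists_formula_sum.1 hs'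
    obtain ⟨n, ⟨e⟩⟩ := Finite.exists_equiv_fin (A0 : Set M)
    refine ⟨n, φ.relabel (fun x => x.elim (fun a => Sum.inr (e a)) Sum.inl),
      fun i => (e.symm i : M), ?_⟩
    rw [hφ]
    ext v
    simp only [Set.mem_ofPred_eq, Language.Formula.realize_relabel]
    have : (Sum.elim v (fun i => ((e.symm i : (A0 : Set M)) : M))) ∘
        (fun x : (A0 : Set M) ⊕ Fin k => x.elim (fun a => Sum.inr (e a)) Sum.inl) =
        Sum.elim (fun a : (A0 : Set M) => (a : M)) v := by
      funext x
      rcases x with a | i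
      · simp
      · simp
    rw [this]
  refine ⟨fun x y => h.extensionality x y, fun x hx => ?_, fun x y => ?_, fun x => ?_,
    fun x => ?_, ?_, ?_, ?_⟩
  · obtain ⟨y, hy, h'⟩ := h.foundation x hx
    exact ⟨y, hy, fun z hz hzx => h' z hzx hz⟩
  · exact h.pairing x y
  · exact h.union x
  · exact h.powerset x
  · exact h.infinity
  · intro s hs a
    obtain ⟨n, φ, p, hφ⟩ := key 1 _ hs
    obtain ⟨y, hy⟩ := h.separation n (φ.relabel (fun x => x.elim (fun _ => (0 : Fin (n + 1)))
      Fin.succ)) p a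
    refine ⟨y, fun z => (hy z).trans (and_congr_right fun _ => ?_)⟩
    rw [Language.Formula.realize_relabel]
    have h1 : (fun _ : Fin 1 => z) ∈ {v : Fin 1 → M | v 0 ∈ s} ↔ z ∈ s := Iff.rfl
    have h2 : {x : Fin 1 → M | x 0 ∈ s} = {v | φ.Realize (Sum.elim v p)} := hφ
    rw [← h1, h2]
    simp only [Set.mem_ofPred_eq]
    have : (Fin.cons z p : Fin (n + 1) → M) ∘ (fun x : Fin 1 ⊕ Fin n =>
        x.elim (fun _ => (0 : Fin (n + 1))) Fin.succ) = Sum.elim (fun _ => z) p := by
      funext x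
      rcases x with a | i
      · rfl
      · rfl
    rw [this]
  · intro F hF a hfun
    obtain ⟨n, φ, p, hφ⟩ := key 2 _ hF
    have h2 : {v : Fin 2 → M | (v 0, v 1) ∈ F} = {v | φ.Realize (Sum.elim v p)} := hφ
    have hreal : ∀ u v : M, (φ.relabel (fun x : Fin 2 ⊕ Fin n => x.elim
        (fun i => (Fin.castLE (by omega) i : Fin (n + 2)))
        (fun i => i.succ.succ))).Realize
        (Fin.cons u (Fin.cons v p : Fin (n + 1) → M) : Fin (n + 2) → M) ↔ (u, v) ∈ F := by
      intro u v
      rw [Language.Formula.realize_relabel]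
      have h1 : (![u, v] : Fin 2 → M) ∈ {v : Fin 2 → M | (v 0, v 1) ∈ F} ↔ (u, v) ∈ F := Iff.rfl
      rw [← h1, h2]
      simp only [Set.mem_ofPred_eq]
      have : (Fin.cons u (Fin.cons v p : Fin (n + 1) → M) : Fin (n + 2) → M) ∘
          (fun x : Fin 2 ⊕ Fin n => x.elim (fun i => (Fin.castLE (by omega) i : Fin (n + 2)))
            (fun i => i.succ.succ)) = Sum.elim ![u, v] p := by
        funext x
        rcases x with i | i
        · fin_cases i <;> rfl
        · rfl
      rw [this]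
    obtain ⟨y, hy⟩ := h.replacement n (φ.relabel (fun x : Fin 2 ⊕ Fin n => x.elim
        (fun i => (Fin.castLE (by omega) i : Fin (n + 2))) (fun i => i.succ.succ))) p a (by
      intro u hu v v' hv hv'
      rw [hreal] at hv hv'
      exact (hfun u hu).unique hv hv')
    refine ⟨y, fun v => ?_⟩
    rw [hy v]
    simp only [hreal]

end Pool.Agent.ZFIter
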