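import Pool.Agent.H78.ZF.Pairing

/-! # More set theory inside a model of ZF: images, recursion on omega, transitive closure -/

universe u

namespace Pool.Agent.ZFIter

open Pool.Agent.H78.ZF

variable {M : Type u} [ZFM M] {ι κ : Type}

/-- Substitution into a definable class function with parameters. -/
theorem DF.app (F : M → (ι → M) → M)
    [h : DF (ι := Option ι) (fun v => F (v none) (fun i => v (some i)))]
    (s : (κ → M) → M) [DF s] (e : ι → κ) : DF (fun v : κ → M => F (s v) (fun i => v (e i))) := by
  rw [DF_iff]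
  have h1 : DR (ι := Option (Option ι)) (fun v => F (v (some none)) (fun i => v (some (some i))) = v none) := by
    have := (DF_iff _).1 h
    exact this
  have h2 : DR (ι := Option (Option κ)) (fun v => F (v none) (fun i => v (some (some (e i)))) =
      v (some none)) := by
    exact DR.weaken (fun v : Option (Option ι) → M =>
      F (v (some none)) (fun i => v (some (some i))) = v none)
      (fun o : Option (Option ι) => (match o with
        | none => some none | some none => none | some (some i) => some (some (e i)) :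
        Option (Option κ))) (h := h1)
  have h3 : DR (ι := Option κ) (fun v => ∃ y, y = s (fun i => v (some i)) ∧
      F y (fun i => v (some (e i))) = v none) := by
    infer_instance
  convert h3 using 1
  ext v
  simp

/-- Substitution into a definable class with parameters. -/
theorem DR.app (P : M → (ι → M) → Prop)
    [h : DR (ι := Option ι) (fun v => P (v none) (fun i => v (some i)))]
    (s : (κ → M) → M) [DF s] (e : ι → κ) : DR (fun v : κ → M => P (s v) (fun i => v (e i))) := by
  have h2 : DR (ι := Option κ) (fun v => P (v none) (fun i => v (some (e i)))) := by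
    exact DR.weaken (fun v : Option ι → M => P (v none) (fun i => v (some i)))
      (fun o : Option ι => (match o with
        | none => none | some i => some (e i) : Option κ)) (h := h)
  have h3 : DR (ι := κ) (fun v => ∃ y, y = s v ∧ P y (fun i => v (e i))) := by
    infer_instance
  convert h3 using 1
  ext v
  simp

/-- The image of a set under a class function. -/
noncomputable def img (a : M) (F : M → M) : M := iota (fun b => ∀ y, y ∈ b ↔ ∃ x, x ∈ a ∧ y = F x)

@[simp] theorem mem_img (a : M) (F : M → M) [F1 F] (y : M) : y ∈ img a F ↔ ∃ x, x ∈ a ∧ y = F x := by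
  have h : ∃! b : M, ∀ y, y ∈ b ↔ ∃ x, x ∈ a ∧ y = F x := by
    obtain ⟨b, hb⟩ := exists_repl (fun x y => y = F x) a (fun x _ => ⟨F x, rfl, fun y hy => hy⟩)
    exact ⟨b, hb, fun c hc => ext fun z => by rw [hc z, hb z]⟩
  exact iota_spec h y

instance DF.img (a : (ι → M) → M) (F : M → (ι → M) → M) [DF a]
    [h : DF (ι := Option ι) (fun v => F (v none) (fun i => v (some i)))] :
    DF (fun v => img (a v) (fun x => F x v)) := by
  have hw : ∀ {κ : Type} (s : (κ → M) → M) (e : ι → κ) [DF s],
    DF (fun v : κ → M => F (s v) (fun i => v (e i))) := fun s e _ => DF.app F s e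
  unfold ZFIter.img
  infer_instance

/-! ### Recursion on omega for class functions -/

/-- `f` is the partial recursion sequence of length `n + 1`. -/
def RecSeq (F : M → M) (z0 f n : M) : Prop :=
  (∀ k, k ∈ succ n → ∃! y, opair k y ∈ f) ∧ opair emp z0 ∈ f ∧
    ∀ k, k ∈ n → ∀ y, opair k y ∈ f → opair (succ k) (F y) ∈ f

instance DR.RecSeq (F : M → (ι → M) → M) (z0 f n : (ι → M) → M) [DF z0] [DF f] [DF n]
    [h : DF (ι := Option ι) (fun v => F (v none) (fun i => v (some i)))] :
    DR (fun v => RecSeq (fun x => F x v) (z0 v) (f v) (n v)) := by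
  have hw : ∀ {κ : Type} (s : (κ → M) → M) (e : ι → κ) [DF s],
    DF (fun v : κ → M => F (s v) (fun i => v (e i))) := fun s e _ => DF.app F s e
  unfold ZFIter.RecSeq
  infer_instance

/-- Recursion on omega for a class function. -/
noncomputable def recc (F : M → M) (z0 n : M) : M :=
  iota (fun y => ∃ f, RecSeq F z0 f n ∧ opair n y ∈ f)

instance DF.recc (F : M → (ι → M) → M) (z0 n : (ι → M) → M) [DF z0] [DF n]
    [h : DF (ι := Option ι) (fun v => F (v none) (fun i => v (some i)))] :
    DF (fun v => recc (fun x => F x v) (z0 v) (n v)) := by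
  have hw : ∀ {κ : Type} (s : (κ → M) → M) (e : ι → κ) [DF s],
    DF (fun v : κ → M => F (s v) (fun i => v (e i))) := fun s e _ => DF.app F s e
  unfold ZFIter.recc
  have : DR (ι := Option (Option ι)) (fun v => ZFIter.RecSeq (fun x => F x fun i => v (some (some i)))
      (z0 fun i => v (some (some i))) (v none) (n fun i => v (some (some i)))) := by
    exact DR.RecSeq (ι := Option (Option ι)) (fun x v => F x fun i => v (some (some i))) _ _ _
  infer_instance

section
variable {F : M → M} [hF : F1 F] {z0 : M}

instance : D2 (RecSeq F z0) := by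
  have : DR (fun v : Fin 2 → M => RecSeq F z0 (v 0) (v 1)) := by
    unfold RecSeq
    infer_instance
  infer_instance

omit hF in
theorem RecSeq.uniq {f g n m : M} (hf : RecSeq F z0 f n) (hg : RecSeq F z0 g m) :
    ∀ k, k ∈ (omega : M) → k ∈ succ n → k ∈ succ m → n ∈ (omega : M) → m ∈ (omega : M) →
      ∀ y y', opair k y ∈ f → opair k y' ∈ g → y = y' := by
  apply omega_induction (fun k => k ∈ succ n → k ∈ succ m → n ∈ (omega : M) → m ∈ (omega : M) →
      ∀ y y', opair k y ∈ f → opair k y' ∈ g → y = y')
  · intro h1 h2 _ _ y y' hy hy'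
    have e1 := (hf.1 emp h1).unique hy hf.2.1
    have e2 := (hg.1 emp h2).unique hy' hg.2.1
    rw [e1, e2]
  · intro k hk ih h1 h2 hn hm y y' hy hy'
    have h3 : k ∈ n := by
      have := (lt_succ_iff (succ_mem_omega hk) hn).1 h1
      exact this k (by simp)
    have h4 : k ∈ m := by
      have := (lt_succ_iff (succ_mem_omega hk) hm).1 h2
      exact this k (by simp)
    obtain ⟨w, hw, _⟩ := hf.1 k (by rw [mem_succ]; left; exact h3)
    obtain ⟨w', hw', _⟩ := hg.1 k (by rw [mem_succ]; left; exact h4)
    have e := ih (by rw [mem_succ]; left; exact h3) (by rw [mem_succ]; left; exact h4) hn hm w w' hw hw'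
    have e1 := (hf.1 _ h1).unique hy (hf.2.2 k h3 w hw)
    have e2 := (hg.1 _ h2).unique hy' (hg.2.2 k h4 w' hw')
    rw [e1, e2, e]

theorem exists_recSeq : ∀ n, n ∈ (omega : M) → ∃ f, RecSeq F z0 f n := by
  apply omega_induction (fun n => ∃ f, RecSeq F z0 f n)
  · refine ⟨sing (opair emp z0), ?_, by simp, ?_⟩
    · intro k hk
      rw [mem_succ] at hk
      have hk' : k = emp := hk.resolve_left (not_mem_emp k)
      subst hk'
      exact ⟨z0, by simp, fun y hy => by simpa using hy⟩
    · intro k hk
      exact absurd hk (not_mem_emp k)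
  · intro n hn ih
    obtain ⟨f, hf⟩ := ih
    obtain ⟨w, hw, hw'⟩ := hf.1 n (by simp)
    -- restrict `f` to `succ n` and adjoin the new value
    refine ⟨ins (sep f (fun p => ∃ k, k ∈ succ n ∧ ∃ y, p = opair k y)) (opair (succ n) (F w)), ?_, ?_, ?_⟩
    · intro k hk
      rw [mem_succ] at hk
      rcases hk with hk | rfl
      · obtain ⟨y, hy, hy'⟩ := hf.1 k hk
        refine ⟨y, ?_, ?_⟩
        · show opair k y ∈ _
          rw [mem_ins, mem_sep]
          exact Or.inl ⟨hy, k, hk, y, rfl⟩
        · intro z hz
          rw [mem_ins, mem_sep] at hz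
          rcases hz with hz | hz
          · exact hy' z hz.1
          · exfalso
            have e := (opair_inj hz).1
            rw [e] at hk
            exact not_mem_self _ hk
      · refine ⟨F w, ?_, ?_⟩
        · show opair (succ n) (F w) ∈ _
          rw [mem_ins]; exact Or.inr rfl
        · intro z hz
          rw [mem_ins, mem_sep] at hz
          rcases hz with ⟨_, k, hk, y, e⟩ | hz
          · exfalso
            have e := (opair_inj e).1
            rw [← e] at hk
            exact not_mem_self _ hk
          · exact (opair_inj hz).2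
    · rw [mem_ins, mem_sep]
      left
      refine ⟨hf.2.1, emp, ?_, z0, rfl⟩
      rw [lt_succ_iff emp_mem_omega hn]
      exact emp_sub n
    · intro k hk y hy
      rw [mem_ins, mem_sep] at hy
      have hkω : k ∈ (omega : M) := mem_omega_of_mem hk (succ_mem_omega hn)
      rcases hy with ⟨hy, _⟩ | hy
      · rw [mem_succ] at hk
        rcases hk with hk | rfl
        · rw [mem_ins, mem_sep]
          left
          refine ⟨hf.2.2 k hk y hy, succ k, ?_, F y, rfl⟩
          rw [lt_succ_iff (succ_mem_omega hkω) hn, succ_le_iff hn]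
          exact hk
        · rw [hw' y hy, mem_ins]
          right; rfl
      · exfalso
        have e := (opair_inj hy).1
        rw [e] at hk
        exact not_mem_self _ hk

theorem recc_spec {n : M} (hn : n ∈ (omega : M)) :
    ∃ f, RecSeq F z0 f n ∧ opair n (recc F z0 n) ∈ f := by
  have h : ∃! y, ∃ f, RecSeq F z0 f n ∧ opair n y ∈ f := by
    obtain ⟨f, hf⟩ := exists_recSeq (F := F) (z0 := z0) n hn
    obtain ⟨y, hy, _⟩ := hf.1 n (by simp)
    refine ⟨y, ⟨f, hf, hy⟩, ?_⟩
    rintro z ⟨g, hg, hz⟩
    exact hg.uniq hf n hn (by simp) (by simp) hn hn z y hz hy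
  exact iota_spec h

theorem recc_eq {n f y : M} (hn : n ∈ (omega : M)) (hf : RecSeq F z0 f n) (h : opair n y ∈ f) :
    recc F z0 n = y := by
  obtain ⟨g, hg, hz⟩ := recc_spec (F := F) (z0 := z0) hn
  exact hg.uniq hf n hn (by simp) (by simp) hn hn _ y hz h

@[simp] theorem recc_zero : recc F z0 emp = z0 := by
  obtain ⟨f, hf⟩ := exists_recSeq (F := F) (z0 := z0) emp emp_mem_omega
  exact recc_eq emp_mem_omega hf hf.2.1

theorem recc_succ {n : M} (hn : n ∈ (omega : M)) : recc F z0 (succ n) = F (recc F z0 n) := by
  obtain ⟨f, hf⟩ := exists_recSeq (F := F) (z0 := z0) (succ n) (succ_mem_omega hn)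
  obtain ⟨w, hw, _⟩ := hf.1 n (by simp [mem_succ])
  have h1 := hf.2.2 n (by simp) w hw
  rw [recc_eq (succ_mem_omega hn) hf h1]
  congr 1
  obtain ⟨g, hg, hz⟩ := recc_spec (F := F) (z0 := z0) hn
  exact hf.uniq hg n hn (by simp [mem_succ]) (by simp) (succ_mem_omega hn) hn w _ hw hz

end

/-! ### Transitive closure -/

/-- Transitive sets. -/
def Trans (x : M) : Prop := ∀ y, y ∈ x → y ⊆ x

instance DR.Trans (s : (ι → M) → M) [DF s] : DR (fun v => Trans (s v)) := by
  unfold ZFIter.Trans
  infer_instance

/-- A transitive set including `x`. -/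
noncomputable def tc (x : M) : M := sUn (img omega (fun n => recc (fun z => sUn z) x n))

instance DF.tc (s : (ι → M) → M) [DF s] : DF (fun v => tc (s v)) := by
  unfold ZFIter.tc
  infer_instance

theorem sub_tc (x : M) : x ⊆ tc x := by
  intro z hz
  unfold tc
  rw [mem_sUn]
  refine ⟨x, ?_, hz⟩
  rw [mem_img]
  exact ⟨emp, emp_mem_omega, by rw [recc_zero]⟩

theorem trans_tc (x : M) : Trans (tc x) := by
  intro y hy z hz
  unfold tc at hy ⊢
  rw [mem_sUn] at hy ⊢
  obtain ⟨w, hw, hyw⟩ := hy
  rw [mem_img] at hw
  obtain ⟨n, hn, rfl⟩ := hw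
  refine ⟨recc (fun z => sUn z) x (succ n), ?_, ?_⟩
  · rw [mem_img]
    exact ⟨succ n, succ_mem_omega hn, rfl⟩
  · rw [recc_succ hn, mem_sUn]
    exact ⟨y, hyw, hz⟩

/-- Induction on membership for definable classes. -/
theorem mem_induction (P : M → Prop) [D1 P] (h : ∀ x, (∀ y, y ∈ x → P y) → P x) : ∀ x, P x := by
  intro x
  by_contra hx
  obtain ⟨y, hy, hy'⟩ := foundation (sep (tc (sing x)) (fun y => ¬ P y)) (ne_emp_iff.2 ⟨x, by
    rw [mem_sep]; exact ⟨sub_tc _ x (by simp), hx⟩⟩)
  rw [mem_sep] at hy
  apply hy.2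
  apply h
  intro z hz
  by_contra hPz
  apply hy' z hz
  rw [mem_sep]
  exact ⟨trans_tc _ y hy.1 z hz, hPz⟩

end Pool.Agent.ZFIter
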