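import Pool.Agent.ZFIter.Succ

/-! # The limit step of the iteration theorem for `ccc_3`, and the theorem -/

universe u

namespace Pool.Agent.ZFIter

open Pool.Agent.H78.ZF

variable {M : Type u} [ZFM M] {ι : Type}

theorem ctb_of_fin {a : M} (h : FinM a) : Ctb a := by
  obtain ⟨n, hn, f, hf⟩ := h
  refine ⟨f, ?_⟩
  rw [inj_iff]
  have h1 := inj_iff.1 hf.inj
  exact ⟨h1.1.mono fun x hx => mem_omega_of_mem (h1.1.ap_mem hx) hn, h1.2⟩

/-- The set of restrictions to `γ` of the members of `X`. -/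
noncomputable def rs (X γ : M) : M := img X (fun d => res d γ)

instance DF.rs (X γ : (ι → M) → M) [DF X] [DF γ] : DF (fun v => rs (X v) (γ v)) := by
  unfold ZFIter.rs
  infer_instance

theorem mem_rs {X γ z : M} : z ∈ rs X γ ↔ ∃ d, d ∈ X ∧ z = res d γ := by
  unfold rs
  rw [mem_img]

section iter

variable {δ P R Q S o N : M} (h : Core δ P R Q S o N)

include h

theorem Core.rs_sub {α γ X : M} (hα : α ∈ succ δ) (hγ : γ ∈ succ α) (hX : X ⊆ ap P α) :
    rs X γ ⊆ ap P γ := by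
  intro z hz
  obtain ⟨d, hd, rfl⟩ := mem_rs.1 hz
  exact h.res_mem hα hγ (hX d hd)

/-- A predense set restricts to a predense set. -/
theorem Core.rs_pd {α γ D : M} (hα : α ∈ succ δ) (hγ : γ ∈ succ α)
    (hD : PD (ap P α) (ap R α) D) : PD (ap P γ) (ap R γ) (rs D γ) := by
  refine ⟨h.rs_sub hα hγ hD.1, fun p hp => ?_⟩
  have hp' := h.extend hα hγ hp
  obtain ⟨d, hd, e, he1, he2⟩ := hD.2 _ hp'
  refine ⟨res d γ, mem_rs.2 ⟨d, hd, rfl⟩, res e γ, ?_, h.res_le hα hγ he2⟩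
  have := h.res_le hα hγ he1
  rwa [res_glue (h.seq (h.le hα hγ) hp) (h.sub hα hγ)] at this

/-- A countable part of `D` with predense restriction. -/
theorem Core.ctb_part (hDC : DC M) {α γ D : M} (hα : α ∈ succ δ) (hγ : γ ∈ succ α)
    (hc : CCC3 (ap P γ) (ap R γ)) (hD : PD (ap P α) (ap R α) D) :
    ∃ X, X ⊆ D ∧ Ctb X ∧ PD (ap P γ) (ap R γ) (rs X γ) := by
  obtain ⟨C, hC, hCpd, hCc⟩ := hc _ (h.rs_pd hα hγ hD)
  obtain ⟨f, hf, hfR⟩ := ac_ctb hDC hCc D (fun c d => c = res d γ) (by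
    intro c hc
    obtain ⟨d, hd, e⟩ := mem_rs.1 (hC c hc)
    exact ⟨d, hd, e⟩)
  have hX : img C (fun c => ap f c) ⊆ D := by
    intro d hd
    rw [mem_img] at hd
    obtain ⟨c, hc, rfl⟩ := hd
    exact hf.ap_mem hc
  refine ⟨img C (fun c => ap f c), hX, ctb_img hCc _, hCpd.mono (fun c hc => ?_)
    (h.rs_sub hα hγ (sub_trans hX hD.1))⟩
  rw [mem_rs]
  exact ⟨ap f c, by rw [mem_img]; exact ⟨c, hc, rfl⟩, hfR c hc⟩

theorem Core.emp_mem (hα : δ ∈ succ δ) : (emp : M) ∈ succ δ := by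
  rcases ord_le_or_lt h.ord_succ ⟨fun y hy => absurd hy (not_mem_emp y), fun y hy => absurd hy (not_mem_emp y)⟩ with h1 | h1
  · exact absurd (h1 δ hα) (not_mem_emp δ)
  · exact h1

theorem Core.emp_le {α : M} (hα : α ∈ succ δ) : (emp : M) ∈ succ α := by
  rcases ord_le_or_lt (h.ord_of hα).succ ⟨fun y hy => absurd hy (not_mem_emp y), fun y hy => absurd hy (not_mem_emp y)⟩ with h1 | h1
  · exact absurd (h1 α (mem_succ_self α)) (not_mem_emp α)
  · exact h1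

/-- The limit step. -/
theorem Core.ccc3_limit (hDC : DC M) {α : M} (hα : α ∈ succ δ)
    (hlim : ∀ β, β ∈ α → succ β ∈ α) (ih : ∀ β, β ∈ α → CCC3 (ap P β) (ap R β)) :
    CCC3 (ap P α) (ap R α) := by
  have hpre := h.pre α hα
  have he0 : (emp : M) ∈ succ δ := h.le hα (h.emp_le hα)
  have hempP : (emp : M) ∈ ap P emp := by
    rw [h.cond emp he0]
    refine ⟨isSeq_emp, fun β hβ => absurd hβ (not_mem_emp β), fin_sub fin_emp fun β hβ => ?_⟩
    rw [mem_sep] at hβ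
    exact absurd hβ.1 (not_mem_emp β)
  intro D hD
  -- `D` is nonempty
  obtain ⟨d0, hd0⟩ : ∃ d, d ∈ D := by
    obtain ⟨d, hd, _⟩ := hD.2 _ (h.extend hα (h.emp_le hα) hempP)
    exact ⟨d, hd⟩
  set X : M := sep (pow D) (fun A => Ctb A ∧ d0 ∈ A) with hX
  have memX : ∀ A, A ∈ X ↔ A ⊆ D ∧ Ctb A ∧ d0 ∈ A := by
    intro A
    rw [hX, mem_sep, mem_pow]
  set G : M := sep (prod X X) (fun w => ∃ A B, w = opair A B ∧
    ∀ d, d ∈ A → ∀ ξ, ξ ∈ α → ap d ξ ≠ ap o ξ →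
      PD (ap P (succ ξ)) (ap R (succ ξ)) (rs B (succ ξ))) with hG
  have memG : ∀ A B, opair A B ∈ G ↔ A ∈ X ∧ B ∈ X ∧ ∀ d, d ∈ A → ∀ ξ, ξ ∈ α → ap d ξ ≠ ap o ξ →
      PD (ap P (succ ξ)) (ap R (succ ξ)) (rs B (succ ξ)) := by
    intro A B
    rw [hG, mem_sep, opair_mem_prod]
    constructor
    · rintro ⟨⟨h1, h2⟩, A', B', e, h3⟩
      obtain ⟨rfl, rfl⟩ := opair_inj e
      exact ⟨h1, h2, h3⟩
    · rintro ⟨h1, h2, h3⟩
      exact ⟨⟨h1, h2⟩, A, B, rfl, h3⟩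
  have hXne : X ≠ emp := by
    rw [ne_emp_iff]
    refine ⟨sing d0, (memX _).2 ⟨?_, ctb_sing d0, by simp⟩⟩
    intro z hz
    rw [mem_sing] at hz
    rw [hz]; exact hd0
  have hstep : ∀ A, A ∈ X → ∃ B, B ∈ X ∧ opair A B ∈ G := by
    intro A hA
    obtain ⟨hAD, hAc, hA0⟩ := (memX A).1 hA
    set I : M := sUn (img A (fun d => sep α (fun ξ => ap d ξ ≠ ap o ξ))) with hI
    have memI : ∀ ξ, ξ ∈ I ↔ ∃ d, d ∈ A ∧ ξ ∈ α ∧ ap d ξ ≠ ap o ξ := by
      intro ξ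
      rw [hI, mem_sUn]
      constructor
      · rintro ⟨y, hy, hξ⟩
        rw [mem_img] at hy
        obtain ⟨d, hd, rfl⟩ := hy
        rw [mem_sep] at hξ
        exact ⟨d, hd, hξ⟩
      · rintro ⟨d, hd, hξ⟩
        exact ⟨_, by rw [mem_img]; exact ⟨d, hd, rfl⟩, by rw [mem_sep]; exact hξ⟩
    have hIc : Ctb I := by
      refine ctb_union hDC hAc (fun d => sep α (fun ξ => ap d ξ ≠ ap o ξ)) fun d hd => ?_
      exact ctb_of_fin (h.fin hα (hD.1 d (hAD d hd)))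
    obtain ⟨f, hf, hfR⟩ := ac_ctb hDC hIc (pow D) (fun ξ B => Ctb B ∧
        PD (ap P (succ ξ)) (ap R (succ ξ)) (rs B (succ ξ))) (by
      intro ξ hξ
      obtain ⟨d, hd, hξα, _⟩ := (memI ξ).1 hξ
      have hs := hlim ξ hξα
      obtain ⟨B, hB, hBc, hBpd⟩ := h.ctb_part hDC hα (lt_succ_of_lt hs) (ih _ hs) hD
      exact ⟨B, by rw [mem_pow]; exact hB, hBc, hBpd⟩)
    set B : M := ins (sUn (img I (fun ξ => ap f ξ))) d0 with hB
    have memB : ∀ d, d ∈ B ↔ (∃ ξ, ξ ∈ I ∧ d ∈ ap f ξ) ∨ d = d0 := by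
      intro d
      rw [hB, mem_ins, mem_sUn]
      constructor
      · rintro (⟨y, hy, hd⟩ | hd)
        · rw [mem_img] at hy
          obtain ⟨ξ, hξ, rfl⟩ := hy
          exact Or.inl ⟨ξ, hξ, hd⟩
        · exact Or.inr hd
      · rintro (⟨ξ, hξ, hd⟩ | hd)
        · exact Or.inl ⟨_, by rw [mem_img]; exact ⟨ξ, hξ, rfl⟩, hd⟩
        · exact Or.inr hd
    have hBD : B ⊆ D := by
      intro d hd
      rcases (memB d).1 hd with ⟨ξ, hξ, hd⟩ | rfl
      · have := hf.ap_mem hξ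
        rw [mem_pow] at this
        exact this d hd
      · exact hd0
    have hBc : Ctb B := by
      have h1 : Ctb (sUn (img I (fun ξ => ap f ξ))) := ctb_union hDC hIc _ fun ξ hξ => (hfR ξ hξ).1
      -- adjoin one point
      have h2 : Ctb (sUn (img (upair (emp : M) (sing emp)) (fun i => sep B (fun d =>
          (i = emp ∧ d ∈ sUn (img I (fun ξ => ap f ξ))) ∨ (i ≠ emp ∧ d = d0))))) := by
        refine ctb_union hDC (ctb_of_fin (fin_upair _ _)) _ fun i hi => ?_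
        by_cases hi : i = emp
        · refine ctb_sub h1 fun z hz => ?_
          rw [mem_sep] at hz
          rcases hz.2 with h | h
          · exact h.2
          · exact absurd hi h.1
        · refine ctb_sub (ctb_sing d0) fun z hz => ?_
          rw [mem_sep] at hz
          rw [mem_sing]
          rcases hz.2 with h | h
          · exact absurd h.1 hi
          · exact h.2
      refine ctb_sub h2 fun z hz => ?_
      rw [mem_sUn]
      by_cases hz0 : z = d0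
      · refine ⟨_, by rw [mem_img]; exact ⟨sing emp, by simp, rfl⟩, ?_⟩
        rw [mem_sep]
        refine ⟨hz, Or.inr ⟨fun e => ?_, hz0⟩⟩
        have h3 : (emp : M) ∈ sing (emp : M) := by simp
        rw [e] at h3
        exact not_mem_emp _ h3
      · refine ⟨_, by rw [mem_img]; exact ⟨emp, by simp, rfl⟩, ?_⟩
        rw [mem_sep]
        refine ⟨hz, Or.inl ⟨rfl, ?_⟩⟩
        rw [hB, mem_ins] at hz
        exact hz.resolve_right hz0
    have hBX : B ∈ X := (memX B).2 ⟨hBD, hBc, (memB d0).2 (Or.inr rfl)⟩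
    refine ⟨B, hBX, (memG A B).2 ⟨hA, hBX, fun d hd ξ hξ hdξ => ?_⟩⟩
    have hξI : ξ ∈ I := (memI ξ).2 ⟨d, hd, hξ, hdξ⟩
    refine (hfR ξ hξI).2.mono (fun z hz => ?_)
      (h.rs_sub hα (lt_succ_of_lt (hlim ξ hξ)) (sub_trans hBD hD.1))
    obtain ⟨d', hd', rfl⟩ := mem_rs.1 hz
    exact mem_rs.2 ⟨d', (memB d').2 (Or.inl ⟨ξ, hξI, hd'⟩), rfl⟩
  obtain ⟨f, hf, hfG⟩ := hDC X G hXne hstep
  set Ds : M := sUn (img omega (fun n => ap f n)) with hDs
  have memDs : ∀ d, d ∈ Ds ↔ ∃ n, n ∈ (omega : M) ∧ d ∈ ap f n := by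
    intro d
    rw [hDs, mem_sUn]
    constructor
    · rintro ⟨y, hy, hd⟩
      rw [mem_img] at hy
      obtain ⟨n, hn, rfl⟩ := hy
      exact ⟨n, hn, hd⟩
    · rintro ⟨n, hn, hd⟩
      exact ⟨_, by rw [mem_img]; exact ⟨n, hn, rfl⟩, hd⟩
  have hfX : ∀ n, n ∈ (omega : M) → ap f n ⊆ D ∧ Ctb (ap f n) ∧ d0 ∈ ap f n := fun n hn =>
    (memX _).1 (hf.ap_mem hn)
  have hDsD : Ds ⊆ D := by
    intro d hd
    obtain ⟨n, hn, hd⟩ := (memDs d).1 hd
    exact (hfX n hn).1 d hd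
  refine ⟨Ds, hDsD, ⟨sub_trans hDsD hD.1, fun p hp => ?_⟩,
    ctb_union hDC ctb_omega _ fun n hn => (hfX n hn).2.1⟩
  have hd0s : d0 ∈ Ds := (memDs d0).2 ⟨emp, emp_mem_omega, (hfX emp emp_mem_omega).2.2⟩
  set F : M := sep α (fun ξ => ap p ξ ≠ ap o ξ ∧ ∃ d, d ∈ Ds ∧ ap d ξ ≠ ap o ξ) with hF
  have memF : ∀ ξ, ξ ∈ F ↔ ξ ∈ α ∧ ap p ξ ≠ ap o ξ ∧ ∃ d, d ∈ Ds ∧ ap d ξ ≠ ap o ξ := by
    intro ξ
    rw [hF, mem_sep]
  have hFfin : FinM F := by
    refine fin_sub (h.fin hα hp) fun ξ hξ => ?_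
    rw [mem_sep]
    exact ⟨((memF ξ).1 hξ).1, ((memF ξ).1 hξ).2.1⟩
  by_cases hFe : F = emp
  · have hres : ∀ x, x ∈ ap P α → res x emp = emp := fun x hx =>
      isSeq_emp_iff.1 ((h.seq hα hx).res (emp_sub α))
    have hle : Le (ap P emp) (ap R emp) emp emp := (h.pre emp he0).refl hempP
    have hdα := hD.1 d0 hd0
    obtain ⟨e, he1, he2⟩ := h.amalgam (e := emp) hα (h.emp_le hα) hp hdα
      (by rw [hres p hp]; exact hle) (by rw [hres d0 hdα]; exact hle) (by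
        intro β hβ _
        by_contra hcon
        push Not at hcon
        have : β ∈ F := (memF β).2 ⟨hβ, hcon.1, d0, hd0s, hcon.2⟩
        rw [hFe] at this
        exact not_mem_emp β this)
    exact ⟨d0, hd0s, e, he1, he2⟩
  · obtain ⟨ξ, hξF, hmax⟩ := fin_max (h.ord_of hα) hFfin (fun z hz => ((memF z).1 hz).1) hFe
    obtain ⟨hξα, hpξ, d1, hd1, hd1ξ⟩ := (memF ξ).1 hξF
    obtain ⟨n, hn, hd1n⟩ := (memDs d1).1 hd1
    have hpd := ((memG _ _).1 (hfG n hn)).2.2 d1 hd1n ξ hξα hd1ξ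
    have hsα := lt_succ_of_lt (hlim ξ hξα)
    obtain ⟨c, hc, e, he1, he2⟩ := hpd.2 _ (h.res_mem hα hsα hp)
    obtain ⟨d, hd, rfl⟩ := mem_rs.1 hc
    have hds : d ∈ Ds := (memDs d).2 ⟨succ n, succ_mem_omega hn, hd⟩
    obtain ⟨e', he1', he2'⟩ := h.amalgam hα hsα hp (hD.1 d (hDsD d hds)) he1 he2 (by
      intro β hβ hβξ
      by_contra hcon
      push Not at hcon
      have h1 : β ∈ F := (memF β).2 ⟨hβ, hcon.1, d, hds, hcon.2⟩
      apply hβξ
      rw [mem_succ]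
      rcases hmax β h1 with h2 | h2
      · exact Or.inr h2.symm
      · exact Or.inl h2)
    exact ⟨d, hds, e', he1', he2'⟩

/-- The iteration theorem for `ccc_3`, under dependent choice. -/
theorem Core.ccc3 (hDC : DC M) (hQ : ∀ β, β ∈ δ →
    Forced (ap P β) ((forc (ap P β) (ap R β)).ccc3 (ap Q β) (ap S β))) :
    ∀ α, Ord α → α ∈ succ δ → CCC3 (ap P α) (ap R α) := by
  apply ord_induction (fun α => α ∈ succ δ → CCC3 (ap P α) (ap R α))
  intro α hα' ih hα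
  rcases ord_zero_succ_limit hα' with ⟨β, rfl⟩ | hlim
  · have hβ : β ∈ δ := h.lt hα (mem_succ_self β)
    exact h.ccc3_succ hβ hDC (ih β (mem_succ_self β) (lt_succ_of_lt hβ)) (hQ β hβ)
  · exact h.ccc3_limit hDC hα hlim fun β hβ => ih β hβ (lt_succ_of_lt (h.lt hα hβ))

end iter

/-! ### The standard interpretation -/

theorem std_isUPair {z x y : M} : (std (M := M)).isUPair z x y ↔ z = upair x y := by
  constructor
  · intro h
    apply ext
    intro w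
    rw [mem_upair]
    exact ⟨(h w).1, (h w).2⟩
  · rintro rfl w
    exact ⟨(mem_upair x y w).1, (mem_upair x y w).2⟩

theorem std_isOPair {z x y : M} : (std (M := M)).isOPair z x y ↔ z = opair x y := by
  constructor
  · rintro ⟨a, b, h1, h2, h3⟩
    rw [std_isUPair] at h1 h2 h3
    rw [h3, h1, h2]; rfl
  · rintro rfl
    exact ⟨_, _, std_isUPair.2 rfl, std_isUPair.2 rfl, std_isUPair.2 rfl⟩

theorem std_rel {S x y : M} : (std (M := M)).rel S x y ↔ opair x y ∈ S := by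
  constructor
  · rintro ⟨z, h1, h2⟩
    rw [std_isOPair] at h1
    rw [h1] at h2; exact h2
  · intro h
    exact ⟨_, std_isOPair.2 rfl, h⟩

theorem std_isEmpty {e : M} : (std (M := M)).isEmpty e ↔ e = emp :=
  ⟨fun h => eq_emp h, by rintro rfl; exact not_mem_emp⟩

theorem std_isSucc {s x : M} : (std (M := M)).isSucc s x ↔ s = succ x := by
  constructor
  · intro h
    apply ext
    intro w
    rw [mem_succ]
    exact ⟨(h w).1, (h w).2⟩
  · rintro rfl w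
    exact ⟨(mem_succ x w).1, (mem_succ x w).2⟩

theorem std_isInductive {v : M} : (std (M := M)).isInductive v ↔ Inductive v := by
  constructor
  · rintro ⟨⟨e, he, hev⟩, h⟩
    rw [std_isEmpty] at he
    subst he
    refine ⟨hev, fun y hy => ?_⟩
    obtain ⟨s, hs, hsv⟩ := h y hy
    rw [std_isSucc] at hs
    rw [← hs]; exact hsv
  · rintro ⟨h1, h2⟩
    exact ⟨⟨emp, std_isEmpty.2 rfl, h1⟩, fun y hy => ⟨succ y, std_isSucc.2 rfl, h2 y hy⟩⟩

theorem std_isOmega {w : M} : (std (M := M)).isOmega w ↔ w = omega := by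
  constructor
  · rintro ⟨h1, h2⟩
    apply sub_antisymm
    · exact h2 omega (std_isInductive.2 inductive_omega)
    · intro x hx
      exact mem_omega.1 hx w (std_isInductive.1 h1)
  · rintro rfl
    exact ⟨std_isInductive.2 inductive_omega, fun I hI x hx => mem_omega.1 hx I (std_isInductive.1 hI)⟩

theorem std_isInjection {g c w : M} : (std (M := M)).isInjection g c w ↔ Inj g c w := by
  constructor
  · rintro ⟨h1, h2, h3, h4⟩
    refine ⟨⟨fun z hz => ?_, fun x hx => ?_⟩, fun x x' y hx hx' => ?_⟩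
    · obtain ⟨x, y, hx, hy, e⟩ := h1 z hz
      exact ⟨x, hx, y, hy, std_isOPair.1 e⟩
    · obtain ⟨y, hy, hr⟩ := h2 x hx
      exact ⟨y, std_rel.1 hr, fun y' hy' => h3 x y' y (std_rel.2 hy') hr⟩
    · exact h4 x x' y (std_rel.2 hx) (std_rel.2 hx')
  · intro h
    refine ⟨fun z hz => ?_, fun x hx => ?_, fun x y y' h1 h2 => ?_, fun x x' y h1 h2 => ?_⟩
    · obtain ⟨x, hx, y, hy, e⟩ := h.fun.1 z hz
      exact ⟨x, y, hx, hy, std_isOPair.2 e⟩
    · exact ⟨ap g x, h.fun.ap_mem hx, std_rel.2 (h.fun.opair_ap hx)⟩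
    · have e1 := h.fun.ap_eq (std_rel.1 h1)
      have e2 := h.fun.ap_eq (std_rel.1 h2)
      exact e1.symm.trans e2
    · exact h.2 x x' y (std_rel.1 h1) (std_rel.1 h2)

theorem std_countable {c : M} : (std (M := M)).countable c ↔ Ctb c := by
  constructor
  · rintro ⟨w, g, h1, h2⟩
    rw [std_isOmega] at h1
    subst h1
    exact ⟨g, std_isInjection.1 h2⟩
  · rintro ⟨g, hg⟩
    exact ⟨omega, g, std_isOmega.2 rfl, std_isInjection.2 hg⟩

theorem std_predense {P R D : M} : (std (M := M)).predense P R D ↔ PD P R D := by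
  constructor
  · rintro ⟨h1, h2⟩
    refine ⟨h1, fun x hx => ?_⟩
    obtain ⟨y, hy, r, hr, hx', hy'⟩ := h2 x hx
    exact ⟨y, hy, r, ⟨hr, hx, std_rel.1 hx'⟩, ⟨hr, h1 y hy, std_rel.1 hy'⟩⟩
  · rintro ⟨h1, h2⟩
    refine ⟨h1, fun x hx => ?_⟩
    obtain ⟨y, hy, r, hx', hy'⟩ := h2 x hx
    exact ⟨y, hy, r, hx'.1, std_rel.2 hx'.2.2, std_rel.2 hy'.2.2⟩

theorem std_ccc3 {P R : M} : (std (M := M)).ccc3 P R ↔ CCC3 P R := by
  constructor
  · intro h D hD
    obtain ⟨C, h1, h2, h3⟩ := h D (std_predense.2 hD)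
    exact ⟨C, h1, std_predense.1 h2, std_countable.1 h3⟩
  · intro h D hD
    obtain ⟨C, h1, h2, h3⟩ := h D (std_predense.1 hD)
    exact ⟨C, h1, std_predense.2 h2, std_countable.2 h3⟩

/-- Every model of ZF + DC satisfies `IT_3`. -/
theorem it3_of_dc (hDC : DC M) : IT M 2 := by
  intro δ P R Q S o N h hQ
  exact std_ccc3.2 (h.core.ccc3 hDC hQ δ h.ord (mem_succ_self δ))

end Pool.Agent.ZFIter

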