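import Pool.Agent.ZFIter.Stage
import Pool.Agent.ZFIter.Limit

/-! # The iteration of length omega

Given a sequence `F` of sets of sets of natural numbers we build the finite support iteration whose
`n`-th iterand is named by `Qn (F(n) ∪ {∅, {∅}})`. -/

set_option linter.unusedSectionVars false

universe u

namespace Pool.Agent.ZFIter

open Pool.Agent.H78.ZF

variable {M : Type u} [ZFM M] {ι : Type}

/-- The underlying set of the `n`-th iterand. -/
noncomputable def Xs (F n : M) : M := ins (ins (ap F n) emp) (sing emp)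

instance DF.Xs (F n : (ι → M) → M) [DF F] [DF n] : DF (fun v => Xs (F v) (n v)) := by
  unfold ZFIter.Xs
  infer_instance

/-- The set of labels: the trivial conditions of all finite lengths. -/
noncomputable def Lw : M := img omega (fun k => mkseq k (fun _ => emp))

/-- The set of names for the elements of `Q`. -/
noncomputable def NN (P R Q : M) : M :=
  sep (pow (prod (img omega (fun n => chkn Lw n)) (un P Lw))) (fun x => ∀ p, p ∈ P → FMem P R p x Q)

instance DF.NN (P R Q : (ι → M) → M) [DF P] [DF R] [DF Q] :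
    DF (fun v => NN (P v) (R v) (Q v)) := by
  unfold ZFIter.NN
  infer_instance

theorem mem_NN {P R Q x : M} : x ∈ NN P R Q ↔
    x ⊆ prod (img omega (fun n => chkn Lw n)) (un P Lw) ∧ ∀ p, p ∈ P → FMem P R p x Q := by
  unfold NN
  rw [mem_sep, mem_pow]

/-- The conditions of length `k + 1`. -/
noncomputable def stP (k P N : M) : M := img (prod P N) (fun w => ins (fst w) (opair k (snd w)))

instance DF.stP (k P N : (ι → M) → M) [DF k] [DF P] [DF N] :
    DF (fun v => stP (k v) (P v) (N v)) := by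
  unfold ZFIter.stP
  infer_instance

theorem mem_stP {k P N p : M} : p ∈ stP k P N ↔ ∃ q x, q ∈ P ∧ x ∈ N ∧ p = ins q (opair k x) := by
  unfold stP
  rw [mem_img]
  constructor
  · rintro ⟨w, hw, rfl⟩
    rw [mem_prod] at hw
    obtain ⟨q, hq, x, hx, rfl⟩ := hw
    exact ⟨q, x, hq, hx, by rw [fst_opair, snd_opair]⟩
  · rintro ⟨q, x, hq, hx, rfl⟩
    exact ⟨opair q x, by simp [hq, hx], by rw [fst_opair, snd_opair]⟩

/-- The order on the conditions of length `k + 1`. -/
noncomputable def stR (k P R S P' : M) : M :=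
  sep (prod P' P') (fun w => opair (res (fst w) k) (res (snd w) k) ∈ R ∧
    (forc P R).rel S (ap (fst w) k) (ap (snd w) k) (res (fst w) k))

instance DF.stR (k P R S P' : (ι → M) → M) [DF k] [DF P] [DF R] [DF S] [DF P'] :
    DF (fun v => stR (k v) (P v) (R v) (S v) (P' v)) := by
  unfold ZFIter.stR
  infer_instance

theorem mem_stR {k P R S P' z : M} : z ∈ stR k P R S P' ↔ ∃ q p, z = opair q p ∧ q ∈ P' ∧ p ∈ P' ∧
    opair (res q k) (res p k) ∈ R ∧ (forc P R).rel S (ap q k) (ap p k) (res q k) := by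
  unfold stR
  rw [mem_sep, mem_prod]
  constructor
  · rintro ⟨⟨q, hq, p, hp, rfl⟩, h⟩
    rw [fst_opair, snd_opair] at h
    exact ⟨q, p, rfl, hq, hp, h⟩
  · rintro ⟨q, p, rfl, hq, hp, h⟩
    refine ⟨⟨q, hq, p, hp, rfl⟩, ?_⟩
    rw [fst_opair, snd_opair]
    exact h

/-- One step of the construction. -/
noncomputable def stepF (F z : M) : M :=
  opair (succ (fst z)) (opair
    (stP (fst z) (fst (snd z)) (NN (fst (snd z)) (snd (snd z)) (Qn Lw (Xs F (fst z)))))
    (stR (fst z) (fst (snd z)) (snd (snd z)) (Sn Lw (Xs F (fst z)))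
      (stP (fst z) (fst (snd z)) (NN (fst (snd z)) (snd (snd z)) (Qn Lw (Xs F (fst z)))))))

instance DF.stepF (F z : (ι → M) → M) [DF F] [DF z] : DF (fun v => stepF (F v) (z v)) := by
  unfold ZFIter.stepF
  infer_instance

/-- The recursion. -/
noncomputable def stF (F n : M) : M :=
  recc (fun z => stepF F z) (opair emp (opair (sing emp) (sing (opair emp emp)))) n

instance DF.stF (F n : (ι → M) → M) [DF F] [DF n] : DF (fun v => stF (F v) (n v)) := by
  unfold ZFIter.stF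
  infer_instance

/-- The `n`-th forcing notion. -/
noncomputable def PF (F n : M) : M := fst (snd (stF F n))

/-- Its order. -/
noncomputable def RF (F n : M) : M := snd (snd (stF F n))

instance DF.PF (F n : (ι → M) → M) [DF F] [DF n] : DF (fun v => PF (F v) (n v)) := by
  unfold ZFIter.PF
  infer_instance

instance DF.RF (F n : (ι → M) → M) [DF F] [DF n] : DF (fun v => RF (F v) (n v)) := by
  unfold ZFIter.RF
  infer_instance

/-- The set of names used at stage `n`. -/
noncomputable def NF (F n : M) : M := NN (PF F n) (RF F n) (Qn Lw (Xs F n))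

instance DF.NF (F n : (ι → M) → M) [DF F] [DF n] : DF (fun v => NF (F v) (n v)) := by
  unfold ZFIter.NF
  infer_instance

section basics

variable {F n : M}

theorem stF_fst : ∀ n, n ∈ (omega : M) → fst (stF F n) = n := by
  apply omega_induction (fun n => fst (stF F n) = n)
  · unfold stF
    rw [recc_zero, fst_opair]
  · intro n hn ih
    have : stF F (succ n) = stepF F (stF F n) := by
      unfold stF
      rw [recc_succ hn]
    rw [this]
    unfold stepF
    rw [fst_opair, ih]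

theorem PF_zero : PF F emp = sing emp := by
  unfold PF stF
  rw [recc_zero, snd_opair, fst_opair]

theorem RF_zero : RF F emp = sing (opair emp emp) := by
  unfold RF stF
  rw [recc_zero, snd_opair, snd_opair]

theorem stF_succ (hn : n ∈ (omega : M)) : stF F (succ n) = opair (succ n) (opair
    (stP n (PF F n) (NF F n)) (stR n (PF F n) (RF F n) (Sn Lw (Xs F n)) (stP n (PF F n) (NF F n)))) := by
  have : stF F (succ n) = stepF F (stF F n) := by
    unfold stF
    rw [recc_succ hn]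
  rw [this]
  unfold stepF
  rw [stF_fst n hn]
  rfl

theorem PF_succ (hn : n ∈ (omega : M)) : PF F (succ n) = stP n (PF F n) (NF F n) := by
  conv_lhs => unfold PF
  rw [stF_succ hn, snd_opair, fst_opair]

theorem RF_succ (hn : n ∈ (omega : M)) :
    RF F (succ n) = stR n (PF F n) (RF F n) (Sn Lw (Xs F n)) (PF F (succ n)) := by
  rw [PF_succ hn]
  conv_lhs => unfold RF
  rw [stF_succ hn, snd_opair, snd_opair]

theorem isSeq_ins {q x : M} (hq : IsSeq q n) : IsSeq (ins q (opair n x)) (succ n) ∧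
    (∀ k, k ∈ n → ap (ins q (opair n x)) k = ap q k) ∧ ap (ins q (opair n x)) n = x := by
  have key : ∀ k y, opair k y ∈ ins q (opair n x) ↔ (k ∈ n ∧ y = ap q k) ∨ (k = n ∧ y = x) := by
    intro k y
    rw [mem_ins, hq.opair_iff, opair_eq_iff]
  have hs : IsSeq (ins q (opair n x)) (succ n) := by
    constructor
    · intro z hz
      rw [mem_ins] at hz
      rcases hz with hz | rfl
      · obtain ⟨k, hk, y, rfl⟩ := hq.1 z hz
        exact ⟨k, by rw [mem_succ]; exact Or.inl hk, y, rfl⟩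
      · exact ⟨n, by simp, x, rfl⟩
    · intro k hk
      rw [mem_succ] at hk
      rcases hk with hk | rfl
      · refine ⟨ap q k, (key _ _).2 (Or.inl ⟨hk, rfl⟩), fun y hy => ?_⟩
        rcases (key _ _).1 hy with h | h
        · exact h.2
        · rw [h.1] at hk; exact absurd hk (not_mem_self _)
      · refine ⟨x, (key _ _).2 (Or.inr ⟨rfl, rfl⟩), fun y hy => ?_⟩
        rcases (key _ _).1 hy with h | h
        · exact absurd h.1 (not_mem_self _)
        · exact h.2
  exact ⟨hs, fun k hk => hs.ap_eq ((key _ _).2 (Or.inl ⟨hk, rfl⟩)),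
    hs.ap_eq ((key _ _).2 (Or.inr ⟨rfl, rfl⟩))⟩

theorem mem_PF : ∀ n, n ∈ (omega : M) → ∀ p, p ∈ PF F n ↔
    IsSeq p n ∧ ∀ k, k ∈ n → ap p k ∈ NF F k := by
  apply omega_induction (fun n => ∀ p, p ∈ PF F n ↔ IsSeq p n ∧ ∀ k, k ∈ n → ap p k ∈ NF F k)
  · intro p
    rw [PF_zero, mem_sing, isSeq_emp_iff]
    exact ⟨fun h => ⟨h, fun k hk => absurd hk (not_mem_emp k)⟩, fun h => h.1⟩
  · intro n hn ih p
    rw [PF_succ hn, mem_stP]
    constructor
    · rintro ⟨q, x, hq, hx, rfl⟩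
      rw [ih] at hq
      obtain ⟨h1, h2, h3⟩ := isSeq_ins (x := x) hq.1
      refine ⟨h1, fun k hk => ?_⟩
      rw [mem_succ] at hk
      rcases hk with hk | rfl
      · rw [h2 k hk]; exact hq.2 k hk
      · rw [h3]; exact hx
    · rintro ⟨h1, h2⟩
      have hsub : n ⊆ succ n := fun z hz => by rw [mem_succ]; exact Or.inl hz
      refine ⟨res p n, ap p n, (ih _).2 ⟨h1.res hsub, fun k hk => ?_⟩, h2 n (by simp), ?_⟩
      · rw [ap_res h1 hsub hk]
        exact h2 k (hsub k hk)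
      · obtain ⟨h3, h4, h5⟩ := isSeq_ins (x := ap p n) (h1.res hsub)
        refine h1.ext h3 fun k hk => ?_
        rw [mem_succ] at hk
        rcases hk with hk | rfl
        · rw [h4 k hk, ap_res h1 hsub hk]
        · rw [h5]

theorem mem_RF : ∀ n, n ∈ (omega : M) → ∀ z, z ∈ RF F n ↔
    ∃ q p, z = opair q p ∧ q ∈ PF F n ∧ p ∈ PF F n ∧
    ∀ k, k ∈ n → (forc (PF F k) (RF F k)).rel (Sn Lw (Xs F k)) (ap q k) (ap p k) (res q k) := by
  apply omega_induction (fun n => ∀ z, z ∈ RF F n ↔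
    ∃ q p, z = opair q p ∧ q ∈ PF F n ∧ p ∈ PF F n ∧
    ∀ k, k ∈ n → (forc (PF F k) (RF F k)).rel (Sn Lw (Xs F k)) (ap q k) (ap p k) (res q k))
  · intro z
    rw [RF_zero, mem_sing, PF_zero]
    constructor
    · rintro rfl
      exact ⟨emp, emp, rfl, by simp, by simp, fun k hk => absurd hk (not_mem_emp k)⟩
    · rintro ⟨q, p, rfl, hq, hp, _⟩
      rw [mem_sing] at hq hp
      rw [hq, hp]
  · intro n hn ih z
    have hsub : n ⊆ succ n := fun z hz => by rw [mem_succ]; exact Or.inl hz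
    rw [RF_succ hn, mem_stR]
    constructor
    · rintro ⟨q, p, rfl, hq, hp, h1, h2⟩
      refine ⟨q, p, rfl, hq, hp, fun k hk => ?_⟩
      have hqs := ((mem_PF _ (succ_mem_omega hn) q).1 hq).1
      have hps := ((mem_PF _ (succ_mem_omega hn) p).1 hp).1
      rw [mem_succ] at hk
      rcases hk with hk | rfl
      · obtain ⟨q', p', e, _, _, h3⟩ := (ih _).1 h1
        obtain ⟨rfl, rfl⟩ := Pool.Agent.H78.ZF.opair_inj e
        have h4 := h3 k hk
        rw [ap_res hqs hsub hk, ap_res hps hsub hk, res_res (omega_trans hn k hk)] at h4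
        exact h4
      · exact h2
    · rintro ⟨q, p, rfl, hq, hp, h1⟩
      have hqs := (mem_PF _ (succ_mem_omega hn) q).1 hq
      have hps := (mem_PF _ (succ_mem_omega hn) p).1 hp
      refine ⟨q, p, rfl, hq, hp, (ih _).2 ⟨res q n, res p n, rfl, ?_, ?_, fun k hk => ?_⟩,
        h1 n (by simp)⟩
      · rw [mem_PF n hn]
        exact ⟨hqs.1.res hsub, fun k hk => by rw [ap_res hqs.1 hsub hk]; exact hqs.2 k (hsub k hk)⟩
      · rw [mem_PF n hn]
        exact ⟨hps.1.res hsub, fun k hk => by rw [ap_res hps.1 hsub hk]; exact hps.2 k (hsub k hk)⟩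
      · rw [ap_res hqs.1 hsub hk, ap_res hps.1 hsub hk, res_res (omega_trans hn k hk)]
        exact h1 k (hsub k hk)

end basics

/-! ### Length omega -/

/-- The conditions of length `omega`. -/
noncomputable def PW (F : M) : M :=
  sep (pow (prod omega (sUn (img omega (fun n => NF F n))))) (fun p => IsSeq p omega ∧
    (∀ k, k ∈ (omega : M) → ap p k ∈ NF F k) ∧ FinM (sep omega (fun k => ap p k ≠ emp)))

/-- Their order. -/
noncomputable def RW (F : M) : M :=
  sep (prod (PW F) (PW F)) (fun w => ∀ k, k ∈ (omega : M) →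
    (forc (PF F k) (RF F k)).rel (Sn Lw (Xs F k)) (ap (fst w) k) (ap (snd w) k) (res (fst w) k))

instance DF.PW (F : (ι → M) → M) [DF F] : DF (fun v => PW (F v)) := by
  unfold ZFIter.PW
  infer_instance

instance DF.RW (F : (ι → M) → M) [DF F] : DF (fun v => RW (F v)) := by
  unfold ZFIter.RW
  infer_instance

/-- The sequence of forcing notions. -/
noncomputable def Ps (F : M) : M :=
  mkseq (succ omega) (fun α => iota (fun y => (α ∈ (omega : M) ∧ y = PF F α) ∨
    (α ∉ (omega : M) ∧ y = PW F)))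

/-- The sequence of orders. -/
noncomputable def Rs (F : M) : M :=
  mkseq (succ omega) (fun α => iota (fun y => (α ∈ (omega : M) ∧ y = RF F α) ∨
    (α ∉ (omega : M) ∧ y = RW F)))

/-- The sequences of names. -/
noncomputable def Qs (F : M) : M := mkseq omega (fun n => Qn Lw (Xs F n))
noncomputable def Ss (F : M) : M := mkseq omega (fun n => Sn Lw (Xs F n))
noncomputable def os : M := mkseq omega (fun _ => emp)
noncomputable def Ns (F : M) : M := mkseq omega (fun n => NF F n)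

section seqs

variable {F n : M}

theorem ap_Ps (hn : n ∈ (omega : M)) : ap (Ps F) n = PF F n := by
  unfold Ps
  rw [ap_mkseq (by rw [mem_succ]; exact Or.inl hn)]
  apply iota_eq
  · exact Or.inl ⟨hn, rfl⟩
  · rintro x (⟨_, rfl⟩ | ⟨h, _⟩)
    · rfl
    · exact absurd hn h

theorem ap_Ps_omega : ap (Ps F) omega = PW F := by
  unfold Ps
  rw [ap_mkseq (by simp)]
  apply iota_eq
  · exact Or.inr ⟨not_mem_self _, rfl⟩
  · rintro x (⟨h, _⟩ | ⟨_, rfl⟩)
    · exact absurd h (not_mem_self _)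
    · rfl

theorem ap_Rs (hn : n ∈ (omega : M)) : ap (Rs F) n = RF F n := by
  unfold Rs
  rw [ap_mkseq (by rw [mem_succ]; exact Or.inl hn)]
  apply iota_eq
  · exact Or.inl ⟨hn, rfl⟩
  · rintro x (⟨_, rfl⟩ | ⟨h, _⟩)
    · rfl
    · exact absurd hn h

theorem ap_Rs_omega : ap (Rs F) omega = RW F := by
  unfold Rs
  rw [ap_mkseq (by simp)]
  apply iota_eq
  · exact Or.inr ⟨not_mem_self _, rfl⟩
  · rintro x (⟨h, _⟩ | ⟨_, rfl⟩)
    · exact absurd h (not_mem_self _)
    · rfl

theorem ap_Qs (hn : n ∈ (omega : M)) : ap (Qs F) n = Qn Lw (Xs F n) := by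
  unfold Qs
  rw [ap_mkseq hn]

theorem ap_Ss (hn : n ∈ (omega : M)) : ap (Ss F) n = Sn Lw (Xs F n) := by
  unfold Ss
  rw [ap_mkseq hn]

theorem ap_os (hn : n ∈ (omega : M)) : ap (os : M) n = emp := by
  unfold os
  rw [ap_mkseq hn]

theorem ap_Ns (hn : n ∈ (omega : M)) : ap (Ns F) n = NF F n := by
  unfold Ns
  rw [ap_mkseq hn]

theorem cond_Ps {α : M} (hα : α ∈ succ (omega : M)) (p : M) : p ∈ ap (Ps F) α ↔
    IsSeq p α ∧ (∀ β, β ∈ α → ap p β ∈ ap (Ns F) β) ∧
      FinM (sep α (fun β => ap p β ≠ ap (os : M) β)) := by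
  rw [mem_succ] at hα
  rcases hα with hα | rfl
  · rw [ap_Ps hα, mem_PF α hα]
    constructor
    · rintro ⟨h1, h2⟩
      refine ⟨h1, fun k hk => ?_, fin_sub (nat_fin hα) fun k hk => ?_⟩
      · rw [ap_Ns (mem_omega_of_mem hk hα)]; exact h2 k hk
      · rw [mem_sep] at hk; exact hk.1
    · rintro ⟨h1, h2, _⟩
      refine ⟨h1, fun k hk => ?_⟩
      have := h2 k hk
      rwa [ap_Ns (mem_omega_of_mem hk hα)] at this
  · rw [ap_Ps_omega]
    unfold PW
    rw [mem_sep, mem_pow]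
    constructor
    · rintro ⟨_, h1, h2, h3⟩
      refine ⟨h1, fun k hk => ?_, fin_sub h3 fun k hk => ?_⟩
      · rw [ap_Ns hk]; exact h2 k hk
      · rw [mem_sep] at hk ⊢
        rw [ap_os hk.1] at hk
        exact hk
    · rintro ⟨h1, h2, h3⟩
      refine ⟨?_, h1, fun k hk => ?_, fin_sub h3 fun k hk => ?_⟩
      · intro z hz
        obtain ⟨k, hk, y, rfl⟩ := h1.1 z hz
        rw [opair_mem_prod, mem_sUn]
        refine ⟨hk, NF F k, by rw [mem_img]; exact ⟨k, hk, rfl⟩, ?_⟩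
        rw [← h1.ap_eq hz, ← ap_Ns hk]
        exact h2 k hk
      · rw [← ap_Ns hk]; exact h2 k hk
      · rw [mem_sep] at hk ⊢
        rw [ap_os hk.1]
        exact hk

theorem order_Rs {α : M} (hα : α ∈ succ (omega : M)) (z : M) : z ∈ ap (Rs F) α ↔
    ∃ q p, z = opair q p ∧ q ∈ ap (Ps F) α ∧ p ∈ ap (Ps F) α ∧
    ∀ β, β ∈ α → (forc (ap (Ps F) β) (ap (Rs F) β)).rel (ap (Ss F) β) (ap q β) (ap p β)
      (res q β) := by
  rw [mem_succ] at hα
  rcases hα with hα | rfl
  · rw [ap_Rs hα, ap_Ps hα, mem_RF α hα]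
    have key : ∀ q p, (∀ β, β ∈ α → (forc (ap (Ps F) β) (ap (Rs F) β)).rel (ap (Ss F) β)
        (ap q β) (ap p β) (res q β)) ↔ ∀ k, k ∈ α → (forc (PF F k) (RF F k)).rel (Sn Lw (Xs F k))
        (ap q k) (ap p k) (res q k) := by
      intro q p
      constructor
      · intro h k hk
        have hkω := mem_omega_of_mem hk hα
        have := h k hk
        rwa [ap_Ps hkω, ap_Rs hkω, ap_Ss hkω] at this
      · intro h k hk
        have hkω := mem_omega_of_mem hk hα
        rw [ap_Ps hkω, ap_Rs hkω, ap_Ss hkω]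
        exact h k hk
    simp only [key]
  · rw [ap_Rs_omega, ap_Ps_omega]
    have key : ∀ q p, (∀ β, β ∈ (omega : M) → (forc (ap (Ps F) β) (ap (Rs F) β)).rel
        (ap (Ss F) β) (ap q β) (ap p β) (res q β)) ↔ ∀ k, k ∈ (omega : M) →
        (forc (PF F k) (RF F k)).rel (Sn Lw (Xs F k)) (ap q k) (ap p k) (res q k) := by
      intro q p
      constructor
      · intro h k hk
        have := h k hk
        rwa [ap_Ps hk, ap_Rs hk, ap_Ss hk] at this
      · intro h k hk
        rw [ap_Ps hk, ap_Rs hk, ap_Ss hk]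
        exact h k hk
    simp only [key]
    unfold RW
    rw [mem_sep, mem_prod]
    constructor
    · rintro ⟨⟨q, hq, p, hp, rfl⟩, h⟩
      rw [fst_opair, snd_opair] at h
      exact ⟨q, p, rfl, hq, hp, h⟩
    · rintro ⟨q, p, rfl, hq, hp, h⟩
      refine ⟨⟨q, hq, p, hp, rfl⟩, ?_⟩
      rw [fst_opair, snd_opair]
      exact h

end seqs

/-! ### The stages are forcing notions -/

/-- The hypotheses on the sequence `F`. -/
structure GoodSeq (F : M) : Prop where
  sub : ∀ n, n ∈ (omega : M) → ∀ s, s ∈ ap F n → s ⊆ omega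
  ctb : ∀ n, n ∈ (omega : M) → Ctb (ap F n)

section stages

variable {F : M} (hF : GoodSeq F)

include hF

theorem GoodSeq.Xs_sub {n : M} (hn : n ∈ (omega : M)) : ∀ s, s ∈ Xs F n → s ⊆ omega := by
  intro s hs
  unfold Xs at hs
  rw [mem_ins, mem_ins] at hs
  rcases hs with (hs | rfl) | rfl
  · exact hF.sub n hn s hs
  · exact emp_sub _
  · intro z hz
    rw [mem_sing] at hz
    rw [hz]
    exact emp_mem_omega

omit hF in
theorem emp_mem_Xs {n : M} : emp ∈ Xs F n := by
  unfold Xs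
  rw [mem_ins, mem_ins]
  exact Or.inl (Or.inr rfl)

omit hF in
theorem one_mem_Xs {n : M} : sing emp ∈ Xs F n := by
  unfold Xs
  rw [mem_ins]
  exact Or.inr rfl

omit hF in
theorem mem_Xs_of {n s : M} (hs : s ∈ ap F n) : s ∈ Xs F n := by
  unfold Xs
  rw [mem_ins, mem_ins]
  exact Or.inl (Or.inl hs)

omit hF in
theorem ctb_ins {a x : M} (h : Ctb a) : Ctb (ins a x) := by
  -- shift an injection of `a` by one
  obtain ⟨f, hf⟩ := h
  by_cases hx : x ∈ a
  · rw [ins_eq_self hx]; exact ⟨f, hf⟩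
  set G : M → M := fun y => iota (fun n => (y ∈ a ∧ n = succ (ap f y)) ∨ (y ∉ a ∧ n = emp)) with hG
  have hF1 : F1 G := by rw [hG]; infer_instance
  have h1 : ∀ y, y ∈ a → G y = succ (ap f y) := fun y hy => iota_eq (Or.inl ⟨hy, rfl⟩) (by
    rintro z (⟨_, e⟩ | ⟨h, _⟩)
    · exact e
    · exact absurd hy h)
  have h2 : ∀ y, y ∉ a → G y = emp := fun y hy => iota_eq (Or.inr ⟨hy, rfl⟩) (by
    rintro z (⟨h, _⟩ | ⟨_, e⟩)
    · exact absurd h hy
    · exact e)
  have hval : ∀ y, y ∈ ins a x → G y ∈ (omega : M) := by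
    intro y _
    by_cases hy : y ∈ a
    · rw [h1 y hy]; exact succ_mem_omega (hf.fun.ap_mem hy)
    · rw [h2 y hy]; exact emp_mem_omega
  refine ⟨mkf (ins a x) omega G, ?_⟩
  rw [inj_iff]
  refine ⟨mkf_fun hval, fun y y' hy hy' e => ?_⟩
  rw [ap_mkf hval hy, ap_mkf hval hy'] at e
  by_cases h3 : y ∈ a
  · rw [h1 y h3] at e
    by_cases h4 : y' ∈ a
    · rw [h1 y' h4] at e
      exact hf.ap_inj h3 h4 (succ_inj (hf.fun.ap_mem h3) (hf.fun.ap_mem h4) e)
    · rw [h2 y' h4] at e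
      exact absurd e (succ_ne_emp _)
  · rw [h2 y h3] at e
    by_cases h4 : y' ∈ a
    · rw [h1 y' h4] at e
      exact absurd e.symm (succ_ne_emp _)
    · rw [mem_ins] at hy hy'
      rw [hy.resolve_left h3, hy'.resolve_left h4]

theorem GoodSeq.Xs_ctb {n : M} (hn : n ∈ (omega : M)) : Ctb (Xs F n) :=
  ctb_ins (ctb_ins (hF.ctb n hn))

omit hF in
/-- If a name is forced to be in `Qn X`, it is forced equal to a nice name. -/
theorem NN_full {P R L X x : M} [Pre P R] (hL : Lab P R L) (hX : ∀ s, s ∈ X → s ⊆ omega)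
    (hx : ∀ p, p ∈ P → FMem P R p x (Qn L X)) :
    ∃ y, y ⊆ prod (img omega (fun n => chkn L n)) P ∧ ∀ p, FEq P R p x y := by
  set y : M := sep (prod (img omega (fun n => chkn L n)) P) (fun w => FMem P R (snd w) (fst w) x)
    with hy
  have memy : ∀ z t, opair z t ∈ y ↔ (∃ n, n ∈ (omega : M) ∧ z = chkn L n) ∧ t ∈ P ∧
      FMem P R t z x := by
    intro z t
    rw [hy, mem_sep, opair_mem_prod, mem_img, fst_opair, snd_opair, and_assoc]
  refine ⟨y, fun z hz => ?_, fun p => ?_⟩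
  · rw [hy, mem_sep] at hz
    exact hz.1
  · apply feq_ext
    · intro q z hq hm
      refine fmem_dense fun q' hq' => ?_
      obtain ⟨r, hr, s, hs, hE⟩ := (fmem_Qn hL).1 (hx q' hq'.memL) q' (Pre.refl hq'.memL)
      have h1 : FMem P R r z (tau L s) := fmem_congrR hE (fmem_mono hm (Pre.trans hr hq'))
      obtain ⟨r', hr', n, hn, hE'⟩ := (fmem_tau hL).1 h1 r (Pre.refl hr.memL)
      refine ⟨r', Pre.trans hr' hr, ?_⟩
      have h2 : FMem P R r' (chkn L n) x :=
        fmem_congrL hE' (fmem_mono hm (Pre.trans hr' (Pre.trans hr hq')))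
      exact fmem_congrL (feq_symm hE') (fmem_of ((memy _ _).2 ⟨⟨n, hX s hs n hn, rfl⟩,
        hr'.memL, h2⟩) (Pre.refl hr'.memL))
    · intro q z hq hm
      refine fmem_dense fun q' hq' => ?_
      obtain ⟨r, hr, w, t, hw, ht, hE⟩ := hm q' hq'
      obtain ⟨_, _, h1⟩ := (memy _ _).1 hw
      exact ⟨r, hr, fmem_congrL (feq_symm hE) (fmem_mono h1 ht)⟩

theorem GoodSeq.core_of {α : M} (hα : α ∈ succ (omega : M))
    (hG : ∀ k, k ∈ α → Pre (ap (Ps F) k) (ap (Rs F) k) ∧ Lab (ap (Ps F) k) (ap (Rs F) k) Lw) :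
    Core α (Ps F) (Rs F) (Qs F) (Ss F) os (Ns F) := by
  have hαω : α ⊆ omega := by
    rw [mem_succ] at hα
    rcases hα with hα | rfl
    · exact omega_sub hα
    · exact sub_refl _
  refine ⟨?_, ?_, ?_, ?_, ?_, ?_, ?_⟩
  · exact ord_omega.succ.mem hα
  · intro k hk p _
    obtain ⟨h1, h2⟩ := hG k hk
    rw [ap_Qs (hαω k hk), ap_Ss (hαω k hk), ap_os (hαω k hk)]
    exact isForcing_Qn h2 (hF.Xs_sub (hαω k hk)) emp_mem_Xs p
  · intro k hk
    obtain ⟨h1, h2⟩ := hG k hk
    have hkω := hαω k hk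
    rw [ap_Ps hkω, ap_Rs hkω] at h1 h2
    rw [ap_os hkω, ap_Ns hkω]
    unfold NF
    rw [mem_NN]
    refine ⟨emp_sub _, fun p _ => ?_⟩
    have := fmem_Qn_of (P := PF F k) (R := RF F k) (p := p) (X := Xs F k) h2 emp_mem_Xs
    rw [tau_emp] at this
    exact this
  · intro k hk x hx p hp
    have hkω := hαω k hk
    rw [ap_Ns hkω] at hx
    unfold NF at hx
    rw [mem_NN] at hx
    rw [ap_Ps hkω] at hp
    rw [ap_Ps hkω, ap_Rs hkω, ap_Qs hkω]
    exact hx.2 p hp
  · intro k hk x hx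
    obtain ⟨h1, h2⟩ := hG k hk
    have hkω := hαω k hk
    rw [ap_Ps hkω, ap_Rs hkω] at h1 h2
    rw [ap_Ps hkω, ap_Rs hkω, ap_Qs hkω] at hx
    rw [ap_Ps hkω, ap_Rs hkω, ap_Ns hkω]
    obtain ⟨y, hy, hE⟩ := NN_full h2 (hF.Xs_sub hkω) hx
    refine ⟨y, ?_, fun p _ => hE p⟩
    unfold NF
    rw [mem_NN]
    refine ⟨fun z hz => ?_, fun p hp => fmem_congrL (hE p) (hx p hp)⟩
    have := hy z hz
    rw [mem_prod] at this ⊢
    obtain ⟨a, ha, b, hb, e⟩ := this
    exact ⟨a, ha, b, by rw [mem_un]; exact Or.inl hb, e⟩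
  · intro β hβ p
    refine cond_Ps ?_ p
    rw [mem_succ] at hβ hα ⊢
    rcases hβ with hβ | rfl
    · exact Or.inl (hαω β hβ)
    · exact hα
  · intro β hβ z
    refine order_Rs ?_ z
    rw [mem_succ] at hβ hα ⊢
    rcases hβ with hβ | rfl
    · exact Or.inl (hαω β hβ)
    · exact hα

omit hF in
/-- The trivial condition. -/
theorem top_mem_of {α : M} (h : Core α (Ps F) (Rs F) (Qs F) (Ss F) os (Ns F))
    (hαω : α ⊆ omega) : mkseq α (fun _ => emp) ∈ ap (Ps F) α := by
  rw [h.cond α (mem_succ_self α)]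
  refine ⟨isSeq_mkseq, fun β hβ => ?_, fin_sub fin_emp fun β hβ => ?_⟩
  · rw [ap_mkseq hβ]
    have := h.top_mem β hβ
    rwa [ap_os (hαω β hβ)] at this
  · rw [mem_sep] at hβ
    have h1 := hβ.2
    rw [ap_mkseq hβ.1, ap_os (hαω β hβ.1)] at h1
    exact absurd rfl h1

theorem GoodSeq.good : ∀ n, n ∈ (omega : M) →
    Pre (ap (Ps F) n) (ap (Rs F) n) ∧ Lab (ap (Ps F) n) (ap (Rs F) n) Lw := by
  have key : ∀ n, n ∈ (omega : M) → (∀ p, p ∈ ap (Ps F) n → Le (ap (Ps F) n) (ap (Rs F) n) p p) ∧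
      (∀ r q p, Le (ap (Ps F) n) (ap (Rs F) n) r q → Le (ap (Ps F) n) (ap (Rs F) n) q p →
        Le (ap (Ps F) n) (ap (Rs F) n) r p) ∧
      ∀ p, p ∈ ap (Ps F) n → ∃ t, t ∈ (Lw : M) ∧ Le (ap (Ps F) n) (ap (Rs F) n) p t := by
    apply ord_nat_induction (fun n => (∀ p, p ∈ ap (Ps F) n → Le (ap (Ps F) n) (ap (Rs F) n) p p) ∧
      (∀ r q p, Le (ap (Ps F) n) (ap (Rs F) n) r q → Le (ap (Ps F) n) (ap (Rs F) n) q p →
        Le (ap (Ps F) n) (ap (Rs F) n) r p) ∧
      ∀ p, p ∈ ap (Ps F) n → ∃ t, t ∈ (Lw : M) ∧ Le (ap (Ps F) n) (ap (Rs F) n) p t)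
    intro n hn ih
    have hc : Core n (Ps F) (Rs F) (Qs F) (Ss F) os (Ns F) := hF.core_of
      (by rw [mem_succ]; exact Or.inl hn) fun k hk =>
        ⟨⟨fun hp => (ih k hk).1 _ hp, fun h1 h2 => (ih k hk).2.1 _ _ _ h1 h2⟩, (ih k hk).2.2⟩
    have hpre := hc.pre n (mem_succ_self n)
    refine ⟨fun p hp => hpre.refl hp, fun r q p h1 h2 => hpre.trans h1 h2, fun p hp => ?_⟩
    have ht := top_mem_of hc (omega_sub hn)
    refine ⟨mkseq n (fun _ => emp), ?_, ?_⟩
    · unfold Lw
      rw [mem_img]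
      exact ⟨n, hn, rfl⟩
    · rw [hc.le_iff (mem_succ_self n)]
      refine ⟨hp, ht, fun β hβ => ?_⟩
      have := hc.pre_lt hβ
      have hr := hc.res_mem (mem_succ_self n) (lt_succ_of_lt hβ) hp
      rw [ap_mkseq hβ]
      have h1 := fforcing_top (hc.forcing β hβ _ hr) (Pre.refl hr)
        (hc.names β hβ _ (hc.ap_mem (mem_succ_self n) hp hβ) _ hr)
      rwa [ap_os (omega_sub hn β hβ)] at h1
  intro n hn
  have := key n hn
  exact ⟨⟨fun hp => this.1 _ hp, fun h1 h2 => this.2.1 _ _ _ h1 h2⟩, this.2.2⟩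

theorem GoodSeq.core : Core omega (Ps F) (Rs F) (Qs F) (Ss F) os (Ns F) :=
  hF.core_of (mem_succ_self _) fun k hk => hF.good k hk

theorem GoodSeq.iteration : IsIteration omega (Ps F) (Rs F) (Qs F) (Ss F) os (Ns F) :=
  { ord := hF.core.ord
    seqP := isSeq_mkseq
    seqR := isSeq_mkseq
    seqQ := isSeq_mkseq
    seqS := isSeq_mkseq
    seqo := isSeq_mkseq
    seqN := isSeq_mkseq
    forcing := hF.core.forcing
    top_mem := hF.core.top_mem
    names := hF.core.names
    full := hF.core.full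
    cond := hF.core.cond
    order := hF.core.order }

theorem GoodSeq.ccc (i : Fin 3) : ∀ β, β ∈ (omega : M) → Forced (ap (Ps F) β)
    ((forc (ap (Ps F) β) (ap (Rs F) β)).ccc i (ap (Qs F) β) (ap (Ss F) β)) := by
  intro β hβ p _
  obtain ⟨h1, h2⟩ := hF.good β hβ
  rw [ap_Qs hβ, ap_Ss hβ]
  exact ccc_Qn h2 (hF.Xs_sub hβ) (hF.Xs_ctb hβ) i p

end stages

end Pool.Agent.ZFIter
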