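import Pool.Agent.ZFIter.Build

/-! # Failure of the iteration theorems when countable choice fails badly -/

set_option linter.unusedSectionVars false

universe u

namespace Pool.Agent.ZFIter

open Pool.Agent.H78.ZF

variable {M : Type u} [ZFM M] {ι : Type}

/-- A sequence of nonempty countable sets of sets of natural numbers without a choice function. -/
structure BadSeq (F : M) : Prop extends GoodSeq F where
  ne : ∀ n, n ∈ (omega : M) → ∃ s, s ∈ ap F n
  big : ∀ n, n ∈ (omega : M) → ∀ s, s ∈ ap F n → ∃ k, k ∈ s ∧ k ≠ emp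
  nochoice : ¬ ∃ f, IsSeq f omega ∧ ∀ n, n ∈ (omega : M) → ap f n ∈ ap F n

/-- The `k`-th coordinate of the condition `w n s`. -/
noncomputable def wv (n s k : M) : M :=
  sep (un s (sing emp)) (fun x => (k ∈ n ∧ x = emp) ∨ (k = n ∧ x ∈ s))

instance DF.wv (n s k : (ι → M) → M) [DF n] [DF s] [DF k] :
    DF (fun v => wv (n v) (s v) (k v)) := by
  unfold ZFIter.wv
  infer_instance

theorem wv_lt {n s k : M} (h : k ∈ n) : wv n s k = sing emp := by
  apply ext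
  intro z
  unfold wv
  rw [mem_sep, mem_un, mem_sing]
  constructor
  · rintro ⟨_, ⟨_, h2⟩ | ⟨h2, _⟩⟩
    · exact h2
    · rw [h2] at h; exact absurd h (not_mem_self _)
  · rintro rfl
    exact ⟨Or.inr rfl, Or.inl ⟨h, rfl⟩⟩

theorem wv_eq {n s : M} : wv n s n = s := by
  apply ext
  intro z
  unfold wv
  rw [mem_sep, mem_un]
  constructor
  · rintro ⟨_, ⟨h, _⟩ | ⟨_, h2⟩⟩
    · exact absurd h (not_mem_self _)
    · exact h2
  · intro h
    exact ⟨Or.inl h, Or.inr ⟨rfl, h⟩⟩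

theorem wv_gt {n s k : M} (h : k ∉ n) (h' : k ≠ n) : wv n s k = emp := by
  apply eq_emp
  intro z hz
  unfold wv at hz
  rw [mem_sep] at hz
  rcases hz.2 with h1 | h1
  · exact h h1.1
  · exact h' h1.1

/-- The member of the antichain given by `n` and `s`. -/
noncomputable def ww (n s : M) : M := mkseq omega (fun k => tau Lw (wv n s k))

instance DF.ww (n s : (ι → M) → M) [DF n] [DF s] : DF (fun v => ww (n v) (s v)) := by
  unfold ZFIter.ww
  infer_instance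

/-- The antichain. -/
noncomputable def WW (F : M) : M := sUn (img omega (fun n => img (ap F n) (fun s => ww n s)))

theorem mem_WW {F w : M} : w ∈ WW F ↔ ∃ n, n ∈ (omega : M) ∧ ∃ s, s ∈ ap F n ∧ w = ww n s := by
  unfold WW
  rw [mem_sUn]
  constructor
  · rintro ⟨y, hy, hw⟩
    rw [mem_img] at hy
    obtain ⟨n, hn, rfl⟩ := hy
    rw [mem_img] at hw
    obtain ⟨s, hs, rfl⟩ := hw
    exact ⟨n, hn, s, hs, rfl⟩
  · rintro ⟨n, hn, s, hs, rfl⟩
    exact ⟨_, by rw [mem_img]; exact ⟨n, hn, rfl⟩, by rw [mem_img]; exact ⟨s, hs, rfl⟩⟩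

theorem ap_ww {n s k : M} (hk : k ∈ (omega : M)) : ap (ww n s) k = tau Lw (wv n s k) := by
  unfold ww
  rw [ap_mkseq hk]

section

variable {F : M} (hF : BadSeq F)

include hF

theorem BadSeq.tau_mem {k s : M} (hk : k ∈ (omega : M)) (hs : s ∈ Xs F k) :
    tau Lw s ∈ ap (Ns F) k := by
  obtain ⟨h1, h2⟩ := hF.good k hk
  rw [ap_Ps hk, ap_Rs hk] at h1 h2
  rw [ap_Ns hk]
  unfold NF
  rw [mem_NN]
  refine ⟨fun z hz => ?_, fun p _ => fmem_Qn_of h2 hs⟩
  unfold tau at hz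
  rw [mem_prod] at hz ⊢
  obtain ⟨a, ha, b, hb, e⟩ := hz
  rw [mem_img] at ha
  obtain ⟨j, hj, rfl⟩ := ha
  refine ⟨_, ?_, b, by rw [mem_un]; exact Or.inr hb, e⟩
  rw [mem_img]
  exact ⟨j, hF.Xs_sub hk s hs j hj, rfl⟩

theorem BadSeq.wv_mem {n s k : M} (hs : s ∈ ap F n) : wv n s k ∈ Xs F k := by
  by_cases h : k ∈ n
  · rw [wv_lt h]; exact one_mem_Xs
  by_cases h' : k = n
  · subst h'
    rw [wv_eq]; exact mem_Xs_of hs
  · rw [wv_gt h h']; exact emp_mem_Xs

theorem BadSeq.ww_mem {n s : M} (hn : n ∈ (omega : M)) (hs : s ∈ ap F n) :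
    ww n s ∈ ap (Ps F) omega := by
  rw [hF.core.cond omega (mem_succ_self _)]
  refine ⟨isSeq_mkseq, fun k hk => ?_, fin_sub (nat_fin (succ_mem_omega hn)) fun k hk => ?_⟩
  · rw [ap_ww hk]
    exact hF.tau_mem hk (hF.wv_mem hs)
  · rw [mem_sep] at hk
    obtain ⟨hk, h1⟩ := hk
    rw [ap_ww hk, ap_os hk] at h1
    by_contra hcon
    rw [mem_succ] at hcon
    push Not at hcon
    rw [wv_gt hcon.1 hcon.2, tau_emp] at h1
    exact h1 rfl

theorem BadSeq.coord {k a b x y r : M} (hk : k ∈ (omega : M)) (ha : a ∈ Xs F k) (hb : b ∈ Xs F k)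
    (hx : ap x k = tau Lw a) (hy : ap y k = tau Lw b)
    (hrx : Le (ap (Ps F) omega) (ap (Rs F) omega) r x)
    (hry : Le (ap (Ps F) omega) (ap (Rs F) omega) r y) : a = b ∨ a = emp ∨ b = emp := by
  obtain ⟨h1, h2⟩ := hF.good k hk
  have hc := hF.core
  have hr := hc.res_mem (mem_succ_self _) (lt_succ_of_lt hk) hrx.memL
  have h3 := ((hc.le_iff (mem_succ_self _)).1 hrx).2.2 k hk
  have h4 := ((hc.le_iff (mem_succ_self _)).1 hry).2.2 k hk
  have h5 := hc.names k hk _ (hc.ap_mem (mem_succ_self _) hrx.memL hk) _ hr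
  rw [ap_Ss hk, hx] at h3
  rw [ap_Ss hk, hy] at h4
  rw [ap_Qs hk] at h5
  refine compat_Qn h2 (hF.Xs_sub hk) ha hb hr ?_
  exact fex_intro (A := fun z => (forc (ap (Ps F) k) (ap (Rs F) k)).and
    ((forc (ap (Ps F) k) (ap (Rs F) k)).mem z (Qn Lw (Xs F k)))
    ((forc (ap (Ps F) k) (ap (Rs F) k)).and
      ((forc (ap (Ps F) k) (ap (Rs F) k)).rel (Sn Lw (Xs F k)) z (tau Lw a))
      ((forc (ap (Ps F) k) (ap (Rs F) k)).rel (Sn Lw (Xs F k)) z (tau Lw b)))) (ap r k) ⟨h5, h3, h4⟩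

theorem BadSeq.ne_emp {n s : M} (hn : n ∈ (omega : M)) (hs : s ∈ ap F n) : s ≠ emp := by
  obtain ⟨k, hk, _⟩ := hF.big n hn s hs
  rintro rfl
  exact not_mem_emp k hk

theorem BadSeq.ne_one {n s : M} (hn : n ∈ (omega : M)) (hs : s ∈ ap F n) : s ≠ sing emp := by
  obtain ⟨k, hk, h⟩ := hF.big n hn s hs
  rintro rfl
  rw [mem_sing] at hk
  exact h hk

omit hF in
theorem one_ne_emp : sing (emp : M) ≠ emp := by
  intro h
  have h3 : (emp : M) ∈ sing (emp : M) := by simp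
  rw [h] at h3
  exact not_mem_emp _ h3

/-- Members of the antichain of different levels are incompatible. -/
theorem BadSeq.lt_false {n m s t r : M} (hm : m ∈ (omega : M)) (hnm : n ∈ m)
    (hs : s ∈ ap F n) (ht : t ∈ ap F m)
    (h1 : Le (ap (Ps F) omega) (ap (Rs F) omega) r (ww n s))
    (h2 : Le (ap (Ps F) omega) (ap (Rs F) omega) r (ww m t)) : False := by
  have hn := mem_omega_of_mem hnm hm
  rcases hF.coord hn (mem_Xs_of hs) one_mem_Xs (by rw [ap_ww hn, wv_eq])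
    (by rw [ap_ww hn, wv_lt hnm]) h1 h2 with h | h | h
  · exact hF.ne_one hn hs h
  · exact hF.ne_emp hn hs h
  · exact one_ne_emp h

theorem BadSeq.anti {x y r : M} (hx : x ∈ WW F) (hy : y ∈ WW F)
    (h1 : Le (ap (Ps F) omega) (ap (Rs F) omega) r x)
    (h2 : Le (ap (Ps F) omega) (ap (Rs F) omega) r y) : x = y := by
  obtain ⟨n, hn, s, hs, rfl⟩ := mem_WW.1 hx
  obtain ⟨m, hm, t, ht, rfl⟩ := mem_WW.1 hy
  rcases trichotomy hn hm with h | h | h
  · exact (hF.lt_false hm h hs ht h1 h2).elim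
  · subst h
    rcases hF.coord hn (mem_Xs_of hs) (mem_Xs_of ht) (by rw [ap_ww hn, wv_eq])
      (by rw [ap_ww hn, wv_eq]) h1 h2 with h | h | h
    · rw [h]
    · exact absurd h (hF.ne_emp hn hs)
    · exact absurd h (hF.ne_emp hn ht)
  · exact (hF.lt_false hn h ht hs h2 h1).elim

/-- Below each condition of finite length there is a decided one. -/
theorem BadSeq.decide : ∀ m, m ∈ (omega : M) → ∀ p, p ∈ ap (Ps F) m →
    ∃ r, Le (ap (Ps F) m) (ap (Rs F) m) r p ∧ ∀ k, k ∈ m → ∃ s, s ∈ Xs F k ∧ ap r k = tau Lw s := by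
  have hc := hF.core
  have hPs : DR (fun v : Unit → M => ∀ p, p ∈ ap (Ps F) (v ()) →
    ∃ r, Le (ap (Ps F) (v ())) (ap (Rs F) (v ())) r p ∧ ∀ k, k ∈ v () → ∃ s, s ∈ Xs F k ∧
      ap r k = tau Lw s) := by infer_instance
  apply omega_induction (fun m => ∀ p, p ∈ ap (Ps F) m →
    ∃ r, Le (ap (Ps F) m) (ap (Rs F) m) r p ∧ ∀ k, k ∈ m → ∃ s, s ∈ Xs F k ∧ ap r k = tau Lw s)
  · intro p hp
    exact ⟨p, (hF.good emp emp_mem_omega).1.refl hp, fun k hk => absurd hk (not_mem_emp k)⟩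
  · intro m hm ih p hp
    obtain ⟨hpre, hL⟩ := hF.good m hm
    have hα := hc.succ_mem hm
    have hmα : m ∈ succ (succ m) := lt_succ_of_lt (mem_succ_self m)
    have hp0 := hc.res_mem hα hmα hp
    have hmem := hc.names m hm _ (hc.ap_mem hα hp (mem_succ_self m)) _ hp0
    rw [ap_Qs hm] at hmem
    obtain ⟨r0, hr0, s, hs, hE⟩ := (fmem_Qn hL).1 hmem _ (Pre.refl hp0)
    obtain ⟨r1, hr1, hdec⟩ := ih r0 hr0.memL
    obtain ⟨c, hcm, hc1, hc2⟩ := hc.cat hm hr1.memL (hF.tau_mem hm hs)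
    refine ⟨c, (hc.succ_le_iff hm).2 ⟨hcm, hp, ?_, ?_⟩, fun k hk => ?_⟩
    · rw [hc1]; exact Pre.trans hr1 hr0
    · rw [hc1, hc2, ap_Ss hm]
      exact rel_congr (rel_Sn_of hL hs hs (Or.inl rfl)) (feq_refl _ _) (feq_symm (feq_mono hE hr1))
    · rw [mem_succ] at hk
      rcases hk with hk | rfl
      · have h1 : ap c k = ap (res c m) k := by
          rw [ap_res (hc.seq hα hcm) (fun z hz => by rw [mem_succ]; exact Or.inl hz) hk]
        rw [h1, hc1]
        exact hdec k hk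
      · exact ⟨s, hs, hc2⟩

/-- Every condition is compatible with a member of the antichain. -/
theorem BadSeq.maximal {p : M} (hp : p ∈ ap (Ps F) omega) : ∃ y, y ∈ WW F ∧
    ∃ r, Le (ap (Ps F) omega) (ap (Rs F) omega) r p ∧
      Le (ap (Ps F) omega) (ap (Rs F) omega) r y := by
  have hc := hF.core
  have hω := mem_succ_self (omega : M)
  obtain ⟨m, hm, hbd⟩ := fin_bdd (hc.fin hω hp) (fun k hk => by rw [mem_sep] at hk; exact hk.1)
  have hbd' : ∀ k, k ∈ (omega : M) → k ∉ m → ap p k = ap os k := by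
    intro k hk hkm
    by_contra h
    exact hkm (hbd k (by rw [mem_sep]; exact ⟨hk, h⟩))
  have hmω : m ∈ succ (omega : M) := lt_succ_of_lt hm
  have hpm := hc.res_mem hω hmω hp
  obtain ⟨r, hr, hdec⟩ := hF.decide m hm _ hpm
  have hrs := hc.seq hmω hr.memL
  -- the values of `r` below `k` when they are trivial
  have htriv : ∀ j, j ∈ m → (¬ ∃ s, s ∈ ap F j ∧ ap r j = tau Lw s) →
      ∃ u, u ∈ Xs F j ∧ ap r j = tau Lw u ∧ (sing emp = u ∨ u = emp) := by
    intro j hj h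
    obtain ⟨u, hu, e⟩ := hdec j hj
    refine ⟨u, hu, e, ?_⟩
    unfold Xs at hu
    rw [mem_ins, mem_ins] at hu
    rcases hu with (hu | hu) | hu
    · exact absurd ⟨u, hu, e⟩ h
    · exact Or.inr hu
    · exact Or.inl hu.symm
  by_cases hA : ∃ k, k ∈ (omega : M) ∧ (k ∈ m ∧ ∃ s, s ∈ ap F k ∧ ap r k = tau Lw s)
  · obtain ⟨k, hk, ⟨hkm, s, hs, hrk⟩, hmin⟩ :=
      exists_least (fun k => k ∈ m ∧ ∃ s, s ∈ ap F k ∧ ap r k = tau Lw s) hA
    have hγ : succ k ∈ succ m := by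
      rw [mem_succ]; exact succ_le hm k hkm
    have hγω : succ k ∈ succ (omega : M) := lt_succ_of_lt (succ_mem_omega hk)
    have hy := hF.ww_mem hk hs
    have hys := hc.seq hω hy
    have he : res (ww k s) (succ k) ∈ ap (Ps F) (succ k) := hc.res_mem hω hγω hy
    have hsubω : succ k ⊆ omega := omega_sub (succ_mem_omega hk)
    have hsubm : succ k ⊆ m := hc.sub hmω hγ
    have hle : Le (ap (Ps F) (succ k)) (ap (Rs F) (succ k)) (res (ww k s) (succ k))
        (res r (succ k)) := by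
      rw [hc.le_iff hγω]
      refine ⟨he, hc.res_mem hmω hγ hr.memL, fun j hj => ?_⟩
      have hjω := hsubω j hj
      obtain ⟨hpre, hL⟩ := hF.good j hjω
      rw [ap_res hys hsubω hj, ap_res hrs hsubm hj, ap_ww hjω, ap_Ss hjω]
      rw [mem_succ] at hj
      rcases hj with hj | rfl
      · obtain ⟨u, hu, e, h1⟩ := htriv j (lt_trans hm hj hkm) (fun h => hmin j hj
          ⟨lt_trans hm hj hkm, h⟩)
        rw [wv_lt hj, e]
        exact rel_Sn_of hL one_mem_Xs hu h1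
      · rw [wv_eq, hrk]
        exact rel_Sn_of hL (mem_Xs_of hs) (mem_Xs_of hs) (Or.inl rfl)
    have hpreγ := hc.pre _ hγω
    have hle2 : Le (ap (Ps F) (succ k)) (ap (Rs F) (succ k)) (res (ww k s) (succ k))
        (res p (succ k)) := by
      have h1 := hc.res_le hmω hγ hr
      rw [res_res hsubm] at h1
      exact Pre.trans hle h1
    obtain ⟨e', he1, he2⟩ := hc.amalgam hω hγω hp hy hle2 (Pre.refl he) (by
      intro β hβ hβγ
      right
      rw [mem_succ] at hβγ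
      push Not at hβγ
      rw [ap_ww hβ, wv_gt hβγ.1 hβγ.2, tau_emp, ap_os hβ])
    exact ⟨ww k s, mem_WW.2 ⟨k, hk, s, hs, rfl⟩, e', he1, he2⟩
  · obtain ⟨s, hs⟩ := hF.ne m hm
    have hy := hF.ww_mem hm hs
    have hys := hc.seq hω hy
    have he : res (ww m s) m ∈ ap (Ps F) m := hc.res_mem hω hmω hy
    have hsubω : m ⊆ omega := omega_sub hm
    have hle : Le (ap (Ps F) m) (ap (Rs F) m) (res (ww m s) m) r := by
      rw [hc.le_iff hmω]
      refine ⟨he, hr.memL, fun j hj => ?_⟩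
      have hjω := hsubω j hj
      obtain ⟨hpre, hL⟩ := hF.good j hjω
      rw [ap_res hys hsubω hj, ap_ww hjω, ap_Ss hjω]
      obtain ⟨u, hu, e, h1⟩ := htriv j hj (fun h => hA ⟨j, hjω, hj, h⟩)
      rw [wv_lt hj, e]
      exact rel_Sn_of hL one_mem_Xs hu h1
    have hprem := hc.pre _ hmω
    obtain ⟨e', he1, he2⟩ := hc.amalgam hω hmω hp hy (Pre.trans hle hr) (Pre.refl he) (by
      intro β hβ hβγ
      left
      exact hbd' β hβ hβγ)
    exact ⟨ww m s, mem_WW.2 ⟨m, hm, s, hs, rfl⟩, e', he1, he2⟩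

/-- The antichain is not countable. -/
theorem BadSeq.not_ctb : ¬ Ctb (WW F) := by
  rintro ⟨c, hc⟩
  apply hF.nochoice
  have hex : ∀ n, n ∈ (omega : M) → ∃ j, j ∈ (omega : M) ∧ ∃ s, s ∈ ap F n ∧ ap c (ww n s) = j := by
    intro n hn
    obtain ⟨s, hs⟩ := hF.ne n hn
    exact ⟨_, hc.fun.ap_mem (mem_WW.2 ⟨n, hn, s, hs, rfl⟩), s, hs, rfl⟩
  have huniq : ∀ n, n ∈ (omega : M) → ∃! s, s ∈ ap F n ∧
      ap c (ww n s) = least (fun j => ∃ s, s ∈ ap F n ∧ ap c (ww n s) = j) := by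
    intro n hn
    obtain ⟨_, ⟨s, hs, e⟩, _⟩ := least_spec (fun j => ∃ s, s ∈ ap F n ∧ ap c (ww n s) = j) (hex n hn)
    refine ⟨s, ⟨hs, e⟩, fun t ht => ?_⟩
    have h1 : ww n t = ww n s := hc.ap_inj (mem_WW.2 ⟨n, hn, t, ht.1, rfl⟩)
      (mem_WW.2 ⟨n, hn, s, hs, rfl⟩) (ht.2.trans e.symm)
    have h2 : tau Lw t = tau Lw s := by
      have h3 : ap (ww n t) n = ap (ww n s) n := by rw [h1]
      rwa [ap_ww hn, ap_ww hn, wv_eq, wv_eq] at h3
    obtain ⟨hpre, hL⟩ := hF.good emp emp_mem_omega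
    have h4 : (emp : M) ∈ ap (Ps F) emp := by
      rw [ap_Ps emp_mem_omega, PF_zero]; simp
    exact tau_inj (P := ap (Ps F) emp) (R := ap (Rs F) emp) hL (hF.sub n hn t ht.1)
      (hF.sub n hn s hs) h4 (by rw [h2]; exact feq_refl _ _)
  refine ⟨mkseq omega (fun n => iota (fun s => s ∈ ap F n ∧
    ap c (ww n s) = least (fun j => ∃ s, s ∈ ap F n ∧ ap c (ww n s) = j))), isSeq_mkseq,
    fun n hn => ?_⟩
  rw [ap_mkseq hn]
  exact (iota_spec (huniq n hn)).1

theorem BadSeq.std_anti : (std (M := M)).antichain (ap (Ps F) omega) (ap (Rs F) omega) (WW F) := by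
  refine ⟨fun x hx => ?_, fun x y hx hy hcomp => ?_⟩
  · obtain ⟨n, hn, s, hs, rfl⟩ := mem_WW.1 hx
    exact hF.ww_mem hn hs
  · obtain ⟨r, hr, h1, h2⟩ := hcomp
    have hxP : x ∈ ap (Ps F) omega := by
      obtain ⟨n, hn, s, hs, rfl⟩ := mem_WW.1 hx
      exact hF.ww_mem hn hs
    have hyP : y ∈ ap (Ps F) omega := by
      obtain ⟨n, hn, s, hs, rfl⟩ := mem_WW.1 hy
      exact hF.ww_mem hn hs
    exact hF.anti hx hy ⟨hr, hxP, std_rel.1 h1⟩ ⟨hr, hyP, std_rel.1 h2⟩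

theorem BadSeq.std_compat {p : M} (hp : p ∈ ap (Ps F) omega) : ∃ y, y ∈ WW F ∧
    (std (M := M)).compat (ap (Ps F) omega) (ap (Rs F) omega) p y := by
  obtain ⟨y, hy, r, h1, h2⟩ := hF.maximal hp
  exact ⟨y, hy, r, h1.memL, std_rel.2 h1.2.2, std_rel.2 h2.2.2⟩

/-- All three iteration theorems fail. -/
theorem BadSeq.not_it (i : Fin 3) : ¬ IT M i := by
  intro hIT
  have h := hIT omega (Ps F) (Rs F) (Qs F) (Ss F) os (Ns F) hF.iteration (hF.ccc i)
  have hanti := hF.std_anti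
  have hsubP : (std (M := M)).sub (WW F) (ap (Ps F) omega) := hanti.1
  fin_cases i
  · have h1 : (std (M := M)).ccc1 (ap (Ps F) omega) (ap (Rs F) omega) := h
    have h2 := h1 (WW F) ⟨hanti, fun B hB hWB x hx => by
      obtain ⟨y, hy, hcomp⟩ := hF.std_compat (hB.1 x hx)
      have : x = y := hB.2 x y hx (hWB y hy) hcomp
      rw [this]; exact hy⟩
    exact hF.not_ctb (std_countable.1 h2)
  · have h1 : (std (M := M)).ccc2 (ap (Ps F) omega) (ap (Rs F) omega) := h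
    exact hF.not_ctb (std_countable.1 (h1 (WW F) hanti))
  · have h1 : (std (M := M)).ccc3 (ap (Ps F) omega) (ap (Rs F) omega) := h
    obtain ⟨C, hCW, hCpd, hCc⟩ := h1 (WW F) ⟨hsubP, fun p hp => hF.std_compat hp⟩
    apply hF.not_ctb
    refine ctb_sub (std_countable.1 hCc) fun x hx => ?_
    obtain ⟨y, hy, hcomp⟩ := hCpd.2 x (hsubP x hx)
    have : x = y := hanti.2 x y hx (hCW y hy) hcomp
    rw [this]; exact hy

end

end Pool.Agent.ZFIter

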