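import Pool.Agent.ZFIter.Defs

/-! # Countable sets and countable choice inside a model of ZF -/

universe u

namespace Pool.Agent.ZFIter

open Pool.Agent.H78.ZF

variable {M : Type u} [ZFM M] {ι : Type}

/-- Countable sets: those with an injection into `omega`. -/
def Ctb (a : M) : Prop := ∃ f, Inj f a omega

instance DR.Ctb (s : (ι → M) → M) [DF s] : DR (fun v => Ctb (s v)) := by
  unfold ZFIter.Ctb
  infer_instance

theorem ctb_sub {a b : M} (hb : Ctb b) (h : a ⊆ b) : Ctb a := by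
  obtain ⟨f, hf⟩ := hb
  have hval : ∀ x, x ∈ a → ap f x ∈ (omega : M) := fun x hx => hf.fun.ap_mem (h x hx)
  refine ⟨mkf a omega (fun x => ap f x), ?_⟩
  rw [inj_iff]
  refine ⟨mkf_fun hval, fun x x' hx hx' e => ?_⟩
  rw [ap_mkf hval hx, ap_mkf hval hx'] at e
  exact hf.ap_inj (h x hx) (h x' hx') e

theorem ctb_omega : Ctb (omega : M) := by
  have hval : ∀ x, x ∈ (omega : M) → x ∈ (omega : M) := fun _ h => h
  refine ⟨mkf omega omega (fun x => x), ?_⟩
  rw [inj_iff]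
  refine ⟨mkf_fun hval, fun x x' hx hx' e => ?_⟩
  rwa [ap_mkf hval hx, ap_mkf hval hx'] at e

/-- A set which is the image of a countable set under a class relation is countable. -/
theorem ctb_image {a b : M} (ha : Ctb a) (R : M → M → Prop) [D2 R]
    (h : ∀ z, z ∈ b → ∃ x, x ∈ a ∧ R x z) (hf : ∀ x z z', z ∈ b → z' ∈ b → R x z → R x z' → z = z') :
    Ctb b := by
  obtain ⟨c, hc⟩ := ha
  have hex : ∀ z, z ∈ b → ∃ n, n ∈ (omega : M) ∧ ∃ x, x ∈ a ∧ R x z ∧ ap c x = n := by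
    intro z hz
    obtain ⟨x, hx, hR⟩ := h z hz
    exact ⟨ap c x, hc.fun.ap_mem hx, x, hx, hR, rfl⟩
  have hspec : ∀ z, z ∈ b → least (fun n => ∃ x, x ∈ a ∧ R x z ∧ ap c x = n) ∈ (omega : M) ∧
      ∃ x, x ∈ a ∧ R x z ∧ ap c x = least (fun n => ∃ x, x ∈ a ∧ R x z ∧ ap c x = n) := by
    intro z hz
    have := least_spec (fun n => ∃ x, x ∈ a ∧ R x z ∧ ap c x = n) (hex z hz)
    exact ⟨this.1, this.2.1⟩
  refine ⟨mkf b omega (fun z => least (fun n => ∃ x, x ∈ a ∧ R x z ∧ ap c x = n)), ?_⟩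
  rw [inj_iff]
  refine ⟨mkf_fun fun z hz => (hspec z hz).1, fun z z' hz hz' e => ?_⟩
  rw [ap_mkf (fun z hz => (hspec z hz).1) hz, ap_mkf (fun z hz => (hspec z hz).1) hz'] at e
  obtain ⟨x, hx, hR, h1⟩ := (hspec z hz).2
  obtain ⟨x', hx', hR', h1'⟩ := (hspec z' hz').2
  have : x = x' := hc.ap_inj hx hx' (by rw [h1, h1', e])
  subst this
  exact hf x z z' hz hz' hR hR'

theorem ctb_img {a : M} (ha : Ctb a) (F : M → M) [F1 F] : Ctb (img a F) := by
  refine ctb_image ha (fun x z => z = F x) (fun z hz => ?_) (fun x z z' _ _ h h' => by rw [h, h'])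
  rw [mem_img] at hz
  exact hz

theorem ctb_sing (a : M) : Ctb (sing a) := by
  have h : ∀ z, z ∈ sing a → ∃ x, x ∈ sing (emp : M) ∧ z = a := by
    intro z hz
    exact ⟨emp, by simp, by simpa using hz⟩
  refine ctb_image (a := sing emp) ?_ (fun _ z => z = a) h (fun x z z' _ _ h h' => by rw [h, h'])
  exact ctb_sub ctb_omega (fun z hz => by rw [mem_sing] at hz; rw [hz]; exact emp_mem_omega)

/-- Countable choice from dependent choice. -/
theorem ac_omega (hDC : DC M) (Y : M) (R : M → M → Prop) [D2 R]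
    (h : ∀ n, n ∈ (omega : M) → ∃ y, y ∈ Y ∧ R n y) :
    ∃ f, Fun f omega Y ∧ ∀ n, n ∈ (omega : M) → R n (ap f n) := by
  set X : M := sep (pow (prod omega Y)) (fun s => ∃ n, n ∈ (omega : M) ∧ Fun s n Y ∧
    ∀ k, k ∈ n → R k (ap s k)) with hX
  have memX : ∀ s, s ∈ X ↔ ∃ n, n ∈ (omega : M) ∧ Fun s n Y ∧ ∀ k, k ∈ n → R k (ap s k) := by
    intro s
    rw [hX, mem_sep, mem_pow]
    refine ⟨fun h => h.2, fun h => ⟨?_, h⟩⟩
    obtain ⟨n, hn, hs, _⟩ := h
    intro p hp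
    obtain ⟨x, hx, y, hy, rfl⟩ := hs.1 p hp
    rw [opair_mem_prod]
    exact ⟨mem_omega_of_mem hx hn, hy⟩
  set Q : M := sep (prod X X) (fun p => ∃ s t, p = opair s t ∧ s ⊆ t ∧
    ∃ n, n ∈ (omega : M) ∧ Fun s n Y ∧ Fun t (succ n) Y) with hQ
  have memQ : ∀ s t, opair s t ∈ Q ↔ s ∈ X ∧ t ∈ X ∧ s ⊆ t ∧
    ∃ n, n ∈ (omega : M) ∧ Fun s n Y ∧ Fun t (succ n) Y := by
    intro s t
    rw [hQ, mem_sep, opair_mem_prod]
    constructor
    · rintro ⟨⟨h1, h2⟩, s', t', e, h3⟩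
      obtain ⟨rfl, rfl⟩ := opair_inj e
      exact ⟨h1, h2, h3⟩
    · rintro ⟨h1, h2, h3⟩
      exact ⟨⟨h1, h2⟩, s, t, rfl, h3⟩
  have hXne : X ≠ emp := by
    rw [ne_emp_iff]
    refine ⟨emp, ?_⟩
    rw [memX]
    refine ⟨emp, emp_mem_omega, ⟨fun p hp => absurd hp (not_mem_emp p), fun x hx => absurd hx (not_mem_emp x)⟩,
      fun k hk => absurd hk (not_mem_emp k)⟩
  have hstep : ∀ s, s ∈ X → ∃ t, t ∈ X ∧ opair s t ∈ Q := by
    intro s hs
    obtain ⟨n, hn, hf, hR⟩ := (memX s).1 hs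
    obtain ⟨y, hy, hRy⟩ := h n hn
    have key : ∀ x w, opair x w ∈ ins s (opair n y) ↔ (x ∈ n ∧ w = ap s x) ∨ (x = n ∧ w = y) := by
      intro x w
      rw [mem_ins, hf.opair_iff, opair_eq_iff]
    have hf' : Fun (ins s (opair n y)) (succ n) Y := by
      constructor
      · intro p hp
        rw [mem_ins] at hp
        rcases hp with hp | hp
        · obtain ⟨x, hx, w, hw, rfl⟩ := hf.1 p hp
          exact ⟨x, by rw [mem_succ]; exact Or.inl hx, w, hw, rfl⟩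
        · exact ⟨n, by simp, y, hy, hp⟩
      · intro x hx
        rw [mem_succ] at hx
        rcases hx with hx | rfl
        · refine ⟨ap s x, ?_, ?_⟩
          · show opair x (ap s x) ∈ _
            rw [key]; exact Or.inl ⟨hx, rfl⟩
          · intro w hw
            rw [key] at hw
            rcases hw with hw | hw
            · exact hw.2
            · rw [hw.1] at hx; exact absurd hx (not_mem_self n)
        · refine ⟨y, ?_, ?_⟩
          · show opair x y ∈ _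
            rw [key]; exact Or.inr ⟨rfl, rfl⟩
          · intro w hw
            rw [key] at hw
            rcases hw with hw | hw
            · exact absurd hw.1 (not_mem_self x)
            · exact hw.2
    have hap : ∀ k, k ∈ n → ap (ins s (opair n y)) k = ap s k := fun k hk =>
      hf'.ap_eq ((key k _).2 (Or.inl ⟨hk, rfl⟩))
    have hap' : ap (ins s (opair n y)) n = y := hf'.ap_eq ((key n _).2 (Or.inr ⟨rfl, rfl⟩))
    have hX' : ins s (opair n y) ∈ X := by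
      rw [memX]
      refine ⟨succ n, succ_mem_omega hn, hf', fun k hk => ?_⟩
      rw [mem_succ] at hk
      rcases hk with hk | rfl
      · rw [hap k hk]; exact hR k hk
      · rw [hap']; exact hRy
    refine ⟨_, hX', ?_⟩
    rw [memQ]
    exact ⟨hs, hX', fun z hz => by rw [mem_ins]; exact Or.inl hz, n, hn, hf, hf'⟩
  obtain ⟨f, hf, hfQ⟩ := hDC X Q hXne hstep
  have hmono : ∀ l, l ∈ (omega : M) → ∀ k, k ∈ (omega : M) → k ⊆ l → ap f k ⊆ ap f l := by
    apply omega_induction (fun l => ∀ k, k ∈ (omega : M) → k ⊆ l → ap f k ⊆ ap f l)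
    · intro k hk hkl
      have : k = emp := eq_emp fun z hz => not_mem_emp z (hkl z hz)
      rw [this]; exact sub_refl _
    · intro l hl ih k hk hkl
      rcases (le_iff hk (succ_mem_omega hl)).1 hkl with h1 | h1
      · rw [lt_succ_iff hk hl] at h1
        exact sub_trans (ih k hk h1) ((memQ _ _).1 (hfQ l hl)).2.2.1
      · rw [h1]; exact sub_refl _
  have hdom : ∀ k, k ∈ (omega : M) → ∃ n, n ∈ (omega : M) ∧ k ⊆ n ∧ Fun (ap f k) n Y ∧
      ∀ j, j ∈ n → R j (ap (ap f k) j) := by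
    apply omega_induction (fun k => ∃ n, n ∈ (omega : M) ∧ k ⊆ n ∧ Fun (ap f k) n Y ∧
      ∀ j, j ∈ n → R j (ap (ap f k) j))
    · obtain ⟨n, hn, hs, hR⟩ := (memX _).1 (hf.ap_mem emp_mem_omega)
      exact ⟨n, hn, emp_sub n, hs, hR⟩
    · intro k hk ih
      obtain ⟨n, hn, hkn, hs, hR⟩ := ih
      obtain ⟨_, h2, _, n', hn', h4, h5⟩ := (memQ _ _).1 (hfQ k hk)
      have hnn : n = n' := by
        apply sub_antisymm
        · intro x hx
          obtain ⟨w, hw, _⟩ := hs.2 x hx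
          exact (h4.mem_of_opair hw).1
        · intro x hx
          obtain ⟨w, hw, _⟩ := h4.2 x hx
          exact (hs.mem_of_opair hw).1
      subst hnn
      obtain ⟨m, hm, hs', hR'⟩ := (memX _).1 h2
      have hmn : m = succ n := by
        apply sub_antisymm
        · intro x hx
          obtain ⟨w, hw, _⟩ := hs'.2 x hx
          exact (h5.mem_of_opair hw).1
        · intro x hx
          obtain ⟨w, hw, _⟩ := h5.2 x hx
          exact (hs'.mem_of_opair hw).1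
      subst hmn
      refine ⟨succ n, hm, ?_, h5, hR'⟩
      intro z hz
      rw [mem_succ] at hz ⊢
      rcases hz with hz | rfl
      · exact Or.inl (hkn z hz)
      · rcases (le_iff hk hn).1 hkn with h | h
        · exact Or.inl h
        · exact Or.inr h
  set U : M := sUn (img omega (fun k => ap f k)) with hU
  have memU : ∀ p, p ∈ U ↔ ∃ k, k ∈ (omega : M) ∧ p ∈ ap f k := by
    intro p
    rw [hU, mem_sUn]
    constructor
    · rintro ⟨y, hy, hp⟩
      rw [mem_img] at hy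
      obtain ⟨k, hk, rfl⟩ := hy
      exact ⟨k, hk, hp⟩
    · rintro ⟨k, hk, hp⟩
      exact ⟨ap f k, by rw [mem_img]; exact ⟨k, hk, rfl⟩, hp⟩
  have hUf : Fun U omega Y := by
    constructor
    · intro p hp
      obtain ⟨k, hk, hp⟩ := (memU p).1 hp
      obtain ⟨n, hn, _, hs, _⟩ := hdom k hk
      obtain ⟨x, hx, w, hw, rfl⟩ := hs.1 p hp
      exact ⟨x, mem_omega_of_mem hx hn, w, hw, rfl⟩
    · intro x hx
      obtain ⟨n, hn, hkn, hs, hR⟩ := hdom (succ x) (succ_mem_omega hx)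
      obtain ⟨w, hw, hw'⟩ := hs.2 x (hkn x (by simp))
      refine ⟨w, (memU _).2 ⟨_, succ_mem_omega hx, hw⟩, ?_⟩
      intro w2 hw2
      obtain ⟨k, hk, hw2⟩ := (memU _).1 hw2
      rcases le_or_lt hk (succ_mem_omega hx) with h1 | h1
      · exact hw' w2 (hmono _ (succ_mem_omega hx) k hk h1 _ hw2)
      · have h2 := hmono k hk _ (succ_mem_omega hx) (omega_trans hk _ h1) _ hw
        obtain ⟨n', hn', _, hs', _⟩ := hdom k hk
        exact (hs'.2 x (hs'.mem_of_opair hw2).1).unique hw2 h2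
  refine ⟨U, hUf, fun n hn => ?_⟩
  obtain ⟨m, hm, hkm, hs, hR⟩ := hdom (succ n) (succ_mem_omega hn)
  have h1 := hs.opair_ap (hkm n (by simp))
  have h2 : ap U n = ap (ap f (succ n)) n :=
    hUf.ap_eq ((memU _).2 ⟨_, succ_mem_omega hn, h1⟩)
  rw [h2]
  exact hR n (hkm n (by simp))

/-- Choice for countable index sets. -/
theorem ac_ctb (hDC : DC M) {C : M} (hC : Ctb C) (Y : M) (R : M → M → Prop) [D2 R]
    (h : ∀ x, x ∈ C → ∃ y, y ∈ Y ∧ R x y) :
    ∃ f, Fun f C Y ∧ ∀ x, x ∈ C → R x (ap f x) := by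
  obtain ⟨c, hc⟩ := hC
  by_cases hne : C = emp
  · subst hne
    exact ⟨emp, ⟨fun p hp => absurd hp (not_mem_emp p), fun x hx => absurd hx (not_mem_emp x)⟩,
      fun x hx => absurd hx (not_mem_emp x)⟩
  obtain ⟨x0, hx0⟩ := ne_emp_iff.1 hne
  obtain ⟨y0, hy0, _⟩ := h x0 hx0
  obtain ⟨g, hg, hgR⟩ := ac_omega hDC Y (fun n y => (∃ x, x ∈ C ∧ ap c x = n ∧ R x y) ∨
    ¬ ∃ x, x ∈ C ∧ ap c x = n) (by
      intro n hn
      by_cases h1 : ∃ x, x ∈ C ∧ ap c x = n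
      · obtain ⟨x, hx, e⟩ := h1
        obtain ⟨y, hy, hR⟩ := h x hx
        exact ⟨y, hy, Or.inl ⟨x, hx, e, hR⟩⟩
      · exact ⟨y0, hy0, Or.inr h1⟩)
  have hval : ∀ x, x ∈ C → ap g (ap c x) ∈ Y := fun x hx => hg.ap_mem (hc.fun.ap_mem hx)
  refine ⟨mkf C Y (fun x => ap g (ap c x)), mkf_fun hval, fun x hx => ?_⟩
  rw [ap_mkf hval hx]
  rcases hgR _ (hc.fun.ap_mem hx) with ⟨x', hx', e, hR⟩ | h1
  · rw [hc.ap_inj hx' hx e] at hR
    exact hR
  · exact absurd ⟨x, hx, rfl⟩ h1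

/-- Countable unions of countable sets. -/
theorem ctb_union (hDC : DC M) {C : M} (hC : Ctb C) (B : M → M) [F1 B]
    (h : ∀ x, x ∈ C → Ctb (B x)) : Ctb (sUn (img C B)) := by
  set U : M := sUn (img C B) with hU
  have memU : ∀ z, z ∈ U ↔ ∃ x, x ∈ C ∧ z ∈ B x := by
    intro z
    rw [hU, mem_sUn]
    constructor
    · rintro ⟨y, hy, hz⟩
      rw [mem_img] at hy
      obtain ⟨x, hx, rfl⟩ := hy
      exact ⟨x, hx, hz⟩
    · rintro ⟨x, hx, hz⟩
      exact ⟨B x, by rw [mem_img]; exact ⟨x, hx, rfl⟩, hz⟩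
  obtain ⟨E, hE, hER⟩ := ac_ctb hDC hC (pow (prod U omega)) (fun x e => Inj e (B x) omega) (by
    intro x hx
    obtain ⟨e, he⟩ := h x hx
    refine ⟨e, ?_, he⟩
    rw [mem_pow]
    intro p hp
    obtain ⟨z, hz, n, hn, rfl⟩ := he.fun.1 p hp
    rw [opair_mem_prod]
    exact ⟨(memU z).2 ⟨x, hx, hz⟩, hn⟩)
  obtain ⟨c, hc⟩ := hC
  -- the code of `z` is a pair `(c x, e_x z)` with `z ∈ B x`; take the pairs with least first entry
  have hex : ∀ z, z ∈ U → ∃ n, n ∈ (omega : M) ∧ ∃ x, x ∈ C ∧ z ∈ B x ∧ ap c x = n := by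
    intro z hz
    obtain ⟨x, hx, hzx⟩ := (memU z).1 hz
    exact ⟨ap c x, hc.fun.ap_mem hx, x, hx, hzx, rfl⟩
  have hspec : ∀ z, z ∈ U → ∃ x, x ∈ C ∧ z ∈ B x ∧
      ap c x = least (fun n => ∃ x, x ∈ C ∧ z ∈ B x ∧ ap c x = n) := by
    intro z hz
    exact (least_spec (fun n => ∃ x, x ∈ C ∧ z ∈ B x ∧ ap c x = n) (hex z hz)).2.1
  have hx : ∀ z, z ∈ U → ∃! x, x ∈ C ∧ z ∈ B x ∧
      ap c x = least (fun n => ∃ x, x ∈ C ∧ z ∈ B x ∧ ap c x = n) := by
    intro z hz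
    obtain ⟨x, h1, h2, h3⟩ := hspec z hz
    exact ⟨x, ⟨h1, h2, h3⟩, fun x' h' => hc.ap_inj h'.1 h1 (by rw [h3, h'.2.2])⟩
  set X : M → M := fun z => iota (fun x => x ∈ C ∧ z ∈ B x ∧
      ap c x = least (fun n => ∃ x, x ∈ C ∧ z ∈ B x ∧ ap c x = n)) with hXdef
  have hF1 : F1 X := by rw [hXdef]; infer_instance
  have hX : ∀ z, z ∈ U → X z ∈ C ∧ z ∈ B (X z) := by
    intro z hz
    have := iota_spec (hx z hz)
    exact ⟨this.1, this.2.1⟩
  have hval : ∀ z, z ∈ U → pr (ap c (X z)) (ap (ap E (X z)) z) ∈ (omega : M) := by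
    intro z hz
    obtain ⟨h1, h2⟩ := hX z hz
    exact pr_mem (hc.fun.ap_mem h1) ((hER _ h1).fun.ap_mem h2)
  refine ⟨mkf U omega (fun z => pr (ap c (X z)) (ap (ap E (X z)) z)), ?_⟩
  rw [inj_iff]
  refine ⟨mkf_fun hval, fun z z' hz hz' e => ?_⟩
  rw [ap_mkf hval hz, ap_mkf hval hz'] at e
  obtain ⟨h1, h2⟩ := hX z hz
  obtain ⟨h1', h2'⟩ := hX z' hz'
  obtain ⟨e1, e2⟩ := pr_inj (hc.fun.ap_mem h1) ((hER _ h1).fun.ap_mem h2)
    (hc.fun.ap_mem h1') ((hER _ h1').fun.ap_mem h2') e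
  have e3 := hc.ap_inj h1 h1' e1
  rw [← e3] at e2 h2'
  exact (hER _ h1).ap_inj h2 h2' e2

end Pool.Agent.ZFIter
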