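import Pool.Agent.ZFIter.Base

/-!
# The forcing relation and finite support iterations inside a model of ZF

Everything takes place in a model `M` of ZF (class `ZFM`, from `Pool.Agent.H78.ZF`).  The statements
about forcing notions (chain conditions etc.) are written once, for an arbitrary interpretation of
the language of set theory; the interpretation `std` gives their meaning in `M`, and the
interpretation `forc P R` gives the statement that `p` forces it, for the forcing notion `(P, R)`.
-/

universe u v

namespace Pool.Agent.ZFIter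

open Pool.Agent.H78.ZF

/-- An interpretation of the language of set theory over the class `M`, with truth values in `V`:
the atomic formulas, the connectives and the quantifiers. -/
structure Interp (M : Type u) (V : Type v) where
  mem : M → M → V
  eq : M → M → V
  and : V → V → V
  or : V → V → V
  imp : V → V → V
  not : V → V
  all : (M → V) → V
  ex : (M → V) → V

namespace Interp

variable {M : Type u} {V : Type v} (I : Interp M V)

/-- `a ↔ b` -/
def iff (a b : V) : V := I.and (I.imp a b) (I.imp b a)

/-- `z = {x, y}` -/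
def isUPair (z x y : M) : V := I.all fun w => I.iff (I.mem w z) (I.or (I.eq w x) (I.eq w y))

/-- `z = (x, y)`, the ordered pair -/
def isOPair (z x y : M) : V :=
  I.ex fun a => I.ex fun b => I.and (I.isUPair a x x) (I.and (I.isUPair b x y) (I.isUPair z a b))

/-- `(x, y) ∈ S` -/
def rel (S x y : M) : V := I.ex fun z => I.and (I.isOPair z x y) (I.mem z S)

/-- `a ⊆ b` -/
def sub (a b : M) : V := I.all fun x => I.imp (I.mem x a) (I.mem x b)

/-- `e` is empty -/
def isEmpty (e : M) : V := I.all fun x => I.not (I.mem x e)

/-- `s = x ∪ {x}` -/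
def isSucc (s x : M) : V := I.all fun w => I.iff (I.mem w s) (I.or (I.mem w x) (I.eq w x))

/-- `v` contains the empty set and is closed under successors -/
def isInductive (v : M) : V :=
  I.and (I.ex fun e => I.and (I.isEmpty e) (I.mem e v))
    (I.all fun x => I.imp (I.mem x v) (I.ex fun s => I.and (I.isSucc s x) (I.mem s v)))

/-- `w` is the set of natural numbers -/
def isOmega (w : M) : V :=
  I.and (I.isInductive w) (I.all fun v => I.imp (I.isInductive v) (I.sub w v))

/-- `g` is an injective function from `c` to `w` -/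
def isInjection (g c w : M) : V :=
  I.and (I.all fun z => I.imp (I.mem z g)
      (I.ex fun x => I.ex fun y => I.and (I.mem x c) (I.and (I.mem y w) (I.isOPair z x y))))
    (I.and (I.all fun x => I.imp (I.mem x c) (I.ex fun y => I.and (I.mem y w) (I.rel g x y)))
      (I.and
        (I.all fun x => I.all fun y => I.all fun y' =>
          I.imp (I.rel g x y) (I.imp (I.rel g x y') (I.eq y y')))
        (I.all fun x => I.all fun x' => I.all fun y =>
          I.imp (I.rel g x y) (I.imp (I.rel g x' y) (I.eq x x')))))

/-- `c` is countable (finite or countably infinite): there is an injective function from `c` to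
the set of natural numbers -/
def countable (c : M) : V :=
  I.ex fun w => I.ex fun g => I.and (I.isOmega w) (I.isInjection g c w)

/-- `S` is a preorder on `Q` with maximum `o`; `(x, y) ∈ S` is read `x ≤ y` -/
def isForcing (Q S o : M) : V :=
  I.and (I.mem o Q)
    (I.and (I.all fun x => I.imp (I.mem x Q) (I.and (I.rel S x x) (I.rel S x o)))
      (I.all fun x => I.all fun y => I.all fun z =>
        I.imp (I.mem x Q) (I.imp (I.mem y Q) (I.imp (I.mem z Q)
          (I.imp (I.rel S x y) (I.imp (I.rel S y z) (I.rel S x z)))))))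

/-- `x` and `y` are compatible in `(Q, S)` -/
def compat (Q S x y : M) : V :=
  I.ex fun r => I.and (I.mem r Q) (I.and (I.rel S r x) (I.rel S r y))

/-- `A` is an antichain of `(Q, S)` -/
def antichain (Q S A : M) : V :=
  I.and (I.sub A Q) (I.all fun x => I.all fun y =>
    I.imp (I.mem x A) (I.imp (I.mem y A) (I.imp (I.compat Q S x y) (I.eq x y))))

/-- `A` is a maximal antichain of `(Q, S)` -/
def maxAntichain (Q S A : M) : V :=
  I.and (I.antichain Q S A) (I.all fun B =>
    I.imp (I.antichain Q S B) (I.imp (I.sub A B) (I.sub B A)))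

/-- `D` is a predense subset of `(Q, S)` -/
def predense (Q S D : M) : V :=
  I.and (I.sub D Q) (I.all fun x => I.imp (I.mem x Q)
    (I.ex fun y => I.and (I.mem y D) (I.compat Q S x y)))

/-- every maximal antichain is countable -/
def ccc1 (Q S : M) : V := I.all fun A => I.imp (I.maxAntichain Q S A) (I.countable A)

/-- every antichain is countable -/
def ccc2 (Q S : M) : V := I.all fun A => I.imp (I.antichain Q S A) (I.countable A)

/-- every predense subset contains a countable predense subset -/
def ccc3 (Q S : M) : V := I.all fun D => I.imp (I.predense Q S D)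
  (I.ex fun C => I.and (I.sub C D) (I.and (I.predense Q S C) (I.countable C)))

/-- The chain conditions `ccc_1`, `ccc_2`, `ccc_3` (numbered `0`, `1`, `2` here). -/
def ccc (i : Fin 3) (Q S : M) : V := match i with
  | 0 => I.ccc1 Q S
  | 1 => I.ccc2 Q S
  | 2 => I.ccc3 Q S

end Interp

variable {M : Type u} [ZFM M]

/-- The standard interpretation in `M`. -/
def std : Interp M Prop where
  mem x y := x ∈ y
  eq x y := x = y
  and a b := a ∧ b
  or a b := a ∨ b
  imp a b := a → b
  not a := ¬ a
  all A := ∀ x, A x
  ex A := ∃ x, A x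

/-- `q ≤ p` in the forcing notion `(P, R)`. -/
def Le (P R q p : M) : Prop := q ∈ P ∧ p ∈ P ∧ opair q p ∈ R

/-- The clause for `p ⊩ x = y` in the recursive definition of the forcing relation, with the
ternary relation `W` in place of the forcing relation for equality. -/
def EqClause (P R : M) (W : M → M → M → Prop) (p x y : M) : Prop :=
  (∀ z s, opair z s ∈ x → ∀ q, Le P R q p → Le P R q s →
    ∃ r, Le P R r q ∧ ∃ w t, opair w t ∈ y ∧ Le P R r t ∧ W r z w) ∧
  (∀ w t, opair w t ∈ y → ∀ q, Le P R q p → Le P R q t →
    ∃ r, Le P R r q ∧ ∃ z s, opair z s ∈ x ∧ Le P R r s ∧ W r z w)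

/-- `p ⊩ x = y` for the forcing notion `(P, R)`. Every set is regarded as a name: the members of
`x` which are not pairs `(z, s)` with `s ∈ P` are ignored. The recursion is solved by a set `W` of
triples containing `(p, x, y)`, each of which satisfies the clause relative to `W`. -/
def FEq (P R p x y : M) : Prop :=
  ∃ W : M, opair p (opair x y) ∈ W ∧ ∀ q a b, opair q (opair a b) ∈ W →
    EqClause P R (fun r c d => opair r (opair c d) ∈ W) q a b

/-- `p ⊩ x ∈ y` for the forcing notion `(P, R)`. -/
def FMem (P R p x y : M) : Prop :=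
  ∀ q, Le P R q p → ∃ r, Le P R r q ∧ ∃ z s, opair z s ∈ y ∧ Le P R r s ∧ FEq P R r x z

/-- The forcing relation of `(P, R)`, as an interpretation: the truth value of a statement is the
class of all `p` which force it. -/
def forc (P R : M) : Interp M (M → Prop) where
  mem x y p := FMem P R p x y
  eq x y p := FEq P R p x y
  and A B p := A p ∧ B p
  or A B p := ∀ q, Le P R q p → ∃ r, Le P R r q ∧ (A r ∨ B r)
  imp A B p := ∀ q, Le P R q p → A q → B q
  not A p := ∀ q, Le P R q p → ¬ A q
  all A p := ∀ x, A x p
  ex A p := ∀ q, Le P R q p → ∃ r, Le P R r q ∧ ∃ x, A x r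

/-- All conditions of `P` force the statement (equivalently, the maximum of `P` does). -/
def Forced (P : M) (A : M → Prop) : Prop := ∀ p, p ∈ P → A p

/-- `f` is a function with domain `a`. -/
def IsSeq (f a : M) : Prop :=
  (∀ z, z ∈ f → ∃ x, x ∈ a ∧ ∃ y, z = opair x y) ∧ ∀ x, x ∈ a → ∃! y, opair x y ∈ f

/-- The restriction of the function `p` to `a`. -/
noncomputable def res (p a : M) : M := sep p (fun z => ∃ x, x ∈ a ∧ ∃ y, z = opair x y)

/-- Ordinals: transitive sets of transitive sets. -/
def Ord (x : M) : Prop := Trans x ∧ ∀ y, y ∈ x → Trans y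

/-- `⟨P_α, R_α, Q_β, S_β, o_β : α ≤ δ, β < δ⟩` is a finite support iteration of length `δ`: the
`P_β`-names `Q_β, S_β, o_β` name a forcing notion with order `S_β` and maximum `o_β`, the set `N_β`
consists of `P_β`-names for elements of `Q_β`, contains `o_β`, and contains every such name up to
forced equality, and the forcing notion `(P_α, R_α)` consists of the functions `p` on `α` with
`p(β) ∈ N_β` and finite support, ordered by: `q ≤ p` iff `q ↾ β ⊩ q(β) ≤ p(β)` for all `β < α`. -/
structure IsIteration (δ P R Q S o N : M) : Prop where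
  ord : Ord δ
  seqP : IsSeq P (succ δ)
  seqR : IsSeq R (succ δ)
  seqQ : IsSeq Q δ
  seqS : IsSeq S δ
  seqo : IsSeq o δ
  seqN : IsSeq N δ
  forcing : ∀ β, β ∈ δ → Forced (ap P β)
    ((forc (ap P β) (ap R β)).isForcing (ap Q β) (ap S β) (ap o β))
  top_mem : ∀ β, β ∈ δ → ap o β ∈ ap N β
  names : ∀ β, β ∈ δ → ∀ x, x ∈ ap N β →
    Forced (ap P β) ((forc (ap P β) (ap R β)).mem x (ap Q β))
  full : ∀ β, β ∈ δ → ∀ x, Forced (ap P β) ((forc (ap P β) (ap R β)).mem x (ap Q β)) →
    ∃ y, y ∈ ap N β ∧ Forced (ap P β) ((forc (ap P β) (ap R β)).eq x y)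
  cond : ∀ α, α ∈ succ δ → ∀ p, p ∈ ap P α ↔
    IsSeq p α ∧ (∀ β, β ∈ α → ap p β ∈ ap N β) ∧ FinM (sep α (fun β => ap p β ≠ ap o β))
  order : ∀ α, α ∈ succ δ → ∀ z, z ∈ ap R α ↔ ∃ q p, z = opair q p ∧ q ∈ ap P α ∧ p ∈ ap P α ∧
    ∀ β, β ∈ α → (forc (ap P β) (ap R β)).rel (ap S β) (ap q β) (ap p β) (res q β)

variable (M)

/-- The principle of dependent choices. -/
def DC : Prop := ∀ X R : M, X ≠ emp → (∀ x, x ∈ X → ∃ y, y ∈ X ∧ opair x y ∈ R) →
  ∃ f, Fun f omega X ∧ ∀ n, n ∈ (omega : M) → opair (ap f n) (ap f (succ n)) ∈ R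

/-- The statement `IT_i` in the model `M` (with `i` numbered from `0`): if all the iterands of a
finite support iteration are forced to satisfy `ccc_i`, then so does the whole iteration. -/
def IT (i : Fin 3) : Prop := ∀ δ P R Q S o N : M, IsIteration δ P R Q S o N →
  (∀ β, β ∈ δ → Forced (ap P β) ((forc (ap P β) (ap R β)).ccc i (ap Q β) (ap S β))) →
  (std (M := M)).ccc i (ap P δ) (ap R δ)

end Pool.Agent.ZFIter
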