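import Pool.Agent.ZFIter.Defs

/-! # Definability of the forcing relation -/

universe u v

namespace Pool.Agent.ZFIter

open Pool.Agent.H78.ZF

variable {M : Type u} [ZFM M] {ι : Type}

instance DR.Le (P R q p : (ι → M) → M) [DF P] [DF R] [DF q] [DF p] :
    DR (fun v => Le (P v) (R v) (q v) (p v)) := by
  unfold ZFIter.Le
  infer_instance

/-- Half of the clause for equality. -/
def Half1 (P R W p x y : M) : Prop :=
  ∀ z s, opair z s ∈ x → ∀ q, Le P R q p → Le P R q s →
    ∃ r, Le P R r q ∧ ∃ w t, opair w t ∈ y ∧ Le P R r t ∧ opair r (opair z w) ∈ W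

/-- The other half of the clause for equality. -/
def Half2 (P R W p x y : M) : Prop :=
  ∀ w t, opair w t ∈ y → ∀ q, Le P R q p → Le P R q t →
    ∃ r, Le P R r q ∧ ∃ z s, opair z s ∈ x ∧ Le P R r s ∧ opair r (opair z w) ∈ W

instance DR.Half1 (P R W p x y : (ι → M) → M) [DF P] [DF R] [DF W] [DF p] [DF x] [DF y] :
    DR (fun v => Half1 (P v) (R v) (W v) (p v) (x v) (y v)) := by
  unfold ZFIter.Half1
  infer_instance

instance DR.Half2 (P R W p x y : (ι → M) → M) [DF P] [DF R] [DF W] [DF p] [DF x] [DF y] :
    DR (fun v => Half2 (P v) (R v) (W v) (p v) (x v) (y v)) := by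
  unfold ZFIter.Half2
  infer_instance

theorem FEq_def (P R p x y : M) : FEq P R p x y ↔ ∃ W : M, opair p (opair x y) ∈ W ∧
    ∀ q a b, opair q (opair a b) ∈ W → Half1 P R W q a b ∧ Half2 P R W q a b := Iff.rfl

instance DR.FEq (P R p x y : (ι → M) → M) [DF P] [DF R] [DF p] [DF x] [DF y] :
    DR (fun v => FEq (P v) (R v) (p v) (x v) (y v)) := by
  simp only [FEq_def]
  infer_instance

instance DR.FMem (P R p x y : (ι → M) → M) [DF P] [DF R] [DF p] [DF x] [DF y] :
    DR (fun v => FMem (P v) (R v) (p v) (x v) (y v)) := by
  unfold ZFIter.FMem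
  infer_instance

section conn

variable (P R p : (ι → M) → M) [DF P] [DF R] [DF p]

instance DR.fmem (x y : (ι → M) → M) [DF x] [DF y] :
    DR (fun v => (forc (P v) (R v)).mem (x v) (y v) (p v)) := by
  simp only [forc]
  infer_instance

instance DR.feq (x y : (ι → M) → M) [DF x] [DF y] :
    DR (fun v => (forc (P v) (R v)).eq (x v) (y v) (p v)) := by
  simp only [forc]
  infer_instance

instance DR.fand (A B : (ι → M) → M → Prop) [DR (fun v => A v (p v))] [DR (fun v => B v (p v))] :
    DR (fun v => (forc (P v) (R v)).and (A v) (B v) (p v)) := by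
  simp only [forc]
  infer_instance

instance DR.fall (A : (ι → M) → M → M → Prop)
    [h : DR (ι := Option ι) (fun v => A (fun i => v (some i)) (v none) (p (fun i => v (some i))))] :
    DR (fun v => (forc (P v) (R v)).all (A v) (p v)) := by
  simp only [forc]
  infer_instance

instance DR.fimp (A B : (ι → M) → M → Prop)
    [h : DR (ι := Option ι) (fun v => A (fun i => v (some i)) (v none))]
    [h' : DR (ι := Option ι) (fun v => B (fun i => v (some i)) (v none))] :
    DR (fun v => (forc (P v) (R v)).imp (A v) (B v) (p v)) := by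
  simp only [forc]
  infer_instance

instance DR.fnot (A : (ι → M) → M → Prop)
    [h : DR (ι := Option ι) (fun v => A (fun i => v (some i)) (v none))] :
    DR (fun v => (forc (P v) (R v)).not (A v) (p v)) := by
  simp only [forc]
  infer_instance

instance DR.for' (A B : (ι → M) → M → Prop)
    [h : DR (ι := Option (Option ι)) (fun v => A (fun i => v (some (some i))) (v none))]
    [h' : DR (ι := Option (Option ι)) (fun v => B (fun i => v (some (some i))) (v none))] :
    DR (fun v => (forc (P v) (R v)).or (A v) (B v) (p v)) := by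
  simp only [forc]
  infer_instance

instance DR.fex (A : (ι → M) → M → M → Prop)
    [h : DR (ι := Option (Option (Option ι))) (fun v => A (fun i => v (some (some (some i)))) (v none) (v (some none)))] :
    DR (fun v => (forc (P v) (R v)).ex (A v) (p v)) := by
  simp only [forc]
  infer_instance

instance DR.fiff (A B : (ι → M) → M → Prop)
    [h : DR (ι := Option ι) (fun v => A (fun i => v (some i)) (v none))]
    [h' : DR (ι := Option ι) (fun v => B (fun i => v (some i)) (v none))] :
    DR (fun v => (forc (P v) (R v)).iff (A v) (B v) (p v)) := by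
  unfold Interp.iff
  infer_instance

instance DR.fisUPair (z x y : (ι → M) → M) [DF z] [DF x] [DF y] :
    DR (fun v => (forc (P v) (R v)).isUPair (z v) (x v) (y v) (p v)) := by
  unfold Interp.isUPair
  infer_instance

instance DR.fisOPair (z x y : (ι → M) → M) [DF z] [DF x] [DF y] :
    DR (fun v => (forc (P v) (R v)).isOPair (z v) (x v) (y v) (p v)) := by
  unfold Interp.isOPair
  infer_instance

instance DR.frel (z x y : (ι → M) → M) [DF z] [DF x] [DF y] :
    DR (fun v => (forc (P v) (R v)).rel (z v) (x v) (y v) (p v)) := by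
  unfold Interp.rel
  infer_instance

instance DR.fsub (x y : (ι → M) → M) [DF x] [DF y] :
    DR (fun v => (forc (P v) (R v)).sub (x v) (y v) (p v)) := by
  unfold Interp.sub
  infer_instance

instance DR.fcompat (Q S x y : (ι → M) → M) [DF Q] [DF S] [DF x] [DF y] :
    DR (fun v => (forc (P v) (R v)).compat (Q v) (S v) (x v) (y v) (p v)) := by
  unfold Interp.compat
  infer_instance

instance DR.fpredense (Q S D : (ι → M) → M) [DF Q] [DF S] [DF D] :
    DR (fun v => (forc (P v) (R v)).predense (Q v) (S v) (D v) (p v)) := by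
  unfold Interp.predense
  infer_instance

end conn

end Pool.Agent.ZFIter
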