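import Pool.Agent.ZFIter.Flip
import Pool.Agent.ZFIter.Counter

set_option autoImplicit false

/-! # A model of ZF with a sequence of countable sets of reals without a choice function -/

namespace Pool.Agent.ZFIter

open Pool.Agent.ChoicelessEmb FirstOrder LName

open Pool.Agent.H78.ZF (LSet MemSymb structOf IsZFModel ZFM)

section model

variable {X : Set (LName Cn)} {g : Set Cn}

/-- The properties of `X` and `g` which are used. -/
structure Setup (X : Set (LName Cn)) (g : Set Cn) : Prop where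
  start : startN ⊆ X
  op : OpClosed FS X
  ag : AtomGen X g
  fg : FGen (Fset Cn) (HSset FS) X g

variable (hX : Setup X g)

include hX

theorem Setup.yN_mem (n : ℕ) (a : Ix) : yN n a ∈ X :=
  hX.start (Or.inl (Or.inl (Or.inl (Or.inl (Or.inl ⟨(n, a), rfl⟩)))))

theorem Setup.XN_mem (n : ℕ) : XN n ∈ X :=
  hX.start (Or.inl (Or.inl (Or.inl (Or.inl (Or.inr ⟨n, rfl⟩)))))

theorem Setup.EN_mem (n : ℕ) : EN n ∈ X :=
  hX.start (Or.inl (Or.inl (Or.inl (Or.inr ⟨n, rfl⟩))))

theorem Setup.FN_mem : FN ∈ X := hX.start (Or.inl (Or.inl (Or.inr rfl)))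

theorem Setup.nat_mem (n : ℕ) : checkN (natZ n) ∈ X := hX.start (Or.inl (Or.inr ⟨n, rfl⟩))

theorem Setup.omega_mem : checkN omegaZ ∈ X := hX.start (Or.inr rfl)

omit hX in
theorem mem_omegaZ {x : ZFSet.{0}} : x ∈ omegaZ ↔ ∃ n, natZ n = x := ZFSet.mem_range

omit hX in
/-- The transitive set of the natural numbers and `ω`. -/
def ZZ : Set ZFSet.{0} := {x | x = omegaZ ∨ ∃ n, x = natZ n}

theorem Setup.val_check {z : ZFSet.{0}} (hz : z ∈ ZZ) : val X g (checkN z) = z := by
  refine val_checkN hX.ag.fil (Z := ZZ) ?_ ?_ z hz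
  · rintro x (rfl | ⟨n, rfl⟩) y hy
    · obtain ⟨n, rfl⟩ := mem_omegaZ.1 hy
      exact Or.inr ⟨n, rfl⟩
    · obtain ⟨m, _, rfl⟩ := mem_natZ.1 hy
      exact Or.inr ⟨m, rfl⟩
  · rintro x (rfl | ⟨n, rfl⟩)
    · exact hX.omega_mem
    · exact hX.nat_mem n

theorem Setup.val_nat (n : ℕ) : val X g (checkN (natZ n)) = natZ n :=
  hX.val_check (Or.inr ⟨n, rfl⟩)

theorem Setup.val_omega : val X g (checkN omegaZ) = omegaZ := hX.val_check (Or.inl rfl)

omit hX in
/-- The real with index `(n, a)`. -/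
noncomputable def yV (X : Set (LName Cn)) (g : Set Cn) (n : ℕ) (a : Ix) : ZFSet.{0} :=
  val X g (yN n a)

theorem Setup.mem_yV {n : ℕ} {a : Ix} {v : ZFSet.{0}} : v ∈ yV X g n a ↔
    v = natZ 1 ∨ ∃ k : ℕ, v = natZ (k + 2) ∧ single (n, k) (Tri.bit (!(a.1 k))) ∈ g := by
  unfold yV
  rw [mem_val]
  constructor
  · rintro ⟨u, c, hu, _, hc, rfl⟩
    rw [mem_ch_yN] at hu
    rcases hu with ⟨rfl, rfl⟩ | ⟨k, rfl, rfl⟩
    · exact Or.inl (hX.val_nat 1)
    · exact Or.inr ⟨k, hX.val_nat _, hc⟩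
  · rintro (rfl | ⟨k, rfl, hk⟩)
    · exact ⟨_, _, mem_ch_yN.2 (Or.inl ⟨rfl, rfl⟩), hX.nat_mem 1, hX.ag.fil.top_mem,
        (hX.val_nat 1).symm⟩
    · exact ⟨_, _, mem_ch_yN.2 (Or.inr ⟨k, rfl, rfl⟩), hX.nat_mem _, hk, (hX.val_nat _).symm⟩

theorem Setup.mem_yV_nat {n : ℕ} {a : Ix} {k : ℕ} : natZ (k + 2) ∈ yV X g n a ↔
    single (n, k) (Tri.bit (!(a.1 k))) ∈ g := by
  rw [hX.mem_yV]
  constructor
  · rintro (h | ⟨j, h, hj⟩)
    · have := natZ_injective h
      omega
    · have := natZ_injective h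
      have e : k = j := by omega
      subst e
      exact hj
  · intro h
    exact Or.inr ⟨k, rfl, h⟩

/-- Each bit is decided by the generic filter. -/
theorem Setup.decided (n k : ℕ) : ∃ b, single (n, k) (Tri.bit b) ∈ g := by
  let a0 : Ix := ⟨fun _ => false, by simp⟩
  rcases hX.ag.g1 (checkN (natZ (k + 2))) (hX.nat_mem _) (yN n a0) (hX.yN_mem n a0) with
    ⟨r, hr, w, d, hwd, hrd, hE⟩ | ⟨p, hp, h⟩
  · have hw : w ∈ X := by
      rw [mem_ch_yN] at hwd
      rcases hwd with ⟨rfl, _⟩ | ⟨j, rfl, _⟩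
      · exact hX.nat_mem 1
      · exact hX.nat_mem _
    have h1 : val X g (checkN (natZ (k + 2))) = val X g w :=
      (val_eq_iff hX.op.atom hX.ag (hX.nat_mem _) hw).2 ⟨r, hr, hE⟩
    rw [hX.val_nat] at h1
    rw [mem_ch_yN] at hwd
    rcases hwd with ⟨rfl, rfl⟩ | ⟨j, rfl, rfl⟩
    · rw [hX.val_nat] at h1
      have := natZ_injective h1
      omega
    · rw [hX.val_nat] at h1
      have := natZ_injective h1
      have e : k = j := by omega
      subst e
      exact ⟨_, hX.ag.fil.up _ _ hr hrd⟩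
  · by_cases htop : p.1 (n, k) = ⊤
    · exfalso
      let r : Cn := ⟨fun i => if i = (n, k) then Tri.bit true else p.1 i, by
        refine (p.2.union (Set.finite_singleton (n, k))).subset ?_
        intro i hi
        simp only [Set.mem_ofPred_eq] at hi
        by_cases h : i = (n, k)
        · exact Or.inr h
        · rw [if_neg h] at hi
          exact Or.inl hi⟩
      have hrp : r ≤ p := by
        intro i
        change (if i = (n, k) then Tri.bit true else p.1 i) ≤ p.1 i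
        split_ifs with h
        · rw [h, htop]; exact le_top
        · exact le_rfl
      refine h r hrp ⟨checkN (natZ (k + 2)), single (n, k) (Tri.bit (!(a0.1 k))),
        mem_ch_yN.2 (Or.inr ⟨k, rfl, rfl⟩), ?_, LName.feq_refl _ _⟩
      rw [le_single]
      change (if (n, k) = (n, k) then Tri.bit true else p.1 (n, k)) ≤ _
      rw [if_pos rfl]
      exact le_rfl
    · cases hb : p.1 (n, k) with
      | top => exact absurd hb htop
      | bit b =>
        refine ⟨b, hX.ag.fil.up _ _ hp ?_⟩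
        rw [le_single, hb]

theorem Setup.bit_unique {n k : ℕ} {b c : Bool} (hb : single (n, k) (Tri.bit b) ∈ g)
    (hc : single (n, k) (Tri.bit c) ∈ g) : b = c := by
  obtain ⟨r, _, h1, h2⟩ := hX.ag.fil.dir _ _ hb hc
  rw [le_single] at h1 h2
  rcases h1 with h1 | h1
  · simp at h1
  · rcases h2 with h2 | h2
    · simp at h2
    · rw [h1] at h2
      simpa using h2

/-- Distinct indices give distinct reals. -/
theorem Setup.yV_inj {n : ℕ} {a b : Ix} (h : yV X g n a = yV X g n b) : a = b := by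
  apply Subtype.ext
  funext k
  obtain ⟨c, hc⟩ := hX.decided n k
  by_contra hne
  have key : ∀ a b : Ix, yV X g n a = yV X g n b → a.1 k = !c → b.1 k = !c := by
    intro a b h ha
    have h1 : natZ (k + 2) ∈ yV X g n a := by
      rw [hX.mem_yV_nat, ha]
      simpa using hc
    rw [h, hX.mem_yV_nat] at h1
    have := hX.bit_unique h1 hc
    rw [← this]
    simp
  cases h1 : a.1 k <;> cases h2 : b.1 k <;> cases c
  · exact hne (by rw [h1, h2])
  · exact hne (by rw [h1, h2])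
  · have := key b a h.symm (by simp [h2])
    simp [h1] at this
  · have := key a b h (by simp [h1])
    simp [h2] at this
  · have := key a b h (by simp [h1])
    simp [h2] at this
  · have := key b a h.symm (by simp [h2])
    simp [h1] at this
  · exact hne (by rw [h1, h2])
  · exact hne (by rw [h1, h2])

theorem Setup.mem_val_XN {n : ℕ} {v : ZFSet.{0}} :
    v ∈ val X g (XN n) ↔ ∃ a, v = yV X g n a := by
  rw [mem_val]
  constructor
  · rintro ⟨u, c, hu, _, _, rfl⟩
    obtain ⟨a, rfl, rfl⟩ := mem_ch_XN.1 hu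
    exact ⟨a, rfl⟩
  · rintro ⟨a, rfl⟩
    exact ⟨_, _, mem_ch_XN.2 ⟨a, rfl, rfl⟩, hX.yN_mem n a, hX.ag.fil.top_mem, rfl⟩

theorem Setup.opairN_mem {x y : LName Cn} (hx : x ∈ X) (hy : y ∈ X) : opairN x y ∈ X :=
  hX.op.pair _ (hX.op.pair _ hx _ hx) _ (hX.op.pair _ hx _ hy)

theorem Setup.val_opair {x y : LName Cn} (hx : x ∈ X) (hy : y ∈ X) :
    val X g (opairN x y) = ZFSet.pair (val X g x) (val X g y) :=
  val_opairN hX.ag.fil hX.op.pair hx hy

theorem Setup.mem_val_FN {v : ZFSet.{0}} :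
    v ∈ val X g FN ↔ ∃ n, v = ZFSet.pair (natZ n) (val X g (XN n)) := by
  rw [mem_val]
  constructor
  · rintro ⟨u, c, hu, _, _, rfl⟩
    obtain ⟨n, rfl, rfl⟩ := mem_ch_FN.1 hu
    exact ⟨n, by rw [hX.val_opair (hX.nat_mem n) (hX.XN_mem n), hX.val_nat]⟩
  · rintro ⟨n, rfl⟩
    exact ⟨_, _, mem_ch_FN.2 ⟨n, rfl, rfl⟩, hX.opairN_mem (hX.nat_mem n) (hX.XN_mem n),
      hX.ag.fil.top_mem, by rw [hX.val_opair (hX.nat_mem n) (hX.XN_mem n), hX.val_nat]⟩

theorem Setup.mem_val_EN {n : ℕ} {v : ZFSet.{0}} : v ∈ val X g (EN n) ↔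
    ∃ a, v = ZFSet.pair (yV X g n a) (natZ (codeI a)) := by
  rw [mem_val]
  constructor
  · rintro ⟨u, c, hu, _, _, rfl⟩
    obtain ⟨a, rfl, rfl⟩ := mem_ch_EN.1 hu
    exact ⟨a, by rw [hX.val_opair (hX.yN_mem n a) (hX.nat_mem _), hX.val_nat]; rfl⟩
  · rintro ⟨a, rfl⟩
    exact ⟨_, _, mem_ch_EN.2 ⟨a, rfl, rfl⟩, hX.opairN_mem (hX.yN_mem n a) (hX.nat_mem _),
      hX.ag.fil.top_mem, by rw [hX.val_opair (hX.yN_mem n a) (hX.nat_mem _), hX.val_nat]; rfl⟩

/-- No function in the model chooses from all the blocks. -/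
theorem Setup.no_choice {f : LName Cn} (hf : f ∈ X)
    (hch : ∀ n, ∃ a, ZFSet.pair (natZ n) (yV X g n a) ∈ val X g f)
    (hfun : ∀ n a b, ZFSet.pair (natZ n) (yV X g n a) ∈ val X g f →
      ZFSet.pair (natZ n) (yV X g n b) ∈ val X g f → yV X g n a = yV X g n b) : False := by
  obtain ⟨m, hm⟩ := (hX.op.form.sub hf).supp
  obtain ⟨a, ha⟩ := hch m
  have hpX : ∀ a, opairN (checkN (natZ m)) (yN m a) ∈ X := fun a =>
    hX.opairN_mem (hX.nat_mem m) (hX.yN_mem m a)
  have hval : ∀ a, val X g (opairN (checkN (natZ m)) (yN m a)) =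
      ZFSet.pair (natZ m) (yV X g m a) := fun a => by
    rw [hX.val_opair (hX.nat_mem m) (hX.yN_mem m a), hX.val_nat]; rfl
  rw [← hval, val_mem_iff hX.op.atom hX.ag (hpX a) hf] at ha
  obtain ⟨p, hp, hfm⟩ := ha
  -- a bit of the block `m` which is not decided by `p`
  obtain ⟨k, hk⟩ : ∃ k, p.1 (m, k) = ⊤ := by
    have h1 : (Set.range fun k : ℕ => (m, k)).Infinite :=
      Set.infinite_range_of_injective fun i j h => by simpa using h
    obtain ⟨i, ⟨k, rfl⟩, hi⟩ := (h1.sdiff p.2).nonempty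
    simp only [Set.mem_ofPred_eq, not_not] at hi
    exact ⟨k, hi⟩
  let γ : FS.G := ⟨fun i => decide (i = (m, k)), fun n => by
    refine (Set.finite_singleton k).subset ?_
    intro j hj
    simp only [Set.mem_ofPred_eq, decide_eq_true_eq, Prod.mk.injEq] at hj
    exact hj.2⟩
  have hγK : γ ∈ FS.K m := by
    intro j hj i
    have : (j, i) ≠ (m, k) := fun h => by
      have := congrArg Prod.fst h
      simp only at this
      omega
    exact decide_eq_false this
  have hγp : FS.act γ p = p := by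
    apply Cond.ext'
    intro i
    change flipT (decide (i = (m, k))) (p.1 i) = p.1 i
    by_cases h : i = (m, k)
    · rw [h, hk]; rfl
    · rw [decide_eq_false h, flipT_false]
  have h2 : fmem (LName.map (FS.act γ) (opairN (checkN (natZ m)) (yN m a)))
      (LName.map (FS.act γ) f) (FS.act γ p) := (fmem_map (FS.act γ)).2 hfm
  have h3 : LName.map (FS.act γ) f = f := hm γ hγK
  have h4 : LName.map (FS.act γ) (opairN (checkN (natZ m)) (yN m a)) =
      opairN (checkN (natZ m)) (yN m (shiftI γ m a)) := by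
    have := nact_opairN (S := FS) γ (checkN (natZ m)) (yN m a)
    rw [nact_checkN, nact_yN] at this
    exact this
  rw [h3, h4, hγp] at h2
  have h5 := (val_mem_iff hX.op.atom hX.ag (hpX (shiftI γ m a)) hf).2 ⟨p, hp, h2⟩
  have h6 := (val_mem_iff hX.op.atom hX.ag (hpX a) hf).2 ⟨p, hp, hfm⟩
  rw [hval] at h5 h6
  have h7 := hX.yV_inj (hfun m _ _ h6 h5)
  have h8 : a.1 k = xor (a.1 k) (decide ((m, k) = (m, k))) := congrFun (congrArg Subtype.val h7) k
  simp at h8

end model

end Pool.Agent.ZFIter
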