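import Pool.Agent.ChoicelessEmb.Cond
import Pool.Agent.ChoicelessEmb.Ground
import Pool.Agent.ZFIter.SymExist

set_option autoImplicit false

/-! # The symmetric system of finite flips -/

namespace Pool.Agent.ZFIter

open Pool.Agent.ChoicelessEmb FirstOrder LName

/-- Either undefined or a bit. -/
inductive Tri
  | top : Tri
  | bit (b : Bool) : Tri
  deriving DecidableEq

instance : LE Tri := ⟨fun x y => y = Tri.top ∨ x = y⟩

theorem tri_le {x y : Tri} : x ≤ y ↔ y = Tri.top ∨ x = y := Iff.rfl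

instance : PartialOrder Tri where
  le_refl x := Or.inr rfl
  le_trans x y z h h' := by
    rw [tri_le] at *
    rcases h' with h' | h'
    · exact Or.inl h'
    · subst h'; exact h
  le_antisymm x y h h' := by
    rw [tri_le] at *
    rcases h with h | h
    · rcases h' with h' | h'
      · rw [h, h']
      · exact h'.symm
    · exact h

instance : OrderTop Tri where
  top := Tri.top
  le_top x := Or.inl rfl

instance : Countable Tri := by
  have : Function.Surjective (fun o : Option Bool => match o with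
      | none => Tri.top
      | some b => Tri.bit b) := by
    rintro (_ | b)
    · exact ⟨none, rfl⟩
    · exact ⟨some b, rfl⟩
  exact this.countable

theorem tri_top : (⊤ : Tri) = Tri.top := rfl

/-- Flip a bit if `b` is true. -/
def flipT (b : Bool) : Tri → Tri
  | Tri.top => Tri.top
  | Tri.bit c => Tri.bit (xor c b)

theorem flipT_flipT (b : Bool) (x : Tri) : flipT b (flipT b x) = x := by
  cases x with
  | top => rfl
  | bit c => simp [flipT]

theorem flipT_comm (b c : Bool) (x : Tri) : flipT b (flipT c x) = flipT c (flipT b x) := by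
  cases x with
  | top => rfl
  | bit d => cases b <;> cases c <;> cases d <;> rfl

theorem flipT_false (x : Tri) : flipT false x = x := by
  cases x with
  | top => rfl
  | bit c => simp [flipT]

theorem flipT_xor (b c : Bool) (x : Tri) : flipT (xor b c) x = flipT b (flipT c x) := by
  cases x with
  | top => rfl
  | bit d => cases b <;> cases c <;> cases d <;> rfl

theorem flipT_top_iff {b : Bool} {x : Tri} : flipT b x = ⊤ ↔ x = ⊤ := by
  rw [tri_top]
  cases x with
  | top => simp [flipT]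
  | bit c => simp [flipT]

theorem flipT_mono {b : Bool} {x y : Tri} (h : x ≤ y) : flipT b x ≤ flipT b y := by
  rw [tri_le] at *
  rcases h with h | h
  · left; rw [h]; rfl
  · right; rw [h]

/-- The conditions: finite partial functions from `ℕ × ℕ` to the bits. -/
abbrev Cn : Type := Cond Tri (ℕ × ℕ)

/-- Flipping the bits of a condition. -/
def flipC (g : ℕ × ℕ → Bool) (p : Cn) : Cn :=
  ⟨fun i => flipT (g i) (p.1 i), by
    refine p.2.subset ?_
    intro i hi
    simp only [Set.mem_ofPred_eq, ne_eq, flipT_top_iff] at hi ⊢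
    exact hi⟩

@[simp] theorem flipC_apply (g : ℕ × ℕ → Bool) (p : Cn) (i : ℕ × ℕ) :
    (flipC g p).1 i = flipT (g i) (p.1 i) := rfl

/-- Flipping as an automorphism. -/
def flipIso (g : ℕ × ℕ → Bool) : Cn ≃o Cn where
  toFun := flipC g
  invFun := flipC g
  left_inv p := Cond.ext' fun i => by simp [flipT_flipT]
  right_inv p := Cond.ext' fun i => by simp [flipT_flipT]
  map_rel_iff' := by
    intro p q
    constructor
    · intro h i
      have := flipT_mono (b := g i) (h i)
      simpa [flipT_flipT] using this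
    · intro h i
      exact flipT_mono (h i)

@[simp] theorem flipIso_apply (g : ℕ × ℕ → Bool) (p : Cn) (i : ℕ × ℕ) :
    (flipIso g p).1 i = flipT (g i) (p.1 i) := rfl

/-- The symmetric system of the flips which are finite in each block. -/
def FS : SymSys Cn where
  G := {g : ℕ × ℕ → Bool // ∀ n, {k | g (n, k) = true}.Finite}
  act g := flipIso g.1
  K n := {g | ∀ m < n, ∀ k, g.1 (m, k) = false}
  mono := by
    intro n m h g hg j hj k
    exact hg j (hj.trans_le h) k
  one := ⟨fun _ => false, fun n => by simp⟩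
  act_one p := Cond.ext' fun i => by simp [flipT_false]
  mul g h := ⟨fun i => xor (g.1 i) (h.1 i), fun n => by
    refine ((g.2 n).union (h.2 n)).subset ?_
    intro k hk
    simp only [Set.mem_ofPred_eq, Set.mem_union] at hk ⊢
    cases h1 : g.1 (n, k) <;> cases h2 : h.1 (n, k) <;> simp_all⟩
  act_mul g h p := Cond.ext' fun i => by simp [flipT_xor]
  invol g p := Cond.ext' fun i => by simp [flipT_flipT]
  comm g h p := Cond.ext' fun i => by
    simp only [flipIso_apply]
    exact flipT_comm _ _ _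

theorem FS_act_single (g : FS.G) (i : ℕ × ℕ) (t : Tri) :
    FS.act g (single i t) = single i (flipT (g.1 i) t) := by
  apply Cond.ext'
  intro k
  change flipT (g.1 k) ((single i t : Cn).1 k) = _
  by_cases h : k = i
  · subst h; simp
  · rw [single_ne h, single_ne h]; rfl

/-- Index set of the members of a block. -/
abbrev Ix : Type := {a : ℕ → Bool // {k | a k = true}.Finite}

instance : Countable Ix := by
  have : Function.Injective (fun a : Ix => a.2.toFinset) := by
    intro a b h
    apply Subtype.ext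
    funext k
    have h1 : k ∈ a.2.toFinset ↔ k ∈ b.2.toFinset := by rw [show a.2.toFinset = b.2.toFinset from h]
    simp only [Set.Finite.mem_toFinset, Set.mem_ofPred_eq] at h1
    cases h2 : a.1 k <;> cases h3 : b.1 k <;> simp_all
  exact this.countable

/-- The action of the flips on the indices of the block `n`. -/
def shiftI (g : FS.G) (n : ℕ) (a : Ix) : Ix :=
  ⟨fun k => xor (a.1 k) (g.1 (n, k)), by
    refine (a.2.union (g.2 n)).subset ?_
    intro k hk
    simp only [Set.mem_ofPred_eq, Set.mem_union] at hk ⊢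
    cases h1 : a.1 k <;> cases h2 : g.1 (n, k) <;> simp_all⟩

theorem shiftI_shiftI (g : FS.G) (n : ℕ) (a : Ix) : shiftI g n (shiftI g n a) = a := by
  apply Subtype.ext
  funext k
  simp [shiftI]

theorem shiftI_fix {g : FS.G} {n : ℕ} (hg : g ∈ FS.K (n + 1)) (a : Ix) : shiftI g n a = a := by
  apply Subtype.ext
  funext k
  simp [shiftI, hg n (Nat.lt_succ_self n) k]

/-! ### The names -/

/-- The name of the real with index `(n, a)`. -/
noncomputable def yN (n : ℕ) (a : Ix) : LName Cn :=
  LName.mk {x | x = (checkN (natZ 1), ⊤) ∨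
    ∃ k : ℕ, x = (checkN (natZ (k + 2)), single (n, k) (Tri.bit (!(a.1 k))))}

theorem mem_ch_yN {n : ℕ} {a : Ix} {u : LName Cn} {c : Cn} : (u, c) ∈ ch (yN n a) ↔
    (u = checkN (natZ 1) ∧ c = ⊤) ∨
      ∃ k : ℕ, u = checkN (natZ (k + 2)) ∧ c = single (n, k) (Tri.bit (!(a.1 k))) := by
  have : Small.{0} {x : LName Cn × Cn | x = (checkN (natZ 1), ⊤) ∨
    ∃ k : ℕ, x = (checkN (natZ (k + 2)), single (n, k) (Tri.bit (!(a.1 k))))} := by
    apply smallR (fun o : Option ℕ => match o with
      | none => ((checkN (natZ 1), ⊤) : LName Cn × Cn)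
      | some k => (checkN (natZ (k + 2)), single (n, k) (Tri.bit (!(a.1 k)))))
    rintro x (rfl | ⟨k, rfl⟩)
    · exact ⟨none, rfl⟩
    · exact ⟨some k, rfl⟩
  unfold yN
  rw [ch_mk]
  simp only [Set.mem_ofPred_eq, Prod.mk.injEq]

theorem nact_yN (g : FS.G) (n : ℕ) (a : Ix) : nact FS g (yN n a) = yN n (shiftI g n a) := by
  apply LName.ext
  ext ⟨v, d⟩
  rw [mem_ch_nact, mem_ch_yN]
  have key : ∀ (a : Ix) (k : ℕ), flipT (g.1 (n, k)) (Tri.bit (!(a.1 k))) =
      Tri.bit (!((shiftI g n a).1 k)) := by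
    intro a k
    change Tri.bit (xor (!(a.1 k)) (g.1 (n, k))) = Tri.bit (!(xor (a.1 k) (g.1 (n, k))))
    cases a.1 k <;> cases g.1 (n, k) <;> rfl
  constructor
  · rintro ⟨u, c, hu, rfl, rfl⟩
    rw [mem_ch_yN] at hu
    rcases hu with ⟨rfl, rfl⟩ | ⟨k, rfl, rfl⟩
    · exact Or.inl ⟨nact_checkN g _, act_top FS g⟩
    · refine Or.inr ⟨k, nact_checkN g _, ?_⟩
      rw [FS_act_single, key]
  · rintro (⟨rfl, rfl⟩ | ⟨k, rfl, rfl⟩)
    · exact ⟨_, _, mem_ch_yN.2 (Or.inl ⟨rfl, rfl⟩), (nact_checkN g _).symm, (act_top FS g).symm⟩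
    · refine ⟨_, _, mem_ch_yN.2 (Or.inr ⟨k, rfl, rfl⟩), (nact_checkN g _).symm, ?_⟩
      rw [FS_act_single, key]

theorem HS_yN (n : ℕ) (a : Ix) : HS FS (yN n a) := by
  refine HS.intro _ (n + 1) ?_ ?_
  · intro g hg
    rw [nact_yN, shiftI_fix hg]
  · intro u c hu
    rw [mem_ch_yN] at hu
    rcases hu with ⟨rfl, _⟩ | ⟨k, rfl, _⟩
    · exact HS_checkN _
    · exact HS_checkN _

/-- The name of the `n`-th block. -/
noncomputable def XN (n : ℕ) : LName Cn := LName.mk {x | ∃ a : Ix, x = (yN n a, ⊤)}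

theorem mem_ch_XN {n : ℕ} {u : LName Cn} {c : Cn} :
    (u, c) ∈ ch (XN n) ↔ ∃ a : Ix, u = yN n a ∧ c = ⊤ := by
  have : Small.{0} {x : LName Cn × Cn | ∃ a : Ix, x = (yN n a, ⊤)} := by
    apply smallR (fun a : Ix => ((yN n a, ⊤) : LName Cn × Cn))
    rintro x ⟨a, rfl⟩
    exact ⟨a, rfl⟩
  unfold XN
  rw [ch_mk]
  simp only [Set.mem_ofPred_eq, Prod.mk.injEq]

theorem nact_XN (g : FS.G) (n : ℕ) : nact FS g (XN n) = XN n := by
  apply LName.ext
  ext ⟨v, d⟩
  rw [mem_ch_nact, mem_ch_XN]
  constructor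
  · rintro ⟨u, c, hu, rfl, rfl⟩
    obtain ⟨a, rfl, rfl⟩ := mem_ch_XN.1 hu
    exact ⟨shiftI g n a, nact_yN g n a, act_top FS g⟩
  · rintro ⟨a, rfl, rfl⟩
    refine ⟨yN n (shiftI g n a), ⊤, mem_ch_XN.2 ⟨_, rfl, rfl⟩, ?_, (act_top FS g).symm⟩
    rw [nact_yN, shiftI_shiftI]

theorem HS_XN (n : ℕ) : HS FS (XN n) := by
  refine HS.intro _ 0 (fun g _ => nact_XN g n) ?_
  intro u c hu
  obtain ⟨a, rfl, rfl⟩ := mem_ch_XN.1 hu
  exact HS_yN n a

/-- The name of the sequence of the blocks. -/
noncomputable def FN : LName Cn :=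
  LName.mk {x | ∃ n : ℕ, x = (opairN (checkN (natZ n)) (XN n), ⊤)}

theorem mem_ch_FN {u : LName Cn} {c : Cn} :
    (u, c) ∈ ch FN ↔ ∃ n : ℕ, u = opairN (checkN (natZ n)) (XN n) ∧ c = ⊤ := by
  have : Small.{0} {x : LName Cn × Cn | ∃ n : ℕ, x = (opairN (checkN (natZ n)) (XN n), ⊤)} := by
    apply smallR (fun n : ℕ => ((opairN (checkN (natZ n)) (XN n), ⊤) : LName Cn × Cn))
    rintro x ⟨a, rfl⟩
    exact ⟨a, rfl⟩
  unfold FN
  rw [ch_mk]
  simp only [Set.mem_ofPred_eq, Prod.mk.injEq]

theorem HS_FN : HS FS FN := by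
  refine HS.intro _ 0 ?_ ?_
  · apply supp_of
    intro g _ u c hu
    obtain ⟨n, rfl, rfl⟩ := mem_ch_FN.1 hu
    rw [mem_ch_FN]
    exact ⟨n, by rw [nact_opairN, nact_checkN, nact_XN], act_top FS g⟩
  · intro u c hu
    obtain ⟨n, rfl, rfl⟩ := mem_ch_FN.1 hu
    exact HS_opairN (HS_checkN _) (HS_XN n)

/-- An injective coding of the indices. -/
noncomputable def codeI : Ix → ℕ := (exists_injective_nat Ix).choose

theorem codeI_inj : Function.Injective codeI := (exists_injective_nat Ix).choose_spec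

/-- The name of an injection of the `n`-th block into `ω`. -/
noncomputable def EN (n : ℕ) : LName Cn :=
  LName.mk {x | ∃ a : Ix, x = (opairN (yN n a) (checkN (natZ (codeI a))), ⊤)}

theorem mem_ch_EN {n : ℕ} {u : LName Cn} {c : Cn} : (u, c) ∈ ch (EN n) ↔
    ∃ a : Ix, u = opairN (yN n a) (checkN (natZ (codeI a))) ∧ c = ⊤ := by
  have : Small.{0} {x : LName Cn × Cn |
      ∃ a : Ix, x = (opairN (yN n a) (checkN (natZ (codeI a))), ⊤)} := by
    apply smallR (fun a : Ix =>
      ((opairN (yN n a) (checkN (natZ (codeI a))), ⊤) : LName Cn × Cn))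
    rintro x ⟨a, rfl⟩
    exact ⟨a, rfl⟩
  unfold EN
  rw [ch_mk]
  simp only [Set.mem_ofPred_eq, Prod.mk.injEq]

theorem HS_EN (n : ℕ) : HS FS (EN n) := by
  refine HS.intro _ (n + 1) ?_ ?_
  · apply supp_of
    intro g hg u c hu
    obtain ⟨a, rfl, rfl⟩ := mem_ch_EN.1 hu
    rw [mem_ch_EN]
    exact ⟨a, by rw [nact_opairN, nact_checkN, nact_yN, shiftI_fix hg], act_top FS g⟩
  · intro u c hu
    obtain ⟨a, rfl, rfl⟩ := mem_ch_EN.1 hu
    exact HS_opairN (HS_yN n a) (HS_checkN _)

/-- The names put into the closed set. -/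
def startN : Set (LName Cn) :=
  (Set.range fun b : ℕ × Ix => yN b.1 b.2) ∪ (Set.range fun n => XN n) ∪
    (Set.range fun n => EN n) ∪ {FN} ∪ (Set.range fun n => checkN (natZ n)) ∪ {checkN omegaZ}

theorem startN_countable : startN.Countable := by
  unfold startN
  refine Set.Countable.union (Set.Countable.union (Set.Countable.union (Set.Countable.union
    (Set.Countable.union ?_ ?_) ?_) ?_) ?_) ?_
  · exact Set.countable_range _
  · exact Set.countable_range _
  · exact Set.countable_range _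
  · exact Set.countable_singleton _
  · exact Set.countable_range _
  · exact Set.countable_singleton _

theorem startN_HS : startN ⊆ HSset FS := by
  rintro x (((((⟨b, rfl⟩ | ⟨n, rfl⟩) | ⟨n, rfl⟩) | rfl) | ⟨n, rfl⟩) | rfl)
  · exact HS_yN _ _
  · exact HS_XN _
  · exact HS_EN _
  · exact HS_FN
  · exact HS_checkN _
  · exact HS_checkN _

end Pool.Agent.ZFIter
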