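import Pool.Agent.ZFIter.Seq

/-! # Basic properties of finite support iterations -/

universe u

namespace Pool.Agent.ZFIter

open Pool.Agent.H78.ZF

variable {M : Type u} [ZFM M] {ι : Type}

/-! ### Forcing notions and mixing of names -/

section forcing

variable {P R Q S o : M} [hP : Pre P R] {p q x y z : M}

omit hP in
theorem fforcing_refl (h : (forc P R).isForcing Q S o p) (hq : Le P R q p)
    (hx : (forc P R).mem x Q q) : (forc P R).rel S x x q := (h.2.1 x q hq hx).1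

omit hP in
theorem fforcing_top (h : (forc P R).isForcing Q S o p) (hq : Le P R q p)
    (hx : (forc P R).mem x Q q) : (forc P R).rel S x o q := (h.2.1 x q hq hx).2

theorem fforcing_trans (h : (forc P R).isForcing Q S o p) (hq : Le P R q p)
    (hx : (forc P R).mem x Q q) (hy : (forc P R).mem y Q q) (hz : (forc P R).mem z Q q)
    (h1 : (forc P R).rel S x y q) (h2 : (forc P R).rel S y z q) : (forc P R).rel S x z q := by
  have hr := Pre.refl (R := R) hq.memL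
  exact h.2.2 x y z q hq hx q hr hy q hr hz q hr h1 q hr h2

/-- The name which equals `x` below `p` and `o` off `p`. -/
noncomputable def mix (P R p x o : M) : M :=
  sep (prod (tc (upair x o)) P) (fun w => ∃ z t, w = opair z t ∧
    ((Le P R t p ∧ ∃ s, opair z s ∈ x ∧ Le P R t s) ∨
      ((¬ ∃ r, Le P R r t ∧ Le P R r p) ∧ ∃ s, opair z s ∈ o ∧ Le P R t s)))

omit hP in
theorem mem_mix {t : M} : opair z t ∈ mix P R p x o ↔ t ∈ P ∧
    ((Le P R t p ∧ ∃ s, opair z s ∈ x ∧ Le P R t s) ∨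
      ((¬ ∃ r, Le P R r t ∧ Le P R r p) ∧ ∃ s, opair z s ∈ o ∧ Le P R t s)) := by
  unfold mix
  rw [mem_sep, opair_mem_prod]
  constructor
  · rintro ⟨⟨h1, h2⟩, z', t', e, h3⟩
    obtain ⟨rfl, rfl⟩ := opair_inj e
    exact ⟨h2, h3⟩
  · rintro ⟨h2, h3⟩
    refine ⟨⟨?_, h2⟩, z, t, rfl, h3⟩
    rcases h3 with ⟨_, s, hs, _⟩ | ⟨_, s, hs, _⟩
    · exact (trans_tc _).fst (sub_tc _ x (by simp)) hs
    · exact (trans_tc _).fst (sub_tc _ o (by simp)) hs

theorem feq_mix_left : FEq P R p (mix P R p x o) x := by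
  apply feq_ext
  · intro q z hq h r hr
    obtain ⟨r', hr', w, t, hw, ht, hE⟩ := h r hr
    rw [mem_mix] at hw
    rcases hw.2 with ⟨_, s, hs, hts⟩ | ⟨h2, _⟩
    · exact ⟨r', hr', w, s, hs, Pre.trans ht hts, hE⟩
    · exact absurd ⟨r', ht, Pre.trans hr' (Pre.trans hr hq)⟩ h2
  · intro q z hq h r hr
    obtain ⟨r', hr', w, t, hw, ht, hE⟩ := h r hr
    have hrp := Pre.trans hr' (Pre.trans hr hq)
    exact ⟨r', hr', w, r', mem_mix.2 ⟨hr'.memL, Or.inl ⟨hrp, t, hw, ht⟩⟩,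
      Pre.refl hr'.memL, hE⟩

theorem feq_mix_right (h : ¬ ∃ r, Le P R r q ∧ Le P R r p) : FEq P R q (mix P R p x o) o := by
  apply feq_ext
  · intro q' z hq hm r hr
    obtain ⟨r', hr', w, t, hw, ht, hE⟩ := hm r hr
    rw [mem_mix] at hw
    rcases hw.2 with ⟨h2, s, hs, hts⟩ | ⟨_, s, hs, hts⟩
    · exact absurd ⟨r', Pre.trans hr' (Pre.trans hr hq), Pre.trans ht h2⟩ h
    · exact ⟨r', hr', w, s, hs, Pre.trans ht hts, hE⟩
  · intro q' z hq hm r hr
    obtain ⟨r', hr', w, t, hw, ht, hE⟩ := hm r hr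
    have hrp := Pre.trans hr' (Pre.trans hr hq)
    refine ⟨r', hr', w, r', mem_mix.2 ⟨hr'.memL, Or.inr ⟨?_, t, hw, ht⟩⟩,
      Pre.refl hr'.memL, hE⟩
    rintro ⟨s, hs, hs'⟩
    exact h ⟨s, Pre.trans hs hrp, hs'⟩

/-- A set of names which contains all names of elements of `Q` up to forced equality also does
so below each condition. -/
theorem full_below {N : M} (ho : Forced P ((forc P R).mem o Q))
    (full : ∀ x, Forced P ((forc P R).mem x Q) → ∃ y, y ∈ N ∧ Forced P ((forc P R).eq x y))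
    (hp : p ∈ P) (hx : (forc P R).mem x Q p) : ∃ y, y ∈ N ∧ (forc P R).eq x y p := by
  obtain ⟨y, hy, hE⟩ := full (mix P R p x o) (by
    intro t ht
    refine (Good.fmem (P := P) (R := R) (mix P R p x o) Q).dense fun q hq => ?_
    by_cases h : ∃ r, Le P R r q ∧ Le P R r p
    · obtain ⟨r, hr, hrp⟩ := h
      refine ⟨r, hr, ?_⟩
      exact fmem_congrL (feq_symm (feq_mono feq_mix_left hrp)) (fmem_mono hx hrp)
    · refine ⟨q, Pre.refl hq.memL, ?_⟩
      exact fmem_congrL (feq_symm (feq_mix_right h)) (ho q hq.memL))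
  exact ⟨y, hy, feq_trans (feq_symm feq_mix_left) (hE p hp)⟩

end forcing

/-! ### Iterations -/

/-- The part of the definition of an iteration which is used in the arguments. -/
structure Core (δ P R Q S o N : M) : Prop where
  ord : Ord δ
  forcing : ∀ β, β ∈ δ → Forced (ap P β)
    ((forc (ap P β) (ap R β)).isForcing (ap Q β) (ap S β) (ap o β))
  top_mem : ∀ β, β ∈ δ → ap o β ∈ ap N β
  names : ∀ β, β ∈ δ → ∀ x, x ∈ ap N β →
    Forced (ap P β) ((forc (ap P β) (ap R β)).mem x (ap Q β))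
  full : ∀ β, β ∈ δ → ∀ x, Forced (ap P β) ((forc (ap P β) (ap R β)).mem x (ap Q β)) →
    ∃ y, y ∈ ap N β ∧ Forced (ap P β) ((forc (ap P β) (ap R β)).eq x y)
  cond : ∀ α, α ∈ succ δ → ∀ p, p ∈ ap P α ↔
    IsSeq p α ∧ (∀ β, β ∈ α → ap p β ∈ ap N β) ∧ FinM (sep α (fun β => ap p β ≠ ap o β))
  order : ∀ α, α ∈ succ δ → ∀ z, z ∈ ap R α ↔ ∃ q p, z = opair q p ∧ q ∈ ap P α ∧ p ∈ ap P α ∧
    ∀ β, β ∈ α → (forc (ap P β) (ap R β)).rel (ap S β) (ap q β) (ap p β) (res q β)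

theorem IsIteration.core {δ P R Q S o N : M} (h : IsIteration δ P R Q S o N) :
    Core δ P R Q S o N :=
  ⟨h.ord, h.forcing, h.top_mem, h.names, h.full, h.cond, h.order⟩

theorem mem_succ_self (x : M) : x ∈ succ x := by simp

section iter

variable {δ P R Q S o N : M} (h : Core δ P R Q S o N)

include h

theorem Core.ord_succ : Ord (succ δ) := h.ord.succ

theorem Core.ord_of {α : M} (hα : α ∈ succ δ) : Ord α := h.ord.succ.mem hα

theorem Core.lt {α β : M} (hα : α ∈ succ δ) (hβ : β ∈ α) : β ∈ δ := by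
  rw [mem_succ] at hα
  rcases hα with hα | rfl
  · exact h.ord.trans hβ hα
  · exact hβ

theorem Core.le {α γ : M} (hα : α ∈ succ δ) (hγ : γ ∈ succ α) : γ ∈ succ δ := by
  rw [mem_succ] at hγ
  rcases hγ with hγ | rfl
  · rw [mem_succ]; exact Or.inl (h.lt hα hγ)
  · exact hα

theorem Core.sub {α γ : M} (hα : α ∈ succ δ) (hγ : γ ∈ succ α) : γ ⊆ α := by
  rw [mem_succ] at hγ
  rcases hγ with hγ | rfl
  · exact (h.ord_of hα).1 γ hγ
  · exact sub_refl γ

omit h in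
theorem lt_succ_of_lt {α β : M} (hβ : β ∈ α) : β ∈ succ α := by rw [mem_succ]; exact Or.inl hβ

theorem Core.le_iff {α p q : M} (hα : α ∈ succ δ) : Le (ap P α) (ap R α) q p ↔
    q ∈ ap P α ∧ p ∈ ap P α ∧
    ∀ β, β ∈ α → (forc (ap P β) (ap R β)).rel (ap S β) (ap q β) (ap p β) (res q β) := by
  unfold Le
  rw [h.order α hα]
  constructor
  · rintro ⟨h1, h2, q', p', e, _, _, h3⟩
    obtain ⟨rfl, rfl⟩ := opair_inj e
    exact ⟨h1, h2, h3⟩
  · rintro ⟨h1, h2, h3⟩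
    exact ⟨h1, h2, q, p, rfl, h1, h2, h3⟩

theorem Core.seq {α p : M} (hα : α ∈ succ δ) (hp : p ∈ ap P α) : IsSeq p α :=
  ((h.cond α hα p).1 hp).1

theorem Core.ap_mem {α β p : M} (hα : α ∈ succ δ) (hp : p ∈ ap P α) (hβ : β ∈ α) :
    ap p β ∈ ap N β := ((h.cond α hα p).1 hp).2.1 β hβ

theorem Core.fin {α p : M} (hα : α ∈ succ δ) (hp : p ∈ ap P α) :
    FinM (sep α (fun β => ap p β ≠ ap o β)) := ((h.cond α hα p).1 hp).2.2

theorem Core.res_mem {α γ p : M} (hα : α ∈ succ δ) (hγ : γ ∈ succ α) (hp : p ∈ ap P α) :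
    res p γ ∈ ap P γ := by
  have hs := h.sub hα hγ
  have hp1 := h.seq hα hp
  rw [h.cond γ (h.le hα hγ)]
  refine ⟨hp1.res hs, fun β hβ => ?_, fin_sub (h.fin hα hp) fun β hβ => ?_⟩
  · rw [ap_res hp1 hs hβ]
    exact h.ap_mem hα hp (hs β hβ)
  · rw [mem_sep] at hβ ⊢
    rw [ap_res hp1 hs hβ.1] at hβ
    exact ⟨hs β hβ.1, hβ.2⟩

theorem Core.res_le {α γ p q : M} (hα : α ∈ succ δ) (hγ : γ ∈ succ α)
    (hq : Le (ap P α) (ap R α) q p) : Le (ap P γ) (ap R γ) (res q γ) (res p γ) := by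
  have hs := h.sub hα hγ
  rw [h.le_iff hα] at hq
  rw [h.le_iff (h.le hα hγ)]
  refine ⟨h.res_mem hα hγ hq.1, h.res_mem hα hγ hq.2.1, fun β hβ => ?_⟩
  have h1 := hq.2.2 β (hs β hβ)
  rw [ap_res (h.seq hα hq.1) hs hβ, ap_res (h.seq hα hq.2.1) hs hβ,
    res_res ((h.ord_of (h.le hα hγ)).1 β hβ)]
  exact h1

/-- Each stage of an iteration is a preorder. -/
theorem Core.pre : ∀ α, α ∈ succ δ → Pre (ap P α) (ap R α) := by
  intro α hα
  have key : ∀ α, Ord α → α ∈ succ δ → (∀ p, p ∈ ap P α → Le (ap P α) (ap R α) p p) ∧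
      (∀ r q p, Le (ap P α) (ap R α) r q → Le (ap P α) (ap R α) q p →
        Le (ap P α) (ap R α) r p) := by
    apply ord_induction (fun α => α ∈ succ δ → (∀ p, p ∈ ap P α → Le (ap P α) (ap R α) p p) ∧
      (∀ r q p, Le (ap P α) (ap R α) r q → Le (ap P α) (ap R α) q p →
        Le (ap P α) (ap R α) r p))
    intro α _ ih hα
    have ih' : ∀ β, β ∈ α → Pre (ap P β) (ap R β) := by
      intro β hβ
      have := ih β hβ (h.ord_succ.trans hβ hα)
      exact ⟨fun hp => this.1 _ hp, fun h1 h2 => this.2 _ _ _ h1 h2⟩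
    constructor
    · intro p hp
      rw [h.le_iff hα]
      refine ⟨hp, hp, fun β hβ => ?_⟩
      have := ih' β hβ
      have hr := h.res_mem hα (lt_succ_of_lt hβ) hp
      exact fforcing_refl (h.forcing β (h.lt hα hβ) _ hr) (Pre.refl hr)
        (h.names β (h.lt hα hβ) _ (h.ap_mem hα hp hβ) _ hr)
    · intro r q p hrq hqp
      have hrq' := (h.le_iff hα).1 hrq
      have hqp' := (h.le_iff hα).1 hqp
      rw [h.le_iff hα]
      refine ⟨hrq'.1, hqp'.2.1, fun β hβ => ?_⟩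
      have := ih' β hβ
      have hr := h.res_mem hα (lt_succ_of_lt hβ) hrq'.1
      have hle := h.res_le hα (lt_succ_of_lt hβ) hrq
      have hβδ := h.lt hα hβ
      exact fforcing_trans (h.forcing β hβδ _ hr) (Pre.refl hr)
        (h.names β hβδ _ (h.ap_mem hα hrq'.1 hβ) _ hr)
        (h.names β hβδ _ (h.ap_mem hα hqp'.1 hβ) _ hr)
        (h.names β hβδ _ (h.ap_mem hα hqp'.2.1 hβ) _ hr)
        (hrq'.2.2 β hβ) ((Good.frel (P := ap P β) (R := ap R β) _ _ _).mono (hqp'.2.2 β hβ) hle)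
  have := key α (h.ord_of hα) hα
  exact ⟨fun hp => this.1 _ hp, fun h1 h2 => this.2 _ _ _ h1 h2⟩

theorem Core.pre_lt {β : M} (hβ : β ∈ δ) : Pre (ap P β) (ap R β) :=
  h.pre β (lt_succ_of_lt hβ)

theorem Core.top_forced {β : M} (hβ : β ∈ δ) :
    Forced (ap P β) ((forc (ap P β) (ap R β)).mem (ap o β) (ap Q β)) :=
  h.names β hβ _ (h.top_mem β hβ)

/-- Fullness below a condition. -/
theorem Core.full_below {β p x : M} (hβ : β ∈ δ) (hp : p ∈ ap P β)
    (hx : (forc (ap P β) (ap R β)).mem x (ap Q β) p) :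
    ∃ y, y ∈ ap N β ∧ (forc (ap P β) (ap R β)).eq x y p := by
  have := h.pre_lt hβ
  exact ZFIter.full_below (h.top_forced hβ) (h.full β hβ) hp hx

/-- Glueing a condition of `P_γ` with names given by a class function. -/
theorem Core.glue_mem {α γ e : M} (hα : α ∈ succ δ) (hγ : γ ∈ succ α) (he : e ∈ ap P γ)
    (F : M → M) [F1 F] (hF : ∀ β, β ∈ α → β ∉ γ → F β ∈ ap N β)
    (hfin : FinM (sep α (fun β => β ∉ γ ∧ F β ≠ ap o β))) : glue γ e α F ∈ ap P α := by
  have hs := h.sub hα hγ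
  have hγδ := h.le hα hγ
  have hes := h.seq hγδ he
  rw [h.cond α hα]
  refine ⟨isSeq_glue hes hs, fun β hβ => ?_, ?_⟩
  · by_cases hβγ : β ∈ γ
    · rw [ap_glue_in hes hs hβγ]; exact h.ap_mem hγδ he hβγ
    · rw [ap_glue_out hes hs hβ hβγ]; exact hF β hβ hβγ
  · refine fin_sub (fin_un (h.fin hγδ he) hfin) fun β hβ => ?_
    rw [mem_sep] at hβ
    rw [mem_un, mem_sep, mem_sep]
    by_cases hβγ : β ∈ γ
    · rw [ap_glue_in hes hs hβγ] at hβ
      exact Or.inl ⟨hβγ, hβ.2⟩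
    · rw [ap_glue_out hes hs hβ.1 hβγ] at hβ
      exact Or.inr ⟨hβ.1, hβγ, hβ.2⟩

theorem Core.glue_le {α γ e p : M} (hα : α ∈ succ δ) (hγ : γ ∈ succ α)
    (F : M → M) [F1 F] (hg : glue γ e α F ∈ ap P α) (hp : p ∈ ap P α)
    (hep : Le (ap P γ) (ap R γ) e (res p γ))
    (hF : ∀ β, β ∈ α → β ∉ γ → F β = ap p β ∨ ap p β = ap o β ∨
      (forc (ap P β) (ap R β)).rel (ap S β) (F β) (ap p β) (res (glue γ e α F) β)) :
    Le (ap P α) (ap R α) (glue γ e α F) p := by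
  have hs := h.sub hα hγ
  have hγδ := h.le hα hγ
  have hes := h.seq hγδ hep.memL
  have hgs := isSeq_glue (F := F) hes hs
  rw [h.le_iff hα]
  refine ⟨hg, hp, fun β hβ => ?_⟩
  have hβδ := h.lt hα hβ
  have := h.pre_lt hβδ
  by_cases hβγ : β ∈ γ
  · rw [ap_glue_in hes hs hβγ]
    have h1 := ((h.le_iff hγδ).1 hep).2.2 β hβγ
    rw [ap_res (h.seq hα hp) hs hβγ] at h1
    have h2 : res (glue γ e α F) β = res e β := by
      rw [← res_res (b := γ) ((h.ord_of hγδ).1 β hβγ), res_glue hes hs]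
    rw [h2]
    exact h1
  · rw [ap_glue_out hes hs hβ hβγ]
    have hr := h.res_mem hα (lt_succ_of_lt hβ) hg
    have hmem : F β ∈ ap N β := by
      have := h.ap_mem hα hg hβ
      rwa [ap_glue_out hes hs hβ hβγ] at this
    rcases hF β hβ hβγ with h1 | h1 | h1
    · rw [h1]
      rw [h1] at hmem
      exact fforcing_refl (h.forcing β hβδ _ hr) (Pre.refl hr) (h.names β hβδ _ hmem _ hr)
    · rw [h1]
      exact fforcing_top (h.forcing β hβδ _ hr) (Pre.refl hr) (h.names β hβδ _ hmem _ hr)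
    · exact h1

/-- Extending a condition of `P_γ` trivially to `P_α`. -/
theorem Core.extend {α γ p : M} (hα : α ∈ succ δ) (hγ : γ ∈ succ α) (hp : p ∈ ap P γ) :
    glue γ p α (fun β => ap o β) ∈ ap P α := by
  refine h.glue_mem hα hγ hp (fun β => ap o β) (fun β hβ _ => h.top_mem β (h.lt hα hβ)) ?_
  refine fin_sub fin_emp fun β hβ => ?_
  rw [mem_sep] at hβ
  exact absurd rfl hβ.2.2

/-- Two conditions with a common lower bound up to `γ` and disjoint supports beyond. -/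
theorem Core.amalgam {α γ e p d : M} (hα : α ∈ succ δ) (hγ : γ ∈ succ α)
    (hp : p ∈ ap P α) (hd : d ∈ ap P α) (hep : Le (ap P γ) (ap R γ) e (res p γ))
    (hed : Le (ap P γ) (ap R γ) e (res d γ))
    (hdis : ∀ β, β ∈ α → β ∉ γ → ap p β = ap o β ∨ ap d β = ap o β) :
    ∃ e', Le (ap P α) (ap R α) e' p ∧ Le (ap P α) (ap R α) e' d := by
  set F : M → M := fun β => iota (fun y => (ap p β = ap o β ∧ y = ap d β) ∨
    (ap p β ≠ ap o β ∧ y = ap p β)) with hFdef
  have hF1 : F1 F := by rw [hFdef]; infer_instance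
  have hF' : ∀ β, ap p β = ap o β → F β = ap d β := by
    intro β hβ
    apply iota_eq
    · exact Or.inl ⟨hβ, rfl⟩
    · rintro x (⟨_, rfl⟩ | ⟨h1, _⟩)
      · rfl
      · exact absurd hβ h1
  have hF'' : ∀ β, ap p β ≠ ap o β → F β = ap p β := by
    intro β hβ
    apply iota_eq
    · exact Or.inr ⟨hβ, rfl⟩
    · rintro x (⟨h1, _⟩ | ⟨_, rfl⟩)
      · exact absurd h1 hβ
      · rfl
  have hg : glue γ e α F ∈ ap P α := by
    refine h.glue_mem hα hγ hep.memL F (fun β hβ _ => ?_) ?_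
    · by_cases h1 : ap p β = ap o β
      · rw [hF' β h1]; exact h.ap_mem hα hd hβ
      · rw [hF'' β h1]; exact h.ap_mem hα hp hβ
    · refine fin_sub (fin_un (h.fin hα hp) (h.fin hα hd)) fun β hβ => ?_
      rw [mem_sep] at hβ
      rw [mem_un, mem_sep, mem_sep]
      by_cases h1 : ap p β = ap o β
      · rw [hF' β h1] at hβ
        exact Or.inr ⟨hβ.1, hβ.2.2⟩
      · exact Or.inl ⟨hβ.1, h1⟩
  refine ⟨glue γ e α F, h.glue_le hα hγ F hg hp hep fun β hβ _ => ?_,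
    h.glue_le hα hγ F hg hd hed fun β hβ hβγ => ?_⟩
  · by_cases h1 : ap p β = ap o β
    · exact Or.inr (Or.inl h1)
    · exact Or.inl (hF'' β h1)
  · by_cases h1 : ap p β = ap o β
    · exact Or.inl (hF' β h1)
    · exact Or.inr (Or.inl ((hdis β hβ hβγ).resolve_left h1))

end iter

end Pool.Agent.ZFIter
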