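import Pool.Agent.ZFIter.Defs

/-! # Ordinals inside a model of ZF -/

universe u

namespace Pool.Agent.ZFIter

open Pool.Agent.H78.ZF

variable {M : Type u} [ZFM M] {ι : Type}

instance DR.Ord (s : (ι → M) → M) [DF s] : DR (fun v => Ord (s v)) := by
  unfold ZFIter.Ord
  infer_instance

theorem Ord.mem {α β : M} (h : Ord α) (hβ : β ∈ α) : Ord β :=
  ⟨h.2 β hβ, fun γ hγ => h.2 γ (h.1 β hβ γ hγ)⟩

theorem Ord.trans {α β γ : M} (h : Ord α) (h1 : γ ∈ β) (h2 : β ∈ α) : γ ∈ α := h.1 β h2 γ h1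

theorem Ord.succ {α : M} (h : Ord α) : Ord (succ α) := by
  constructor
  · intro y hy z hz
    rw [mem_succ] at hy ⊢
    rcases hy with hy | rfl
    · exact Or.inl (h.1 y hy z hz)
    · exact Or.inl hz
  · intro y hy
    rw [mem_succ] at hy
    rcases hy with hy | rfl
    · exact h.2 y hy
    · exact h.1

theorem ord_induction (P : M → Prop) [D1 P]
    (h : ∀ α, Ord α → (∀ β, β ∈ α → P β) → P α) : ∀ α, Ord α → P α :=
  mem_induction (fun α => Ord α → P α) fun α ih hα => h α hα fun β hβ => ih β hβ (hα.mem hβ)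

theorem Ord.asymm {α β : M} (h : Ord β) (h1 : α ∈ β) : β ∉ α :=
  fun h2 => not_mem_self β (h.trans h2 h1)

theorem ord_trichotomy {α β : M} (hα : Ord α) (hβ : Ord β) : α ∈ β ∨ α = β ∨ β ∈ α := by
  apply ord_induction (fun α => ∀ β, Ord β → α ∈ β ∨ α = β ∨ β ∈ α) _ α hα β hβ
  intro α hα ih
  apply ord_induction (fun β => α ∈ β ∨ α = β ∨ β ∈ α)
  intro β hβ ih'
  by_cases h1 : ∃ a, a ∈ α ∧ (a = β ∨ β ∈ a)
  · obtain ⟨a, ha, h | h⟩ := h1
    · right; right; rw [← h]; exact ha
    · right; right; exact hα.trans h ha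
  by_cases h2 : ∃ b, b ∈ β ∧ (α = b ∨ α ∈ b)
  · obtain ⟨b, hb, h | h⟩ := h2
    · left; rw [h]; exact hb
    · left; exact hβ.trans h hb
  right; left
  push Not at h1 h2
  apply sub_antisymm
  · intro a ha
    rcases ih a ha β hβ with h | h | h
    · exact h
    · exact absurd h (h1 a ha).1
    · exact absurd h (h1 a ha).2
  · intro b hb
    rcases ih' b hb with h | h | h
    · exact absurd h (h2 b hb).2
    · exact absurd h (h2 b hb).1
    · exact h

theorem ord_le_or_lt {α β : M} (hα : Ord α) (hβ : Ord β) : α ⊆ β ∨ β ∈ α := by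
  rcases ord_trichotomy hα hβ with h | h | h
  · left; exact hβ.1 α h
  · left; rw [h]; exact sub_refl β
  · right; exact h

theorem ord_zero_succ_limit {α : M} (hα : Ord α) :
    (∃ β, α = succ β) ∨ ∀ β, β ∈ α → succ β ∈ α := by
  by_cases h : ∃ β, α = succ β
  · left; exact h
  right
  intro β hβ
  rcases ord_trichotomy (hα.mem hβ).succ hα with h1 | h1 | h1
  · exact h1
  · exact absurd ⟨β, h1.symm⟩ h
  · rw [mem_succ] at h1
    rcases h1 with h1 | h1
    · exact absurd h1 (hα.asymm hβ)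
    · rw [h1] at hβ; exact absurd hβ (not_mem_self β)

/-- A nonempty finite set of ordinals has a maximum. -/
theorem fin_max {α F : M} (hα : Ord α) (hF : FinM F) (hFα : F ⊆ α) (hne : F ≠ emp) :
    ∃ x, x ∈ F ∧ ∀ y, y ∈ F → x = y ∨ y ∈ x := by
  refine fin_least α (fun x y => y ∈ x) ?_ ?_ hF hFα hne
  · intro x y z hx hy hz h1 h2
    exact (hα.mem hx).trans h2 h1
  · intro x y hx hy
    rcases ord_trichotomy (hα.mem hx) (hα.mem hy) with h | h | h
    · exact Or.inr (Or.inr h)
    · exact Or.inl h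
    · exact Or.inr (Or.inl h)

theorem ord_omega : Ord (omega : M) :=
  ⟨fun _ hn => omega_sub hn, fun _ hn => omega_trans hn⟩

theorem ord_nat {n : M} (hn : n ∈ (omega : M)) : Ord n := ord_omega.mem hn

/-- Strong induction on the natural numbers. -/
theorem ord_nat_induction (P : M → Prop) [D1 P]
    (h : ∀ n, n ∈ (omega : M) → (∀ k, k ∈ n → P k) → P n) : ∀ n, n ∈ (omega : M) → P n :=
  mem_induction (fun n => n ∈ (omega : M) → P n) fun n ih hn => h n hn fun k hk =>
    ih k hk (mem_omega_of_mem hk hn)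

end Pool.Agent.ZFIter
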