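import Pool.Agent.ZFIter.NatName
import Pool.Agent.ZFIter.Ord

/-! # Names for pairs, sets of natural numbers and relations -/

set_option linter.unusedSectionVars false

universe u

namespace Pool.Agent.ZFIter

open Pool.Agent.H78.ZF

variable {M : Type u} [ZFM M] {ι : Type}

/-- The name of the unordered pair, with labels from `L`. -/
noncomputable def upn (L x y : M) : M := prod (upair x y) L

instance DF.upn (L x y : (ι → M) → M) [DF L] [DF x] [DF y] :
    DF (fun v => upn (L v) (x v) (y v)) := by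
  unfold ZFIter.upn
  infer_instance

/-- The name of the ordered pair, with labels from `L`. -/
noncomputable def opn (L x y : M) : M := upn L (upn L x x) (upn L x y)

instance DF.opn (L x y : (ι → M) → M) [DF L] [DF x] [DF y] :
    DF (fun v => opn (L v) (x v) (y v)) := by
  unfold ZFIter.opn
  infer_instance

/-- The name of the set `s` of natural numbers. -/
noncomputable def tau (L s : M) : M := prod (img s (fun n => chkn L n)) L

instance DF.tau (L s : (ι → M) → M) [DF L] [DF s] : DF (fun v => tau (L v) (s v)) := by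
  unfold ZFIter.tau
  infer_instance

section pairs

variable {P R L : M} [hP : Pre P R] (hL : Lab P R L) {p q x y z a b c : M}

include hL

theorem fmem_upn : FMem P R p z (upn L x y) ↔
    (forc P R).or ((forc P R).eq z x) ((forc P R).eq z y) p := by
  unfold upn
  rw [fmem_prod hL]
  constructor
  · intro h q hq
    obtain ⟨r, hr, a, ha, hE⟩ := h q hq
    rw [mem_upair] at ha
    refine ⟨r, hr, ?_⟩
    rcases ha with rfl | rfl
    · exact Or.inl hE
    · exact Or.inr hE
  · intro h q hq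
    obtain ⟨r, hr, hE | hE⟩ := h q hq
    · exact ⟨r, hr, x, by simp, hE⟩
    · exact ⟨r, hr, y, by simp, hE⟩

theorem isUPair_iff' : (forc P R).isUPair z x y p ↔ FEq P R p z (upn L x y) := by
  constructor
  · intro h
    apply feq_ext
    · intro q w hq hm
      exact (fmem_upn hL).2 ((h w).1 q hq hm)
    · intro q w hq hm
      exact (h w).2 q hq ((fmem_upn hL).1 hm)
  · intro h w
    constructor
    · intro q hq hm
      exact (fmem_upn hL).1 (fmem_congrR (feq_mono h hq) hm)
    · intro q hq hm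
      exact fmem_congrR (feq_symm (feq_mono h hq)) ((fmem_upn hL).2 hm)

theorem upn_congr {x' y' : M} (hx : FEq P R p x x') (hy : FEq P R p y y') :
    FEq P R p (upn L x y) (upn L x' y') := by
  rw [← isUPair_iff' hL]
  have h0 : (forc P R).isUPair (upn L x y) x y p := (isUPair_iff' hL).2 (feq_refl _ _)
  have h1 : (forc P R).isUPair (upn L x y) x' y p :=
    (Cong.fisUPair (P := P) (R := R) (fun _ => _) (fun x => x) (fun _ => y)).out hx h0
  exact (Cong.fisUPair (P := P) (R := R) (fun _ => _) (fun _ => x') (fun y => y)).out hy h1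

theorem opn_congr {x' y' : M} (hx : FEq P R p x x') (hy : FEq P R p y y') :
    FEq P R p (opn L x y) (opn L x' y') :=
  upn_congr hL (upn_congr hL hx hx) (upn_congr hL hx hy)

theorem isOPair_iff' : (forc P R).isOPair z x y p ↔ FEq P R p z (opn L x y) := by
  constructor
  · intro h
    refine feq_dense fun q hq => ?_
    obtain ⟨r, hr, a, ha⟩ := h q hq
    obtain ⟨r', hr', b, h1, h2, h3⟩ := ha r (Pre.refl hr.memL)
    refine ⟨r', Pre.trans hr' hr, ?_⟩
    rw [isUPair_iff' hL] at h1 h2 h3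
    exact feq_trans h3 (upn_congr hL h1 h2)
  · intro h
    refine fex_intro (A := fun a => (forc P R).ex fun b => (forc P R).and ((forc P R).isUPair a x x)
      ((forc P R).and ((forc P R).isUPair b x y) ((forc P R).isUPair z a b))) (upn L x x) ?_
    refine fex_intro (A := fun b => (forc P R).and ((forc P R).isUPair (upn L x x) x x)
      ((forc P R).and ((forc P R).isUPair b x y) ((forc P R).isUPair z (upn L x x) b)))
      (upn L x y) ⟨?_, ?_, ?_⟩
    · exact (isUPair_iff' hL).2 (feq_refl _ _)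
    · exact (isUPair_iff' hL).2 (feq_refl _ _)
    · exact (isUPair_iff' hL).2 h

theorem upn_sing (h : FEq P R p (upn L x x) (upn L y z)) : FEq P R p x y ∧ FEq P R p x z := by
  constructor
  · refine feq_dense fun q hq => ?_
    have h1 : FMem P R q y (upn L x x) := fmem_congrR (feq_symm (feq_mono h hq))
      (fmem_prod_of hL (by simp))
    obtain ⟨r, hr, hE | hE⟩ := (fmem_upn hL).1 h1 q (Pre.refl hq.memL)
    · exact ⟨r, hr, feq_symm hE⟩
    · exact ⟨r, hr, feq_symm hE⟩
  · refine feq_dense fun q hq => ?_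
    have h1 : FMem P R q z (upn L x x) := fmem_congrR (feq_symm (feq_mono h hq))
      (fmem_prod_of hL (by simp))
    obtain ⟨r, hr, hE | hE⟩ := (fmem_upn hL).1 h1 q (Pre.refl hq.memL)
    · exact ⟨r, hr, feq_symm hE⟩
    · exact ⟨r, hr, feq_symm hE⟩

theorem upn_cancel (h : FEq P R p (upn L x y) (upn L x z)) : FEq P R p y z := by
  refine feq_dense fun q hq => ?_
  have h1 : FMem P R q y (upn L x z) := fmem_congrR (feq_mono h hq) (fmem_prod_of hL (by simp))
  obtain ⟨r, hr, hE | hE⟩ := (fmem_upn hL).1 h1 q (Pre.refl hq.memL)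
  · have h2 : FMem P R r z (upn L x y) := fmem_congrR (feq_symm (feq_mono h (Pre.trans hr hq)))
      (fmem_prod_of hL (by simp))
    obtain ⟨r', hr', hE' | hE'⟩ := (fmem_upn hL).1 h2 r (Pre.refl hr.memL)
    · exact ⟨r', Pre.trans hr' hr, feq_trans (feq_mono hE hr') (feq_symm hE')⟩
    · exact ⟨r', Pre.trans hr' hr, feq_symm hE'⟩
  · exact ⟨r, hr, hE⟩

theorem opn_inj {x' y' : M} (h : FEq P R p (opn L x y) (opn L x' y')) :
    FEq P R p x x' ∧ FEq P R p y y' := by
  have h1 : FEq P R p x x' := by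
    refine feq_dense fun q hq => ?_
    have h1 : FMem P R q (upn L x x) (opn L x' y') := fmem_congrR (feq_mono h hq)
      (fmem_prod_of hL (by simp))
    obtain ⟨r, hr, hE | hE⟩ := (fmem_upn hL).1 h1 q (Pre.refl hq.memL)
    · exact ⟨r, hr, (upn_sing hL hE).1⟩
    · exact ⟨r, hr, (upn_sing hL hE).1⟩
  refine ⟨h1, ?_⟩
  have h2 : FEq P R p (opn L x y) (opn L x y') :=
    feq_trans h (opn_congr hL (feq_symm h1) (feq_refl _ _))
  exact upn_cancel hL (upn_cancel hL h2)

/-- The forced relation of a name all of whose members are names of ordered pairs. -/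
theorem rel_iff' {g : M} (hg : ∀ z t, opair z t ∈ g → ∃ a b, z = opn L a b) :
    (forc P R).rel g x y p ↔ ∀ q, Le P R q p → ∃ r, Le P R r q ∧ ∃ a b t,
      opair (opn L a b) t ∈ g ∧ Le P R r t ∧ FEq P R r x a ∧ FEq P R r y b := by
  constructor
  · intro h q hq
    obtain ⟨r, hr, z, h1, h2⟩ := h q hq
    rw [isOPair_iff' hL] at h1
    obtain ⟨r', hr', z', t, hz', ht, hE⟩ := h2 r (Pre.refl hr.memL)
    obtain ⟨a, b, rfl⟩ := hg z' t hz'
    have h3 : FEq P R r' (opn L x y) (opn L a b) := feq_trans (feq_symm (feq_mono h1 hr')) hE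
    obtain ⟨h4, h5⟩ := opn_inj hL h3
    exact ⟨r', Pre.trans hr' hr, a, b, t, hz', ht, h4, h5⟩
  · intro h q hq
    obtain ⟨r, hr, a, b, t, hg', ht, h4, h5⟩ := h q hq
    refine ⟨r, hr, opn L x y, (isOPair_iff' hL).2 (feq_refl _ _), ?_⟩
    exact fmem_congrL (feq_symm (opn_congr hL h4 h5)) (fmem_of hg' ht)

/-! ### Natural numbers and sets of natural numbers -/

omit hP hL in
theorem chkn_eq_tau {n : M} (hn : n ∈ (omega : M)) : chkn L n = tau L n := by
  apply omega_induction (fun n => chkn L n = tau L n) _ _ n hn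
  · rw [chkn_zero]
    symm
    apply eq_emp
    intro z hz
    unfold tau at hz
    rw [mem_prod] at hz
    obtain ⟨a, ha, _⟩ := hz
    rw [mem_img] at ha
    obtain ⟨k, hk, _⟩ := ha
    exact not_mem_emp _ hk
  · intro n hn ih
    rw [chkn_succ hn]
    apply ext
    intro z
    have h1 : z ∈ chkn L n ↔ ∃ k, k ∈ n ∧ ∃ t, t ∈ L ∧ z = opair (chkn L k) t := by
      rw [ih]
      unfold tau
      rw [mem_prod]
      constructor
      · rintro ⟨x, hx, t, ht, rfl⟩
        rw [mem_img] at hx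
        obtain ⟨k, hk, rfl⟩ := hx
        exact ⟨k, hk, t, ht, rfl⟩
      · rintro ⟨k, hk, t, ht, rfl⟩
        exact ⟨_, by rw [mem_img]; exact ⟨k, hk, rfl⟩, t, ht, rfl⟩
    rw [mem_un, h1]
    unfold tau
    rw [mem_prod, mem_prod]
    constructor
    · rintro (⟨k, hk, t, ht, rfl⟩ | ⟨x, hx, t, ht, rfl⟩)
      · exact ⟨_, by rw [mem_img]; exact ⟨k, by rw [mem_succ]; exact Or.inl hk, rfl⟩, t, ht, rfl⟩
      · rw [mem_sing] at hx
        subst hx
        exact ⟨_, by rw [mem_img]; exact ⟨n, by simp, rfl⟩, t, ht, rfl⟩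
    · rintro ⟨x, hx, t, ht, rfl⟩
      rw [mem_img] at hx
      obtain ⟨k, hk, rfl⟩ := hx
      rw [mem_succ] at hk
      rcases hk with hk | rfl
      · exact Or.inl ⟨k, hk, t, ht, rfl⟩
      · exact Or.inr ⟨_, by simp, t, ht, rfl⟩

theorem fmem_tau {s : M} : FMem P R p x (tau L s) ↔
    ∀ q, Le P R q p → ∃ r, Le P R r q ∧ ∃ n, n ∈ s ∧ FEq P R r x (chkn L n) := by
  unfold tau
  rw [fmem_prod hL]
  constructor
  · intro h q hq
    obtain ⟨r, hr, a, ha, hE⟩ := h q hq
    rw [mem_img] at ha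
    obtain ⟨n, hn, rfl⟩ := ha
    exact ⟨r, hr, n, hn, hE⟩
  · intro h q hq
    obtain ⟨r, hr, n, hn, hE⟩ := h q hq
    exact ⟨r, hr, _, by rw [mem_img]; exact ⟨n, hn, rfl⟩, hE⟩

theorem fmem_tau_of {n s : M} (hn : n ∈ s) : FMem P R p (chkn L n) (tau L s) :=
  (fmem_tau hL).2 fun q hq => ⟨q, Pre.refl hq.memL, n, hn, feq_refl _ _⟩

theorem chkn_ne_of_mem {n : M} (hn : n ∈ (omega : M)) :
    ∀ k, k ∈ n → ∀ p, p ∈ P → ¬ FEq P R p (chkn L n) (chkn L k) := by
  apply ord_nat_induction (fun n => ∀ k, k ∈ n → ∀ p, p ∈ P → ¬ FEq P R p (chkn L n) (chkn L k)) _ n hn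
  intro n hn ih k hk p hp hE
  have hkω := mem_omega_of_mem hk hn
  have h1 : FMem P R p (chkn L k) (chkn L k) := by
    have : FMem P R p (chkn L k) (chkn L n) := by
      rw [chkn_eq_tau hn]; exact fmem_tau_of hL hk
    exact fmem_congrR hE this
  rw [chkn_eq_tau (L := L) (n := k) hkω, fmem_tau hL] at h1
  obtain ⟨r, hr, j, hj, hE'⟩ := h1 p (Pre.refl hp)
  rw [← chkn_eq_tau hkω] at hE'
  exact ih k hk j hj r hr.memL hE'

theorem chkn_inj {n m : M} (hn : n ∈ (omega : M)) (hm : m ∈ (omega : M)) (hp : p ∈ P)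
    (h : FEq P R p (chkn L n) (chkn L m)) : n = m := by
  rcases trichotomy hn hm with h1 | h1 | h1
  · exact absurd (feq_symm h) (chkn_ne_of_mem hL hm n h1 p hp)
  · exact h1
  · exact absurd h (chkn_ne_of_mem hL hn m h1 p hp)

theorem mem_of_fmem_tau {n s : M} (hs : s ⊆ omega) (hn : n ∈ (omega : M)) (hp : p ∈ P)
    (h : FMem P R p (chkn L n) (tau L s)) : n ∈ s := by
  obtain ⟨r, hr, m, hm, hE⟩ := (fmem_tau hL).1 h p (Pre.refl hp)
  rw [chkn_inj hL hn (hs m hm) hr.memL hE]
  exact hm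

theorem tau_inj {s t : M} (hs : s ⊆ omega) (ht : t ⊆ omega) (hp : p ∈ P)
    (h : FEq P R p (tau L s) (tau L t)) : s = t := by
  apply sub_antisymm
  · intro n hn
    exact mem_of_fmem_tau hL ht (hs n hn) hp (fmem_congrR h (fmem_tau_of hL hn))
  · intro n hn
    exact mem_of_fmem_tau hL hs (ht n hn) hp (fmem_congrR (feq_symm h) (fmem_tau_of hL hn))

/-! ### The name of omega -/

theorem feq_of_isEmpty {e : M} (h : (forc P R).isEmpty e p) : FEq P R p e emp := by
  apply feq_ext
  · intro q z hq hm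
    exact absurd hm (h z q hq)
  · intro q z hq hm
    exact absurd hm (fmem_emp (Pre.refl hq.memL))

theorem feq_of_isSucc {s s' x : M} (h : (forc P R).isSucc s x p) (h' : (forc P R).isSucc s' x p) :
    FEq P R p s s' := by
  apply feq_ext
  · intro q z hq hm
    exact (h' z).2 q hq ((h z).1 q hq hm)
  · intro q z hq hm
    exact (h z).2 q hq ((h' z).1 q hq hm)

theorem isOmega_omN (p : M) : (forc P R).isOmega (omN L) p := by
  refine ⟨isInductive_omN hL p, fun v q hq hv => ?_⟩
  have key : ∀ n, n ∈ (omega : M) → FMem P R q (chkn L n) v := by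
    apply omega_induction (fun n => FMem P R q (chkn L n) v)
    · refine fmem_dense fun q' hq' => ?_
      obtain ⟨r, hr, e, he, hev⟩ := hv.1 q' hq'
      refine ⟨r, hr, ?_⟩
      rw [chkn_zero]
      exact fmem_congrL (feq_of_isEmpty hL he) hev
    · intro n hn ih
      refine fmem_dense fun q' hq' => ?_
      obtain ⟨r, hr, s, hs, hsv⟩ := hv.2 (chkn L n) q (Pre.refl hq.memL) ih q' hq'
      exact ⟨r, hr, fmem_congrL (feq_of_isSucc hL hs (isSucc_chkn hL hn)) hsv⟩
  intro x q' hq' hx
  refine fmem_dense fun q'' hq'' => ?_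
  obtain ⟨r, hr, a, ha, hE⟩ := (fmem_prod hL).1 hx q'' hq''
  rw [mem_img] at ha
  obtain ⟨n, hn, rfl⟩ := ha
  exact ⟨r, hr, fmem_congrL (feq_symm hE) (fmem_mono (key n hn) (Pre.trans hr (Pre.trans hq'' hq')))⟩

end pairs

end Pool.Agent.ZFIter
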