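import Pool.Agent.ZFIter.FBasic

/-! # Names for the natural numbers -/

universe u

namespace Pool.Agent.ZFIter

open Pool.Agent.H78.ZF

variable {M : Type u} [ZFM M] {ι : Type}

/-- The name of the natural number `n`, with labels from `L`. -/
noncomputable def chkn (L n : M) : M := recc (fun x => un x (prod (sing x) L)) emp n

instance DF.chkn (L n : (ι → M) → M) [DF L] [DF n] : DF (fun v => chkn (L v) (n v)) := by
  unfold ZFIter.chkn
  infer_instance

/-- The name of `omega`. -/
noncomputable def omN (L : M) : M := prod (img omega (fun n => chkn L n)) L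

instance DF.omN (L : (ι → M) → M) [DF L] : DF (fun v => omN (L v)) := by
  unfold ZFIter.omN
  infer_instance

@[simp] theorem chkn_zero (L : M) : chkn L emp = emp := by
  unfold chkn
  rw [recc_zero]

theorem chkn_succ {L n : M} (hn : n ∈ (omega : M)) :
    chkn L (succ n) = un (chkn L n) (prod (sing (chkn L n)) L) := by
  unfold chkn
  rw [recc_succ hn]

/-- Every condition lies below a member of `L`. -/
def Lab (P R L : M) : Prop := ∀ p, p ∈ P → ∃ t, t ∈ L ∧ Le P R p t

section

variable {P R L : M} [hP : Pre P R] {p q x y z : M}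

theorem lab_self : Lab P R P := fun p hp => ⟨p, hp, Pre.refl hp⟩

omit hP in
theorem fmem_prod (hL : Lab P R L) {A : M} : FMem P R p x (prod A L) ↔
    ∀ q, Le P R q p → ∃ r, Le P R r q ∧ ∃ a, a ∈ A ∧ FEq P R r x a := by
  constructor
  · intro h q hq
    obtain ⟨r, hr, z, s, hz, hs, hE⟩ := h q hq
    rw [opair_mem_prod] at hz
    exact ⟨r, hr, z, hz.1, hE⟩
  · intro h q hq
    obtain ⟨r, hr, a, ha, hE⟩ := h q hq
    obtain ⟨t, ht, hrt⟩ := hL r hr.memL
    exact ⟨r, hr, a, t, by rw [opair_mem_prod]; exact ⟨ha, ht⟩, hrt, hE⟩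

theorem fmem_prod_of (hL : Lab P R L) {A a : M} (ha : a ∈ A) : FMem P R p a (prod A L) := by
  rw [fmem_prod hL]
  exact fun q hq => ⟨q, Pre.refl hq.memL, a, ha, feq_refl _ _⟩

omit hP in
theorem fmem_emp (h : Le P R p p) : ¬ FMem P R p x emp := by
  intro hm
  obtain ⟨r, _, z, s, hz, _⟩ := hm p h
  exact not_mem_emp _ hz

theorem fmem_un {a b : M} : FMem P R p x (un a b) ↔
    (forc P R).or ((forc P R).mem x a) ((forc P R).mem x b) p := by
  constructor
  · intro h q hq
    obtain ⟨r, hr, z, s, hz, hs, hE⟩ := h q hq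
    refine ⟨r, hr, ?_⟩
    rw [mem_un] at hz
    rcases hz with hz | hz
    · exact Or.inl (fmem_congrL (feq_symm hE) (fmem_of hz hs))
    · exact Or.inr (fmem_congrL (feq_symm hE) (fmem_of hz hs))
  · intro h
    refine fmem_dense fun q hq => ?_
    obtain ⟨r, hr, h1 | h1⟩ := h q hq
    · refine ⟨r, hr, fun q' hq' => ?_⟩
      obtain ⟨r', hr', z, s, hz, hs, hE⟩ := h1 q' hq'
      exact ⟨r', hr', z, s, by rw [mem_un]; exact Or.inl hz, hs, hE⟩
    · refine ⟨r, hr, fun q' hq' => ?_⟩
      obtain ⟨r', hr', z, s, hz, hs, hE⟩ := h1 q' hq'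
      exact ⟨r', hr', z, s, by rw [mem_un]; exact Or.inr hz, hs, hE⟩

theorem for_inl {A B : M → Prop} [hA : Good P R A] (h : A p) : (forc P R).or A B p :=
  fun q hq => ⟨q, Pre.refl hq.memL, Or.inl (hA.mono h hq)⟩

theorem for_inr {A B : M → Prop} [hB : Good P R B] (h : B p) : (forc P R).or A B p :=
  fun q hq => ⟨q, Pre.refl hq.memL, Or.inr (hB.mono h hq)⟩

theorem fex_intro {A : M → M → Prop} (x : M) [hA : Good P R (A x)] (h : A x p) :
    (forc P R).ex A p :=
  fun q hq => ⟨q, Pre.refl hq.memL, x, hA.mono h hq⟩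

/-- Using an existential statement at a condition. -/
theorem fex_elim {A : M → M → Prop} (h : (forc P R).ex A p) (hp : p ∈ P) :
    ∃ r, Le P R r p ∧ ∃ x, A x r := h p (Pre.refl hp)

theorem isSucc_chkn (hL : Lab P R L) {n : M} (hn : n ∈ (omega : M)) :
    (forc P R).isSucc (chkn L (succ n)) (chkn L n) p := by
  intro w
  rw [chkn_succ hn]
  constructor
  · intro q _ hm
    refine (Good.for' (P := P) (R := R) _ _).dense fun q' hq' => ?_
    obtain ⟨r, hr, h1⟩ := fmem_un.1 (fmem_mono hm hq') q' (Pre.refl hq'.memL)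
    rcases h1 with h1 | h1
    · exact ⟨r, hr, for_inl h1⟩
    · obtain ⟨r', hr', a, ha, hE⟩ := (fmem_prod hL).1 h1 r (Pre.refl hr.memL)
      rw [mem_sing] at ha
      subst ha
      exact ⟨r', Pre.trans hr' hr, for_inr hE⟩
  · intro q _ hm
    rw [show (forc P R).mem w (un (chkn L n) (prod (sing (chkn L n)) L)) q ↔ _ from fmem_un]
    intro q' hq'
    obtain ⟨r, hr, h1⟩ := hm q' hq'
    refine ⟨r, hr, h1.imp id fun hE => ?_⟩
    exact fmem_congrL (feq_symm hE) (fmem_prod_of hL (by simp))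

theorem isInductive_omN (hL : Lab P R L) (p : M) : (forc P R).isInductive (omN L) p := by
  constructor
  · refine fex_intro (A := fun e => (forc P R).and ((forc P R).isEmpty e)
      ((forc P R).mem e (omN L))) emp ⟨fun x q hq hm => fmem_emp (Pre.refl hq.memL) hm, ?_⟩
    exact fmem_prod_of hL (by rw [mem_img]; exact ⟨emp, emp_mem_omega, by simp⟩)
  · intro x q _ hm q' hq'
    obtain ⟨r, hr, a, ha, hE⟩ := (fmem_prod hL).1 hm q' hq'
    rw [mem_img] at ha
    obtain ⟨n, hn, rfl⟩ := ha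
    refine ⟨r, hr, chkn L (succ n), ?_, ?_⟩
    · exact isSucc_congr (isSucc_chkn hL hn) (feq_refl _ _) (feq_symm hE)
    · exact fmem_prod_of hL (by rw [mem_img]; exact ⟨succ n, succ_mem_omega hn, rfl⟩)

/-- Below each condition, a member of `omega` is a standard natural number. -/
theorem nat_of_isOmega (hL : Lab P R L) {w m : M} (hp : p ∈ P) (hw : (forc P R).isOmega w p)
    (hm : (forc P R).mem m w p) : ∃ r, Le P R r p ∧ ∃ n, n ∈ (omega : M) ∧ FEq P R r m (chkn L n) := by
  have h1 : (forc P R).sub w (omN L) p :=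
    hw.2 (omN L) p (Pre.refl hp) (isInductive_omN hL p)
  have h2 := h1 m p (Pre.refl hp) hm
  obtain ⟨r, hr, a, ha, hE⟩ := (fmem_prod hL).1 h2 p (Pre.refl hp)
  rw [mem_img] at ha
  obtain ⟨n, hn, rfl⟩ := ha
  exact ⟨r, hr, n, hn, hE⟩

end

end Pool.Agent.ZFIter
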