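import Pool.Agent.ZFIter.FBasic
import Pool.Agent.ZFIter.Ord
import Pool.Agent.ZFIter.Ctb

/-! # Functions with a given domain, restriction and glueing -/

universe u

namespace Pool.Agent.ZFIter

open Pool.Agent.H78.ZF

variable {M : Type u} [ZFM M] {ι : Type}

instance DR.IsSeq (f a : (ι → M) → M) [DF f] [DF a] : DR (fun v => IsSeq (f v) (a v)) := by
  unfold ZFIter.IsSeq
  infer_instance

instance DF.res (p a : (ι → M) → M) [DF p] [DF a] : DF (fun v => res (p v) (a v)) := by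
  unfold ZFIter.res
  infer_instance

section
variable {f g a b c x y : M}

theorem IsSeq.opair_ap (h : IsSeq f a) (hx : x ∈ a) : opair x (ap f x) ∈ f :=
  iota_spec (h.2 x hx)

theorem IsSeq.opair_iff (h : IsSeq f a) : opair x y ∈ f ↔ x ∈ a ∧ y = ap f x := by
  constructor
  · intro hp
    obtain ⟨x', hx', y', e⟩ := h.1 _ hp
    obtain ⟨rfl, rfl⟩ := opair_inj e
    exact ⟨hx', (h.2 x hx').unique hp (h.opair_ap hx')⟩
  · rintro ⟨hx, rfl⟩
    exact h.opair_ap hx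

theorem IsSeq.ap_eq (h : IsSeq f a) (hp : opair x y ∈ f) : ap f x = y :=
  (h.opair_iff.1 hp).2.symm

theorem IsSeq.ext (hf : IsSeq f a) (hg : IsSeq g a) (h : ∀ x, x ∈ a → ap f x = ap g x) :
    f = g := by
  apply Pool.Agent.H78.ZF.ext
  intro p
  constructor
  · intro hp
    obtain ⟨x, hx, y, rfl⟩ := hf.1 p hp
    rw [hf.opair_iff] at hp
    rw [hg.opair_iff, ← h x hx]
    exact hp
  · intro hp
    obtain ⟨x, hx, y, rfl⟩ := hg.1 p hp
    rw [hg.opair_iff] at hp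
    rw [hf.opair_iff, h x hx]
    exact hp

theorem mem_res {z : M} : z ∈ res f b ↔ z ∈ f ∧ ∃ x, x ∈ b ∧ ∃ y, z = opair x y := by
  unfold res
  rw [mem_sep]

theorem opair_mem_res : opair x y ∈ res f b ↔ opair x y ∈ f ∧ x ∈ b := by
  rw [mem_res]
  constructor
  · rintro ⟨h, x', hx', y', e⟩
    obtain ⟨rfl, rfl⟩ := opair_inj e
    exact ⟨h, hx'⟩
  · rintro ⟨h, hx⟩
    exact ⟨h, x, hx, y, rfl⟩

theorem IsSeq.res (h : IsSeq f a) (hb : b ⊆ a) : IsSeq (res f b) b := by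
  constructor
  · intro z hz
    exact (mem_res.1 hz).2
  · intro x hx
    refine ⟨ap f x, opair_mem_res.2 ⟨h.opair_ap (hb x hx), hx⟩, fun y hy => ?_⟩
    exact (h.ap_eq (opair_mem_res.1 hy).1).symm

theorem ap_res (h : IsSeq f a) (hb : b ⊆ a) (hx : x ∈ b) : ap (res f b) x = ap f x :=
  (h.res hb).ap_eq (opair_mem_res.2 ⟨h.opair_ap (hb x hx), hx⟩)

theorem res_res (hc : c ⊆ b) : res (res f b) c = res f c := by
  apply Pool.Agent.H78.ZF.ext
  intro z
  rw [mem_res, mem_res, mem_res]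
  constructor
  · rintro ⟨⟨h1, _⟩, h2⟩
    exact ⟨h1, h2⟩
  · rintro ⟨h1, x, hx, y, e⟩
    exact ⟨⟨h1, x, hc x hx, y, e⟩, x, hx, y, e⟩

theorem IsSeq.res_self (h : IsSeq f a) : ZFIter.res f a = f := by
  apply Pool.Agent.H78.ZF.ext
  intro z
  rw [mem_res]
  exact ⟨fun h1 => h1.1, fun h1 => ⟨h1, h.1 z h1⟩⟩

/-- The function on `a` given by a class function. -/
noncomputable def mkseq (a : M) (F : M → M) : M := img a (fun x => opair x (F x))

instance DF.mkseq (a : (ι → M) → M) (F : M → (ι → M) → M) [DF a]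
    [h : DF (ι := Option ι) (fun v => F (v none) (fun i => v (some i)))] :
    DF (fun v => mkseq (a v) (fun x => F x v)) := by
  unfold ZFIter.mkseq
  infer_instance

theorem mem_mkseq {F : M → M} [F1 F] {z : M} : z ∈ mkseq a F ↔ ∃ x, x ∈ a ∧ z = opair x (F x) := by
  unfold mkseq
  rw [mem_img]

theorem opair_mem_mkseq {F : M → M} [F1 F] : opair x y ∈ mkseq a F ↔ x ∈ a ∧ y = F x := by
  rw [mem_mkseq]
  constructor
  · rintro ⟨x', hx', e⟩
    obtain ⟨rfl, rfl⟩ := opair_inj e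
    exact ⟨hx', rfl⟩
  · rintro ⟨hx, rfl⟩
    exact ⟨x, hx, rfl⟩

theorem isSeq_mkseq {F : M → M} [F1 F] : IsSeq (mkseq a F) a := by
  constructor
  · intro z hz
    obtain ⟨x, hx, e⟩ := mem_mkseq.1 hz
    exact ⟨x, hx, F x, e⟩
  · intro x hx
    exact ⟨F x, opair_mem_mkseq.2 ⟨hx, rfl⟩, fun y hy => (opair_mem_mkseq.1 hy).2⟩

theorem ap_mkseq {F : M → M} [F1 F] (hx : x ∈ a) : ap (mkseq a F) x = F x :=
  isSeq_mkseq.ap_eq (opair_mem_mkseq.2 ⟨hx, rfl⟩)

/-- The function which is `e` on `c` and `F` on `a \ c`. -/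
noncomputable def glue (c e a : M) (F : M → M) : M :=
  un (res e c) (mkseq (sep a (fun x => x ∉ c)) F)

theorem opair_mem_glue {e : M} {F : M → M} [F1 F] : opair x y ∈ glue c e a F ↔
    (opair x y ∈ e ∧ x ∈ c) ∨ ((x ∈ a ∧ x ∉ c) ∧ y = F x) := by
  unfold glue
  rw [mem_un, opair_mem_res, opair_mem_mkseq, mem_sep]

theorem isSeq_glue {e : M} {F : M → M} [F1 F] (he : IsSeq e c) (hc : c ⊆ a) :
    IsSeq (glue c e a F) a := by
  constructor
  · intro z hz
    unfold glue at hz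
    rw [mem_un, mem_res, mem_mkseq] at hz
    rcases hz with ⟨_, x, hx, y, rfl⟩ | ⟨x, hx, rfl⟩
    · exact ⟨x, hc x hx, y, rfl⟩
    · rw [mem_sep] at hx
      exact ⟨x, hx.1, _, rfl⟩
  · intro x hx
    by_cases hxc : x ∈ c
    · refine ⟨ap e x, opair_mem_glue.2 (Or.inl ⟨he.opair_ap hxc, hxc⟩), fun y hy => ?_⟩
      rcases opair_mem_glue.1 hy with h | h
      · exact (he.ap_eq h.1).symm
      · exact absurd hxc h.1.2
    · refine ⟨F x, opair_mem_glue.2 (Or.inr ⟨⟨hx, hxc⟩, rfl⟩), fun y hy => ?_⟩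
      rcases opair_mem_glue.1 hy with h | h
      · exact absurd h.2 hxc
      · exact h.2

theorem ap_glue_in {e : M} {F : M → M} [F1 F] (he : IsSeq e c) (hc : c ⊆ a) (hx : x ∈ c) :
    ap (glue c e a F) x = ap e x :=
  (isSeq_glue he hc).ap_eq (opair_mem_glue.2 (Or.inl ⟨he.opair_ap hx, hx⟩))

theorem ap_glue_out {e : M} {F : M → M} [F1 F] (he : IsSeq e c) (hc : c ⊆ a) (hx : x ∈ a)
    (hxc : x ∉ c) : ap (glue c e a F) x = F x :=
  (isSeq_glue he hc).ap_eq (opair_mem_glue.2 (Or.inr ⟨⟨hx, hxc⟩, rfl⟩))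

theorem res_glue {e : M} {F : M → M} [F1 F] (he : IsSeq e c) (hc : c ⊆ a) :
    res (glue c e a F) c = e := by
  refine ((isSeq_glue he hc).res hc).ext he fun x hx => ?_
  rw [ap_res (isSeq_glue he hc) hc hx, ap_glue_in he hc hx]

end

theorem isSeq_emp : IsSeq (emp : M) emp :=
  ⟨fun z hz => absurd hz (not_mem_emp z), fun x hx => absurd hx (not_mem_emp x)⟩

theorem isSeq_emp_iff {f : M} : IsSeq f emp ↔ f = emp := by
  constructor
  · intro h
    exact h.ext isSeq_emp fun x hx => absurd hx (not_mem_emp x)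
  · rintro rfl
    exact isSeq_emp

end Pool.Agent.ZFIter
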