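import Pool.Agent.ZFIter.Names
import Pool.Agent.ZFIter.Ctb

/-! # The iterands of the counterexample

For a set `X` of sets of natural numbers, containing the empty set, the forcing notion with
underlying set `X` in which distinct nonempty members are incompatible and the empty set is the
maximum. -/

set_option linter.unusedSectionVars false

universe u

namespace Pool.Agent.ZFIter

open Pool.Agent.H78.ZF

variable {M : Type u} [ZFM M] {ι : Type}

/-- First coordinate. -/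
noncomputable def fst (w : M) : M := iota (fun x => ∃ y, w = opair x y)

/-- Second coordinate. -/
noncomputable def snd (w : M) : M := iota (fun y => ∃ x, w = opair x y)

instance DF.fst (s : (ι → M) → M) [DF s] : DF (fun v => fst (s v)) := by
  unfold ZFIter.fst
  infer_instance

instance DF.snd (s : (ι → M) → M) [DF s] : DF (fun v => snd (s v)) := by
  unfold ZFIter.snd
  infer_instance

@[simp] theorem fst_opair (x y : M) : fst (opair x y) = x :=
  iota_eq ⟨y, rfl⟩ (by rintro z ⟨w, e⟩; exact (Pool.Agent.H78.ZF.opair_inj e).1.symm)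

@[simp] theorem snd_opair (x y : M) : snd (opair x y) = y :=
  iota_eq ⟨x, rfl⟩ (by rintro z ⟨w, e⟩; exact (Pool.Agent.H78.ZF.opair_inj e).2.symm)

/-- The name of the set `X`. -/
noncomputable def Qn (L X : M) : M := prod (img X (fun s => tau L s)) L

instance DF.Qn (L X : (ι → M) → M) [DF L] [DF X] : DF (fun v => Qn (L v) (X v)) := by
  unfold ZFIter.Qn
  infer_instance

/-- The order on `X`, as a set of pairs. -/
noncomputable def ordX (X : M) : M :=
  sep (prod X X) (fun w => fst w = snd w ∨ snd w = emp)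

instance DF.ordX (X : (ι → M) → M) [DF X] : DF (fun v => ordX (X v)) := by
  unfold ZFIter.ordX
  infer_instance

theorem mem_ordX {X s t : M} : opair s t ∈ ordX X ↔ s ∈ X ∧ t ∈ X ∧ (s = t ∨ t = emp) := by
  unfold ordX
  rw [mem_sep, opair_mem_prod, fst_opair, snd_opair, and_assoc]

/-- The name of the order on `X`. -/
noncomputable def Sn (L X : M) : M :=
  prod (img (ordX X) (fun w => opn L (tau L (fst w)) (tau L (snd w)))) L

instance DF.Sn (L X : (ι → M) → M) [DF L] [DF X] : DF (fun v => Sn (L v) (X v)) := by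
  unfold ZFIter.Sn
  infer_instance

theorem tau_emp (L : M) : tau L emp = emp := by
  apply eq_emp
  intro z hz
  unfold tau at hz
  rw [mem_prod] at hz
  obtain ⟨a, ha, _⟩ := hz
  rw [mem_img] at ha
  obtain ⟨k, hk, _⟩ := ha
  exact not_mem_emp _ hk

section

variable {P R L : M} [hP : Pre P R] (hL : Lab P R L) {X : M} {p q x y z a b c : M}

include hL

theorem fmem_Qn : FMem P R p x (Qn L X) ↔
    ∀ q, Le P R q p → ∃ r, Le P R r q ∧ ∃ s, s ∈ X ∧ FEq P R r x (tau L s) := by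
  unfold Qn
  rw [fmem_prod hL]
  constructor
  · intro h q hq
    obtain ⟨r, hr, a, ha, hE⟩ := h q hq
    rw [mem_img] at ha
    obtain ⟨n, hn, rfl⟩ := ha
    exact ⟨r, hr, n, hn, hE⟩
  · intro h q hq
    obtain ⟨r, hr, n, hn, hE⟩ := h q hq
    exact ⟨r, hr, _, by rw [mem_img]; exact ⟨n, hn, rfl⟩, hE⟩

theorem fmem_Qn_of {s : M} (hs : s ∈ X) : FMem P R p (tau L s) (Qn L X) :=
  (fmem_Qn hL).2 fun q hq => ⟨q, Pre.refl hq.memL, s, hs, feq_refl _ _⟩

theorem rel_Sn : (forc P R).rel (Sn L X) x y p ↔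
    ∀ q, Le P R q p → ∃ r, Le P R r q ∧ ∃ s t, s ∈ X ∧ t ∈ X ∧ (s = t ∨ t = emp) ∧
      FEq P R r x (tau L s) ∧ FEq P R r y (tau L t) := by
  have hmem : ∀ z t, opair z t ∈ Sn L X ↔ (∃ s u, s ∈ X ∧ u ∈ X ∧ (s = u ∨ u = emp) ∧
      z = opn L (tau L s) (tau L u)) ∧ t ∈ L := by
    intro z t
    unfold Sn
    rw [opair_mem_prod, mem_img]
    constructor
    · rintro ⟨⟨w, hw, rfl⟩, ht⟩
      refine ⟨?_, ht⟩
      have hw' := hw
      unfold ordX at hw'
      rw [mem_sep, mem_prod] at hw'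
      obtain ⟨⟨s, hs, u, hu, rfl⟩, _⟩ := hw'
      rw [mem_ordX] at hw
      exact ⟨s, u, hw.1, hw.2.1, hw.2.2, by rw [fst_opair, snd_opair]⟩
    · rintro ⟨⟨s, u, hs, hu, h1, rfl⟩, ht⟩
      exact ⟨⟨opair s u, mem_ordX.2 ⟨hs, hu, h1⟩, by rw [fst_opair, snd_opair]⟩, ht⟩
  rw [rel_iff' hL (fun z t hz => by
    obtain ⟨⟨s, u, _, _, _, e⟩, _⟩ := (hmem z t).1 hz
    exact ⟨_, _, e⟩)]
  constructor
  · intro h q hq
    obtain ⟨r, hr, a, b, t, hg, ht, h4, h5⟩ := h q hq
    obtain ⟨⟨s, u, hs, hu, h1, e⟩, _⟩ := (hmem _ _).1 hg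
    have e' : FEq P R r (opn L a b) (opn L (tau L s) (tau L u)) := by rw [e]; exact feq_refl _ _
    obtain ⟨e1, e2⟩ := opn_inj hL e'
    exact ⟨r, hr, s, u, hs, hu, h1, feq_trans h4 e1, feq_trans h5 e2⟩
  · intro h q hq
    obtain ⟨r, hr, s, u, hs, hu, h1, h4, h5⟩ := h q hq
    obtain ⟨t, ht, hrt⟩ := hL r hr.memL
    exact ⟨r, hr, tau L s, tau L u, t, (hmem _ _).2 ⟨⟨s, u, hs, hu, h1, rfl⟩, ht⟩, hrt, h4, h5⟩

theorem rel_Sn_of {s t : M} (hs : s ∈ X) (ht : t ∈ X) (h : s = t ∨ t = emp) :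
    (forc P R).rel (Sn L X) (tau L s) (tau L t) p :=
  (rel_Sn hL).2 fun q hq => ⟨q, Pre.refl hq.memL, s, t, hs, ht, h, feq_refl _ _, feq_refl _ _⟩

/-- The name `(Qn, Sn, ∅)` names a forcing notion. -/
theorem isForcing_Qn (hX : ∀ s, s ∈ X → s ⊆ omega) (h0 : emp ∈ X) (p : M) :
    (forc P R).isForcing (Qn L X) (Sn L X) emp p := by
  refine ⟨?_, ?_, ?_⟩
  · have := fmem_Qn_of (P := P) (R := R) (p := p) hL h0
    rw [tau_emp] at this
    exact this
  · intro x q hq hx
    constructor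
    · rw [rel_Sn hL]
      intro q' hq'
      obtain ⟨r, hr, s, hs, hE⟩ := (fmem_Qn hL).1 hx q' hq'
      exact ⟨r, hr, s, s, hs, hs, Or.inl rfl, hE, hE⟩
    · rw [rel_Sn hL]
      intro q' hq'
      obtain ⟨r, hr, s, hs, hE⟩ := (fmem_Qn hL).1 hx q' hq'
      exact ⟨r, hr, s, emp, hs, h0, Or.inr rfl, hE, by rw [tau_emp]; exact feq_refl _ _⟩
  · intro x y z q1 _ _ q2 h2 _ q3 h3 _ q4 h4 hxy q5 h5 hyz
    rw [rel_Sn hL] at hxy hyz ⊢
    intro q hq
    obtain ⟨r, hr, s, t, hs, ht, h6, h7, h8⟩ := hxy q (Pre.trans hq h5)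
    obtain ⟨r', hr', t', u, ht', hu, h9, h10, h11⟩ := hyz r (Pre.trans hr hq)
    have e : t = t' := tau_inj hL (hX t ht) (hX t' ht') hr'.memL
      (feq_trans (feq_symm (feq_mono h8 hr')) h10)
    subst e
    refine ⟨r', Pre.trans hr' hr, s, u, hs, hu, ?_, feq_mono h7 hr', h11⟩
    rcases h9 with rfl | h9
    · exact h6
    · exact Or.inr h9

/-- Distinct nonempty members of `X` are incompatible. -/
theorem compat_Qn (hX : ∀ s, s ∈ X → s ⊆ omega) {s t : M} (hs : s ∈ X) (ht : t ∈ X)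
    (hp : p ∈ P) (h : (forc P R).compat (Qn L X) (Sn L X) (tau L s) (tau L t) p) :
    s = t ∨ s = emp ∨ t = emp := by
  obtain ⟨r, hr, z, hz, h1, h2⟩ := fex_elim h hp
  obtain ⟨r1, hr1, a, b, ha, hb, h3, h4, h5⟩ := (rel_Sn hL).1 h1 r (Pre.refl hr.memL)
  obtain ⟨r2, hr2, a', b', ha', hb', h3', h4', h5'⟩ := (rel_Sn hL).1 h2 r1 hr1
  have e1 : s = b := tau_inj hL (hX s hs) (hX b hb) hr1.memL h5
  have e2 : t = b' := tau_inj hL (hX t ht) (hX b' hb') hr2.memL h5'
  have e3 : a = a' := tau_inj hL (hX a ha) (hX a' ha') hr2.memL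
    (feq_trans (feq_symm (feq_mono h4 hr2)) h4')
  subst e1 e2 e3
  rcases h3 with h3 | h3
  · rcases h3' with h3' | h3'
    · left; rw [← h3, h3']
    · right; right; exact h3'
  · right; left; exact h3

/-- Every subset of `Qn` is forced to be countable if `X` is countable. -/
theorem countable_Qn (hX : ∀ s, s ∈ X → s ⊆ omega) (hc : Ctb X) {C : M}
    (hC : (forc P R).sub C (Qn L X) p) : (forc P R).countable C p := by
  obtain ⟨c, hc⟩ := hc
  set g : M := sep (prod (img X (fun s => opn L (tau L s) (chkn L (ap c s)))) P)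
    (fun w => ∃ s, s ∈ X ∧ ∃ t, w = opair (opn L (tau L s) (chkn L (ap c s))) t ∧
      FMem P R t (tau L s) C) with hg
  have memg : ∀ z t, opair z t ∈ g ↔ t ∈ P ∧ ∃ s, s ∈ X ∧ z = opn L (tau L s) (chkn L (ap c s)) ∧
      FMem P R t (tau L s) C := by
    intro z t
    rw [hg, mem_sep, opair_mem_prod, mem_img]
    constructor
    · rintro ⟨⟨_, ht⟩, s, hs, t', e, h⟩
      obtain ⟨e1, rfl⟩ := Pool.Agent.H78.ZF.opair_inj e
      exact ⟨ht, s, hs, e1, h⟩
    · rintro ⟨ht, s, hs, rfl, h⟩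
      exact ⟨⟨⟨s, hs, rfl⟩, ht⟩, s, hs, t, rfl, h⟩
  have hrel : ∀ x y p, (forc P R).rel g x y p ↔ ∀ q, Le P R q p → ∃ r, Le P R r q ∧
      ∃ s, s ∈ X ∧ FMem P R r (tau L s) C ∧ FEq P R r x (tau L s) ∧
        FEq P R r y (chkn L (ap c s)) := by
    intro x y p
    rw [rel_iff' hL (fun z t hz => by
      obtain ⟨_, s, _, e, _⟩ := (memg z t).1 hz
      exact ⟨_, _, e⟩)]
    constructor
    · intro h q hq
      obtain ⟨r, hr, a, b, t, h1, ht, h4, h5⟩ := h q hq
      obtain ⟨_, s, hs, e, hm⟩ := (memg _ _).1 h1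
      have e' : FEq P R r (opn L a b) (opn L (tau L s) (chkn L (ap c s))) := by
        rw [e]; exact feq_refl _ _
      obtain ⟨e1, e2⟩ := opn_inj hL e'
      exact ⟨r, hr, s, hs, fmem_mono hm ht, feq_trans h4 e1, feq_trans h5 e2⟩
    · intro h q hq
      obtain ⟨r, hr, s, hs, hm, h4, h5⟩ := h q hq
      exact ⟨r, hr, tau L s, chkn L (ap c s), r, (memg _ _).2 ⟨hr.memL, s, hs, rfl, hm⟩,
        Pre.refl hr.memL, h4, h5⟩
  have hinj : (forc P R).isInjection g C (omN L) p := by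
    refine ⟨?_, ?_, ?_, ?_⟩
    · intro z q hq hz
      refine (Good.fex (P := P) (R := R) _).dense fun q' hq' => ?_
      obtain ⟨r, hr, z', t, hz', ht, hE⟩ := hz q' hq'
      obtain ⟨_, s, hs, rfl, hm⟩ := (memg _ _).1 hz'
      refine ⟨r, hr, ?_⟩
      refine fex_intro (A := fun x => (forc P R).ex fun y => (forc P R).and ((forc P R).mem x C)
        ((forc P R).and ((forc P R).mem y (omN L)) ((forc P R).isOPair z x y))) (tau L s) ?_
      refine fex_intro (A := fun y => (forc P R).and ((forc P R).mem (tau L s) C)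
        ((forc P R).and ((forc P R).mem y (omN L)) ((forc P R).isOPair z (tau L s) y)))
        (chkn L (ap c s)) ⟨fmem_mono hm ht, ?_, (isOPair_iff' hL).2 hE⟩
      exact fmem_prod_of hL (by rw [mem_img]; exact ⟨_, hc.fun.ap_mem hs, rfl⟩)
    · intro x q hq hx
      refine (Good.fex (P := P) (R := R) _).dense fun q' hq' => ?_
      have h1 := hC x q' (Pre.trans hq' hq) (fmem_mono hx hq')
      obtain ⟨r, hr, s, hs, hE⟩ := (fmem_Qn hL).1 h1 q' (Pre.refl hq'.memL)
      refine ⟨r, hr, ?_⟩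
      refine fex_intro (A := fun y => (forc P R).and ((forc P R).mem y (omN L))
        ((forc P R).rel g x y)) (chkn L (ap c s)) ⟨?_, ?_⟩
      · exact fmem_prod_of hL (by rw [mem_img]; exact ⟨_, hc.fun.ap_mem hs, rfl⟩)
      · rw [hrel]
        intro r' hr'
        refine ⟨r', Pre.refl hr'.memL, s, hs, ?_, feq_mono hE hr', feq_refl _ _⟩
        exact fmem_congrL (feq_mono hE hr') (fmem_mono hx (Pre.trans hr' (Pre.trans hr hq')))
    · intro x y y' q1 _ h1 q2 h2 h3
      rw [hrel] at h1 h3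
      refine feq_dense fun q hq => ?_
      obtain ⟨r, hr, s, hs, _, h4, h5⟩ := h1 q (Pre.trans hq h2)
      obtain ⟨r', hr', s', hs', _, h4', h5'⟩ := h3 r (Pre.trans hr hq)
      have e : s = s' := tau_inj hL (hX s hs) (hX s' hs') hr'.memL
        (feq_trans (feq_symm (feq_mono h4 hr')) h4')
      subst e
      exact ⟨r', Pre.trans hr' hr, feq_trans (feq_mono h5 hr') (feq_symm h5')⟩
    · intro x x' y q1 _ h1 q2 h2 h3
      rw [hrel] at h1 h3
      refine feq_dense fun q hq => ?_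
      obtain ⟨r, hr, s, hs, _, h4, h5⟩ := h1 q (Pre.trans hq h2)
      obtain ⟨r', hr', s', hs', _, h4', h5'⟩ := h3 r (Pre.trans hr hq)
      have e : ap c s = ap c s' := chkn_inj hL (hc.fun.ap_mem hs) (hc.fun.ap_mem hs') hr'.memL
        (feq_trans (feq_symm (feq_mono h5 hr')) h5')
      have e' := hc.ap_inj hs hs' e
      subst e'
      exact ⟨r', Pre.trans hr' hr, feq_trans (feq_mono h4 hr') (feq_symm h4')⟩
  refine fex_intro (A := fun w => (forc P R).ex fun g => (forc P R).and ((forc P R).isOmega w)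
    ((forc P R).isInjection g C w)) (omN L) ?_
  exact fex_intro (A := fun g => (forc P R).and ((forc P R).isOmega (omN L))
    ((forc P R).isInjection g C (omN L))) g ⟨isOmega_omN hL p, hinj⟩

/-- All three chain conditions are forced. -/
theorem ccc_Qn (hX : ∀ s, s ∈ X → s ⊆ omega) (hc : Ctb X) (i : Fin 3) (p : M) :
    (forc P R).ccc i (Qn L X) (Sn L X) p := by
  fin_cases i
  · intro A q hq hA
    exact countable_Qn hL hX hc hA.1.1
  · intro A q hq hA
    exact countable_Qn hL hX hc hA.1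
  · intro D q hq hD
    refine fex_intro (A := fun C => (forc P R).and ((forc P R).sub C D)
      ((forc P R).and ((forc P R).predense (Qn L X) (Sn L X) C) ((forc P R).countable C))) D
      ⟨fun x r _ h => h, hD, countable_Qn hL hX hc hD.1⟩

end

end Pool.Agent.ZFIter
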