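import Pool.Agent.ZFIter.Iter
import Pool.Agent.ZFIter.NatName

/-! # The successor step of the iteration theorem for `ccc_3` -/

universe u

namespace Pool.Agent.ZFIter

open Pool.Agent.H78.ZF

variable {M : Type u} [ZFM M] {ι : Type}

/-- `D` is a predense subset of `(P, R)`. -/
def PD (P R D : M) : Prop := D ⊆ P ∧ ∀ x, x ∈ P → ∃ y, y ∈ D ∧ ∃ r, Le P R r x ∧ Le P R r y

instance DR.PD (P R D : (ι → M) → M) [DF P] [DF R] [DF D] : DR (fun v => PD (P v) (R v) (D v)) := by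
  unfold ZFIter.PD
  infer_instance

/-- Every predense subset contains a countable predense subset. -/
def CCC3 (P R : M) : Prop := ∀ D, PD P R D → ∃ C, C ⊆ D ∧ PD P R C ∧ Ctb C

instance DR.CCC3 (P R : (ι → M) → M) [DF P] [DF R] : DR (fun v => CCC3 (P v) (R v)) := by
  unfold ZFIter.CCC3
  infer_instance

theorem PD.mono {P R D D' : M} (h : PD P R D) (h1 : D ⊆ D') (h2 : D' ⊆ P) : PD P R D' :=
  ⟨h2, fun x hx => by
    obtain ⟨y, hy, h⟩ := h.2 x hx
    exact ⟨y, h1 y hy, h⟩⟩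

theorem pd_of_dense {P R D : M} [Pre P R] (h1 : D ⊆ P)
    (h2 : ∀ x, x ∈ P → ∃ y, y ∈ D ∧ Le P R y x) : PD P R D :=
  ⟨h1, fun x hx => by
    obtain ⟨y, hy, h⟩ := h2 x hx
    exact ⟨y, hy, y, h, Pre.refl h.memL⟩⟩

/-- The name `{(d(β), d ↾ β) : d ∈ X}`. -/
noncomputable def nmD (β X : M) : M := img X (fun d => opair (ap d β) (res d β))

instance DF.nmD (β X : (ι → M) → M) [DF β] [DF X] : DF (fun v => nmD (β v) (X v)) := by
  unfold ZFIter.nmD
  infer_instance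

theorem mem_nmD {β X z s : M} : opair z s ∈ nmD β X ↔ ∃ d, d ∈ X ∧ z = ap d β ∧ s = res d β := by
  unfold nmD
  rw [mem_img]
  constructor
  · rintro ⟨d, hd, e⟩
    obtain ⟨rfl, rfl⟩ := opair_inj e
    exact ⟨d, hd, rfl, rfl⟩
  · rintro ⟨d, hd, rfl, rfl⟩
    exact ⟨d, hd, rfl⟩

section iter

variable {δ P R Q S o N : M} (h : Core δ P R Q S o N)

include h

theorem Core.succ_mem {β : M} (hβ : β ∈ δ) : succ β ∈ succ δ := by
  rcases ord_trichotomy (h.ord.mem hβ).succ h.ord_succ with h1 | h1 | h1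
  · exact h1
  · have h2 : δ ∈ succ β := by rw [h1]; simp
    rw [mem_succ] at h2
    rcases h2 with h2 | h2
    · exact absurd h2 (h.ord.asymm hβ)
    · rw [h2] at hβ; exact absurd hβ (not_mem_self _)
  · have h2 : δ ∈ succ β := (h.ord.mem hβ).succ.trans (mem_succ_self δ) h1
    rw [mem_succ] at h2
    rcases h2 with h2 | h2
    · exact absurd h2 (h.ord.asymm hβ)
    · rw [h2] at hβ; exact absurd hβ (not_mem_self _)

variable {β : M} (hβ : β ∈ δ)

include hβ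

theorem Core.succ_le_iff {e p : M} :
    Le (ap P (succ β)) (ap R (succ β)) e p ↔ e ∈ ap P (succ β) ∧ p ∈ ap P (succ β) ∧
      Le (ap P β) (ap R β) (res e β) (res p β) ∧
      (forc (ap P β) (ap R β)).rel (ap S β) (ap e β) (ap p β) (res e β) := by
  have hα := h.succ_mem hβ
  have hβα : β ∈ succ (succ β) := lt_succ_of_lt (mem_succ_self β)
  have hsub : β ⊆ succ β := fun z hz => by rw [mem_succ]; exact Or.inl hz
  constructor
  · intro hle
    have h1 := (h.le_iff hα).1 hle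
    exact ⟨h1.1, h1.2.1, h.res_le hα hβα hle, h1.2.2 β (mem_succ_self β)⟩
  · rintro ⟨he, hp, h1, h2⟩
    rw [h.le_iff hα]
    refine ⟨he, hp, fun γ hγ => ?_⟩
    rw [mem_succ] at hγ
    rcases hγ with hγ | rfl
    · have h3 := ((h.le_iff (h.le hα hβα)).1 h1).2.2 γ hγ
      rw [ap_res (h.seq hα he) hsub hγ, ap_res (h.seq hα hp) hsub hγ,
        res_res ((h.ord.mem hβ).1 γ hγ)] at h3
      exact h3
    · exact h2

/-- One-point extension of conditions. -/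
theorem Core.cat {e x : M} (he : e ∈ ap P β) (hx : x ∈ ap N β) :
    ∃ c, c ∈ ap P (succ β) ∧ res c β = e ∧ ap c β = x := by
  have hα := h.succ_mem hβ
  have hβα : β ∈ succ (succ β) := lt_succ_of_lt (mem_succ_self β)
  have hs := h.sub hα hβα
  have hes := h.seq (lt_succ_of_lt hβ) he
  refine ⟨glue β e (succ β) (fun _ => x), ?_, res_glue hes hs,
    ap_glue_out hes hs (mem_succ_self β) (not_mem_self β)⟩
  refine h.glue_mem hα hβα he (fun _ => x) (fun γ hγ hγβ => ?_) ?_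
  · rw [mem_succ] at hγ
    rw [hγ.resolve_left hγβ]
    exact hx
  · refine fin_sub (fin_sing β) fun γ hγ => ?_
    rw [mem_sep, mem_succ] at hγ
    rw [mem_sing]
    exact hγ.1.resolve_left hγ.2.1

theorem Core.cat_compat {p d r : M} (hp : p ∈ ap P (succ β)) (hd : d ∈ ap P (succ β))
    (hrp : Le (ap P β) (ap R β) r (res p β)) (hrd : Le (ap P β) (ap R β) r (res d β))
    (hc : (forc (ap P β) (ap R β)).compat (ap Q β) (ap S β) (ap p β) (ap d β) r) :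
    ∃ e, Le (ap P (succ β)) (ap R (succ β)) e p ∧ Le (ap P (succ β)) (ap R (succ β)) e d := by
  have := h.pre_lt hβ
  obtain ⟨r', hr', z, hz⟩ := fex_elim hc hrp.memL
  obtain ⟨y, hy, hE⟩ := h.full_below hβ hr'.memL hz.1
  obtain ⟨e, he, he1, he2⟩ := h.cat hβ hr'.memL hy
  refine ⟨e, (h.succ_le_iff hβ).2 ⟨he, hp, ?_, ?_⟩, (h.succ_le_iff hβ).2 ⟨he, hd, ?_, ?_⟩⟩
  · rw [he1]; exact Pre.trans hr' hrp
  · rw [he1, he2]; exact rel_congr hz.2.1 hE (feq_refl _ _)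
  · rw [he1]; exact Pre.trans hr' hrd
  · rw [he1, he2]; exact rel_congr hz.2.2 hE (feq_refl _ _)

theorem Core.compat_of_le {p d e : M} (hp : Le (ap P (succ β)) (ap R (succ β)) e p)
    (hd : Le (ap P (succ β)) (ap R (succ β)) e d) :
    (forc (ap P β) (ap R β)).compat (ap Q β) (ap S β) (ap p β) (ap d β) (res e β) := by
  have := h.pre_lt hβ
  have h1 := (h.succ_le_iff hβ).1 hp
  have h2 := (h.succ_le_iff hβ).1 hd
  refine fex_intro (A := fun r => (forc (ap P β) (ap R β)).and ((forc (ap P β) (ap R β)).mem r (ap Q β))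
    ((forc (ap P β) (ap R β)).and ((forc (ap P β) (ap R β)).rel (ap S β) r (ap p β))
      ((forc (ap P β) (ap R β)).rel (ap S β) r (ap d β)))) (ap e β) ⟨?_, h1.2.2.2, h2.2.2.2⟩
  exact h.names β hβ _ (h.ap_mem (h.succ_mem hβ) h1.1 (mem_succ_self β)) _ h1.2.2.1.memL

/-- The name of a set of conditions names a subset of `Q_β`. -/
theorem Core.nm_sub {X : M} (hX : X ⊆ ap P (succ β)) (p : M) :
    (forc (ap P β) (ap R β)).sub (nmD β X) (ap Q β) p := by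
  have := h.pre_lt hβ
  intro x q hq hm
  refine (Good.fmem (P := ap P β) (R := ap R β) x (ap Q β)).dense fun q' hq' => ?_
  obtain ⟨r, hr, z, s, hz, hs, hE⟩ := hm q' hq'
  obtain ⟨d, hd, rfl, rfl⟩ := mem_nmD.1 hz
  refine ⟨r, hr, fmem_congrL (feq_symm hE) ?_⟩
  exact h.names β hβ _ (h.ap_mem (h.succ_mem hβ) (hX d hd) (mem_succ_self β)) _ hr.memL

/-- The name of a predense set is forced to be predense. -/
theorem Core.nm_predense {D : M} (hD : PD (ap P (succ β)) (ap R (succ β)) D) (p : M) :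
    (forc (ap P β) (ap R β)).predense (ap Q β) (ap S β) (nmD β D) p := by
  have := h.pre_lt hβ
  refine ⟨h.nm_sub hβ hD.1 p, ?_⟩
  intro x q hq hm q' hq'
  have hm' := fmem_mono hm hq'
  obtain ⟨y, hy, hE⟩ := h.full_below hβ hq'.memL hm'
  obtain ⟨c, hc, hc1, hc2⟩ := h.cat hβ hq'.memL hy
  obtain ⟨d, hd, e, hec, hed⟩ := hD.2 c hc
  have h1 := (h.succ_le_iff hβ).1 hec
  have h2 := (h.succ_le_iff hβ).1 hed
  rw [hc1] at h1
  refine ⟨res e β, h1.2.2.1, ap d β, ?_, ?_⟩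
  · exact fmem_of (mem_nmD.2 ⟨d, hd, rfl, rfl⟩) h2.2.2.1
  · have h3 := h.compat_of_le hβ hec hed
    rw [hc2] at h3
    exact compat_congr h3 (feq_symm (feq_mono hE h1.2.2.1)) (feq_refl _ _)

/-- Below each condition there is a countable part of `D` whose name is forced predense. -/
theorem Core.dense_ctb (hDC : DC M) (hP : CCC3 (ap P β) (ap R β))
    (hQ : Forced (ap P β) ((forc (ap P β) (ap R β)).ccc3 (ap Q β) (ap S β)))
    {D : M} (hD : PD (ap P (succ β)) (ap R (succ β)) D) {p : M} (hp : p ∈ ap P β) :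
    ∃ q, Le (ap P β) (ap R β) q p ∧ ∃ D', D' ⊆ D ∧ Ctb D' ∧
      (forc (ap P β) (ap R β)).predense (ap Q β) (ap S β) (nmD β D') q := by
  have := h.pre_lt hβ
  have h0 := hQ p hp (nmD β D) p (Pre.refl hp) (h.nm_predense hβ hD p)
  obtain ⟨q0, hq0, C, hC⟩ := fex_elim h0 hp
  obtain ⟨q1, hq1, w, hw⟩ := fex_elim hC.2.2 hq0.memL
  obtain ⟨q, hq2, g, hg⟩ := fex_elim hw hq1.memL
  have hqp := Pre.trans hq2 (Pre.trans hq1 hq0)
  have hCD : (forc (ap P β) (ap R β)).sub C (nmD β D) q :=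
    (Good.fsub (P := ap P β) (R := ap R β) C (nmD β D)).mono hC.1 (Pre.trans hq2 hq1)
  have hCpd : (forc (ap P β) (ap R β)).predense (ap Q β) (ap S β) C q :=
    (Good.fpredense (P := ap P β) (R := ap R β) (ap Q β) (ap S β) C).mono hC.2.1
      (Pre.trans hq2 hq1)
  obtain ⟨hω, hinj⟩ := hg
  -- the relation `A n s`
  set A : M → M → Prop := fun n s => ∃ d, d ∈ D ∧ Le (ap P β) (ap R β) s (res d β) ∧
    (forc (ap P β) (ap R β)).rel g (ap d β) (chkn (ap P β) n) s with hA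
  have hAmono : ∀ n s t, A n s → Le (ap P β) (ap R β) t s → A n t := by
    rintro n s t ⟨d, hd, h1, h2⟩ hts
    exact ⟨d, hd, Pre.trans hts h1, (Good.frel (P := ap P β) (R := ap R β) _ _ _).mono h2 hts⟩
  have hAD : D2 A := by rw [hA]; infer_instance
  set Y : M → M := fun n => sep (ap P β) (fun s => A n s ∨ ∀ t, Le (ap P β) (ap R β) t s → ¬ A n t)
    with hY
  have hYF : F1 Y := by rw [hY]; infer_instance
  have memY : ∀ n s, s ∈ Y n ↔ s ∈ ap P β ∧ (A n s ∨ ∀ t, Le (ap P β) (ap R β) t s → ¬ A n t) := by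
    intro n s
    have : D1 (fun s => A n s ∨ ∀ t, Le (ap P β) (ap R β) t s → ¬ A n t) := by infer_instance
    exact mem_sep _ _ _
  have hYpd : ∀ n, PD (ap P β) (ap R β) (Y n) := by
    intro n
    refine pd_of_dense (fun s hs => ((memY n s).1 hs).1) fun x hx => ?_
    by_cases h1 : ∃ t, Le (ap P β) (ap R β) t x ∧ A n t
    · obtain ⟨t, ht, hAt⟩ := h1
      exact ⟨t, (memY n t).2 ⟨ht.memL, Or.inl hAt⟩, ht⟩
    · push Not at h1
      exact ⟨x, (memY n x).2 ⟨hx, Or.inr h1⟩, Pre.refl hx⟩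
  obtain ⟨E, hE, hEprop⟩ := ac_omega hDC (pow (ap P β)) (fun n e => e ⊆ Y n ∧
      PD (ap P β) (ap R β) e ∧ Ctb e) (by
    intro n _
    obtain ⟨C, hCY, hCpd, hCc⟩ := hP (Y n) (hYpd n)
    refine ⟨C, ?_, hCY, hCpd, hCc⟩
    rw [mem_pow]
    exact hCpd.1)
  -- the countable index set
  set K : M := sUn (img omega (fun n => prod (sing n) (ap E n))) with hK
  have memK : ∀ k, k ∈ K ↔ ∃ n, n ∈ (omega : M) ∧ ∃ s, s ∈ ap E n ∧ k = opair n s := by
    intro k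
    rw [hK, mem_sUn]
    constructor
    · rintro ⟨y, hy, hk⟩
      rw [mem_img] at hy
      obtain ⟨n, hn, rfl⟩ := hy
      rw [mem_prod] at hk
      obtain ⟨n', hn', s, hs, rfl⟩ := hk
      rw [mem_sing] at hn'
      subst hn'
      exact ⟨n', hn, s, hs, rfl⟩
    · rintro ⟨n, hn, s, hs, rfl⟩
      exact ⟨prod (sing n) (ap E n), by rw [mem_img]; exact ⟨n, hn, rfl⟩, by simp [hs]⟩
  have hKc : Ctb K := by
    refine ctb_union hDC ctb_omega (fun n => prod (sing n) (ap E n)) fun n hn => ?_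
    refine ctb_image (hEprop n hn).2.2 (fun s z => z = opair n s) (fun z hz => ?_)
      (fun x z z' _ _ h h' => by rw [h, h'])
    rw [mem_prod] at hz
    obtain ⟨n', hn', s, hs, rfl⟩ := hz
    rw [mem_sing] at hn'
    subst hn'
    exact ⟨s, hs, rfl⟩
  -- `D` is nonempty
  obtain ⟨d0, hd0⟩ : ∃ d, d ∈ D := by
    obtain ⟨c, hc, _, _⟩ := h.cat hβ hp (h.top_mem β hβ)
    obtain ⟨d, hd, _⟩ := hD.2 c hc
    exact ⟨d, hd⟩
  obtain ⟨f, hf, hfprop⟩ := ac_ctb hDC hKc D (fun k d => ∀ n s, k = opair n s → A n s →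
      Le (ap P β) (ap R β) s (res d β) ∧
        (forc (ap P β) (ap R β)).rel g (ap d β) (chkn (ap P β) n) s) (by
    intro k hk
    obtain ⟨n, hn, s, hs, rfl⟩ := (memK k).1 hk
    by_cases h1 : A n s
    · obtain ⟨d, hd, h2, h3⟩ := h1
      refine ⟨d, hd, fun n' s' e _ => ?_⟩
      obtain ⟨rfl, rfl⟩ := opair_inj e
      exact ⟨h2, h3⟩
    · refine ⟨d0, hd0, fun n' s' e h2 => ?_⟩
      obtain ⟨rfl, rfl⟩ := opair_inj e
      exact absurd h2 h1)
  refine ⟨q, hqp, img K (fun k => ap f k), ?_, ctb_img hKc _, ?_⟩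
  · intro d hd
    rw [mem_img] at hd
    obtain ⟨k, hk, rfl⟩ := hd
    exact hf.ap_mem hk
  have hsubD : img K (fun k => ap f k) ⊆ ap P (succ β) := by
    intro d hd
    rw [mem_img] at hd
    obtain ⟨k, hk, rfl⟩ := hd
    exact hD.1 _ (hf.ap_mem hk)
  refine ⟨h.nm_sub hβ hsubD q, ?_⟩
  intro x q1 hq1 hm q2 hq2
  -- a member `c` of `C` compatible with `x`
  obtain ⟨r1, hr1, c, hc1, hc2⟩ := hCpd.2 x q1 hq1 hm q2 hq2
  have hr1q : Le (ap P β) (ap R β) r1 q := Pre.trans hr1 (Pre.trans hq2 hq1)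
  -- its value `m` under `g`
  obtain ⟨r2, hr2, m, hm1, hm2⟩ := hinj.2.1 c r1 hr1q hc1 r1 (Pre.refl hr1.memL)
  have hr2q := Pre.trans hr2 hr1q
  obtain ⟨r3, hr3, n, hn, hmn⟩ := nat_of_isOmega (P := ap P β) (R := ap R β) lab_self hr2.memL
    ((Good.fisOmega (P := ap P β) (R := ap R β) w).mono hω hr2q) hm1
  have hgc : (forc (ap P β) (ap R β)).rel g c (chkn (ap P β) n) r3 :=
    rel_congr ((Good.frel (P := ap P β) (R := ap R β) _ _ _).mono hm2 hr3) (feq_refl _ _) hmn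
  have hr3q := Pre.trans hr3 hr2q
  -- `c` is `d(β)` for some `d ∈ D`
  have hcD : FMem (ap P β) (ap R β) r3 c (nmD β D) :=
    hCD c r3 hr3q (fmem_mono hc1 (Pre.trans hr3 hr2))
  obtain ⟨r4, hr4, z, s, hz, hs, hcz⟩ := hcD r3 (Pre.refl hr3.memL)
  obtain ⟨d, hd, rfl, rfl⟩ := mem_nmD.1 hz
  have hA4 : A n r4 := ⟨d, hd, hs,
    rel_congr ((Good.frel (P := ap P β) (R := ap R β) _ _ _).mono hgc hr4) hcz (feq_refl _ _)⟩
  obtain ⟨hEY, hEpd, _⟩ := hEprop n hn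
  obtain ⟨s, hsE, r5, hr5, hr5s⟩ := hEpd.2 r4 hr4.memL
  have hAs : A n s := by
    rcases ((memY n s).1 (hEY s hsE)).2 with h1 | h1
    · exact h1
    · exact absurd (hAmono n r4 r5 hA4 hr5) (h1 r5 hr5s)
  have hk : opair n s ∈ K := (memK _).2 ⟨n, hn, s, hsE, rfl⟩
  obtain ⟨h6, h7⟩ := hfprop (opair n s) hk n s rfl hAs
  set d' := ap f (opair n s) with hd'
  have hr53 : Le (ap P β) (ap R β) r5 r3 := Pre.trans hr5 hr4
  have hr5q := Pre.trans hr53 hr3q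
  have hEq : FEq (ap P β) (ap R β) r5 c (ap d' β) :=
    hinj.2.2.2 c (ap d' β) (chkn (ap P β) n) r5 hr5q
      ((Good.frel (P := ap P β) (R := ap R β) _ _ _).mono hgc hr53) r5 (Pre.refl hr5.memL)
      ((Good.frel (P := ap P β) (R := ap R β) _ _ _).mono h7 hr5s)
  have hr51 : Le (ap P β) (ap R β) r5 r1 := Pre.trans hr53 (Pre.trans hr3 hr2)
  refine ⟨r5, Pre.trans hr51 hr1, ap d' β, ?_, ?_⟩
  · refine fmem_of (mem_nmD.2 ⟨d', ?_, rfl, rfl⟩) (Pre.trans hr5s h6)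
    rw [mem_img]
    exact ⟨_, hk, rfl⟩
  · exact compat_congr ((Good.fcompat (P := ap P β) (R := ap R β) _ _ _ _).mono hc2 hr51)
      (feq_refl _ _) hEq

/-- The successor step. -/
theorem Core.ccc3_succ (hDC : DC M) (hP : CCC3 (ap P β) (ap R β))
    (hQ : Forced (ap P β) ((forc (ap P β) (ap R β)).ccc3 (ap Q β) (ap S β))) :
    CCC3 (ap P (succ β)) (ap R (succ β)) := by
  have := h.pre_lt hβ
  intro D hD
  set Δ : M := sep (ap P β) (fun q => ∃ D', D' ⊆ D ∧ Ctb D' ∧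
      (forc (ap P β) (ap R β)).predense (ap Q β) (ap S β) (nmD β D') q) with hΔ
  have memΔ : ∀ q, q ∈ Δ ↔ q ∈ ap P β ∧ ∃ D', D' ⊆ D ∧ Ctb D' ∧
      (forc (ap P β) (ap R β)).predense (ap Q β) (ap S β) (nmD β D') q := by
    intro q
    rw [hΔ, mem_sep]
  have hΔpd : PD (ap P β) (ap R β) Δ := by
    refine pd_of_dense (fun s hs => ((memΔ s).1 hs).1) fun x hx => ?_
    obtain ⟨q, hq, h1⟩ := h.dense_ctb hβ hDC hP hQ hD hx
    exact ⟨q, (memΔ q).2 ⟨hq.memL, h1⟩, hq⟩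
  obtain ⟨C, hC, hCpd, hCc⟩ := hP Δ hΔpd
  obtain ⟨f, hf, hfprop⟩ := ac_ctb hDC hCc (pow D) (fun q D' => D' ⊆ D ∧ Ctb D' ∧
      (forc (ap P β) (ap R β)).predense (ap Q β) (ap S β) (nmD β D') q) (by
    intro q hq
    obtain ⟨_, D', h1, h2, h3⟩ := (memΔ q).1 (hC q hq)
    refine ⟨D', ?_, h1, h2, h3⟩
    rw [mem_pow]
    exact h1)
  have memU : ∀ d, d ∈ sUn (img C (fun q => ap f q)) ↔ ∃ q, q ∈ C ∧ d ∈ ap f q := by
    intro d
    rw [mem_sUn]
    constructor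
    · rintro ⟨y, hy, hd⟩
      rw [mem_img] at hy
      obtain ⟨q, hq, rfl⟩ := hy
      exact ⟨q, hq, hd⟩
    · rintro ⟨q, hq, hd⟩
      exact ⟨ap f q, by rw [mem_img]; exact ⟨q, hq, rfl⟩, hd⟩
  have hUD : sUn (img C (fun q => ap f q)) ⊆ D := by
    intro d hd
    obtain ⟨q, hq, hd⟩ := (memU d).1 hd
    exact (hfprop q hq).1 d hd
  refine ⟨sUn (img C (fun q => ap f q)), hUD, ⟨sub_trans hUD hD.1, fun p hp => ?_⟩,
    ctb_union hDC hCc _ fun q hq => (hfprop q hq).2.1⟩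
  have hα := h.succ_mem hβ
  have hβα : β ∈ succ (succ β) := lt_succ_of_lt (mem_succ_self β)
  have hp' := h.res_mem hα hβα hp
  obtain ⟨c, hc, r, hr, hrc⟩ := hCpd.2 _ hp'
  obtain ⟨h1, h2, h3⟩ := hfprop c hc
  have hmem : FMem (ap P β) (ap R β) r (ap p β) (ap Q β) :=
    h.names β hβ _ (h.ap_mem hα hp (mem_succ_self β)) _ hr.memL
  obtain ⟨r1, hr1, y, hy, hcomp⟩ := h3.2 (ap p β) r hrc hmem r (Pre.refl hr.memL)
  obtain ⟨r2, hr2, z, s, hz, hs, hE⟩ := hy r1 (Pre.refl hr1.memL)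
  obtain ⟨d, hd, rfl, rfl⟩ := mem_nmD.1 hz
  have hdD : d ∈ D := h1 d hd
  obtain ⟨e, he1, he2⟩ := h.cat_compat hβ hp (hD.1 d hdD) (Pre.trans hr2 (Pre.trans hr1 hr)) hs
    (compat_congr ((Good.fcompat (P := ap P β) (R := ap R β) _ _ _ _).mono hcomp hr2)
      (feq_refl _ _) hE)
  exact ⟨d, (memU d).2 ⟨c, hc, hd⟩, e, he1, he2⟩

end iter

end Pool.Agent.ZFIter
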